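import Mathlib
import Pool.Agent.Helper993.FKDef

open scoped InnerProductSpace Topology

noncomputable section

namespace Pool.Agent.Helper993.Delta

/-- The order of the torsion subgroup of `Z / B`, for subgroups `B ⊆ Z` of an abelian group. -/
def torsionCard {M : Type} [AddCommGroup M] (Z B : Submodule ℤ M) : ℕ :=
  Nat.card (Submodule.torsion ℤ (Z ⧸ B.submoduleOf Z))

/-- The operator `B B* + A* A`. -/
def bothWays {H K L : Type} [NormedAddCommGroup H] [InnerProductSpace ℂ H] [CompleteSpace H]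
    [NormedAddCommGroup K] [InnerProductSpace ℂ K] [CompleteSpace K]
    [NormedAddCommGroup L] [InnerProductSpace ℂ L] [CompleteSpace L]
    (A : H →L[ℂ] K) (B : L →L[ℂ] H) : H →L[ℂ] H :=
  B ∘L B.adjoint + A.adjoint ∘L A

/-- The operator `B B*`. -/
def oneWay {H L : Type} [NormedAddCommGroup H] [InnerProductSpace ℂ H] [CompleteSpace H]
    [NormedAddCommGroup L] [InnerProductSpace ℂ L] [CompleteSpace L] (B : L →L[ℂ] H) :
    H →L[ℂ] H :=
  B ∘L B.adjoint

/-- The von Neumann dimension of the kernel of `T`: the von Neumann trace of the orthogonal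
projection onto the kernel. -/
def dimKer {G : Type} [Group G] {r : ℕ} (T : FK.L2Pow G r →L[ℂ] FK.L2Pow G r) : ℝ :=
  ∑ i, (⟪(FK.unitVec i : FK.L2Pow G r), T.ker.starProjection (FK.unitVec i)⟫_ℂ).re

/-- A `Δ`-set: simplices and face maps `d_i`, with `d_i d_{j+1} = d_j d_i` for `i ≤ j`. -/
structure DeltaSet where
  /-- the `n`-simplices -/
  simplex : ℕ → Type
  /-- the face maps -/
  face : ∀ n, Fin (n + 2) → simplex (n + 1) → simplex n
  face_face : ∀ n (i j : Fin (n + 2)), i ≤ j → ∀ σ : simplex (n + 2),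
    face n i (face (n + 1) j.succ σ) = face n j (face (n + 1) i.castSucc σ)

namespace DeltaSet

/-- The simplicial boundary map `C_{n+1} → C_n`, the alternating sum of the faces. -/
def boundary (K : DeltaSet) (n : ℕ) : (K.simplex (n + 1) →₀ ℤ) →ₗ[ℤ] (K.simplex n →₀ ℤ) :=
  ∑ i : Fin (n + 2), ((-1 : ℤ) ^ (i : ℕ)) • Finsupp.lmapDomain ℤ ℤ (K.face n i)

/-- The `n`-cycles. -/
def cycles (K : DeltaSet) : ∀ n, Submodule ℤ (K.simplex n →₀ ℤ)
  | 0 => ⊤
  | n + 1 => LinearMap.ker (K.boundary n)

/-- The `n`-boundaries. -/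
def boundaries (K : DeltaSet) (n : ℕ) : Submodule ℤ (K.simplex n →₀ ℤ) :=
  LinearMap.range (K.boundary n)

/-- The order of the torsion subgroup of the `n`-th simplicial homology group `H_n(K; ℤ)`, the
quotient of the cycles by the boundaries. -/
def torsionOrder (K : DeltaSet) (n : ℕ) : ℕ :=
  torsionCard (K.cycles n) (K.boundaries n)

end DeltaSet

/-- A finite `Δ`-complex with exactly one vertex. -/
structure OneVertex where
  /-- the number of `n`-simplices -/
  num : ℕ → ℕ
  num_zero : num 0 = 1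
  /-- a bound for the dimension -/
  dim : ℕ
  num_eq_zero : ∀ n, dim < n → num n = 0
  /-- the face maps -/
  face : ∀ n, Fin (n + 2) → Fin (num (n + 1)) → Fin (num n)
  face_face : ∀ n (i j : Fin (n + 2)), i ≤ j → ∀ σ : Fin (num (n + 2)),
    face n i (face (n + 1) j.succ σ) = face n j (face (n + 1) i.castSucc σ)

namespace OneVertex

variable (X : OneVertex)

/-- The relator `[01] [12] [02]⁻¹` of a triangle. -/
def rel (σ : Fin (X.num 2)) : FreeGroup (Fin (X.num 1)) :=
  FreeGroup.of (X.face 1 2 σ) * FreeGroup.of (X.face 1 0 σ) * (FreeGroup.of (X.face 1 1 σ))⁻¹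

/-- The fundamental group: generators are the edges, relators are the triangles. -/
def pi1 : Type := PresentedGroup (Set.range X.rel)

instance : Group X.pi1 := inferInstanceAs (Group (PresentedGroup (Set.range X.rel)))

/-- The class of an edge in the fundamental group. -/
def cls (e : Fin (X.num 1)) : X.pi1 := PresentedGroup.of (rels := Set.range X.rel) e

/-- The edge `[01]` of a simplex. -/
def edge : ∀ n, Fin (X.num (n + 1)) → Fin (X.num 1)
  | 0, σ => σ
  | n + 1, σ => edge n (X.face (n + 1) (Fin.last (n + 2)) σ)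

/-- The triangle `[012]` of a simplex. -/
def tri : ∀ n, Fin (X.num (n + 2)) → Fin (X.num 2)
  | 0, σ => σ
  | n + 1, σ => tri n (X.face (n + 2) (Fin.last (n + 3)) σ)

theorem cls_rel (σ : Fin (X.num 2)) :
    X.cls (X.face 1 1 σ) = X.cls (X.face 1 2 σ) * X.cls (X.face 1 0 σ) := by
  have h : (PresentedGroup.mk (Set.range X.rel)) (X.rel σ) = 1 :=
    PresentedGroup.one_of_mem ⟨σ, rfl⟩
  have h2 : X.cls (X.face 1 2 σ) * X.cls (X.face 1 0 σ) * (X.cls (X.face 1 1 σ))⁻¹ = 1 := h
  rw [mul_inv_eq_one] at h2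
  exact h2.symm

theorem edge_face_succ (n : ℕ) (j : Fin (n + 2)) (hj : 1 ≤ (j : ℕ)) (σ : Fin (X.num (n + 2))) :
    X.edge n (X.face (n + 1) j.succ σ) = X.edge (n + 1) σ := by
  induction n with
  | zero =>
    have : j = 1 := by
      have := j.isLt
      ext
      simp only [Fin.val_one]
      omega
    subst this
    rfl
  | succ n ih =>
    rcases Fin.eq_castSucc_or_eq_last j with ⟨k, rfl⟩ | rfl
    · change X.edge n (X.face (n + 1) (Fin.last (n + 2)) (X.face (n + 2) k.castSucc.succ σ))
        = X.edge (n + 1) (X.face (n + 2) (Fin.last (n + 3)) σ)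
      have h1 := X.face_face (n + 1) k.succ (Fin.last (n + 2)) (Fin.le_last _) σ
      rw [Fin.succ_last] at h1
      rw [Fin.succ_castSucc, ← h1]
      exact ih k hj _
    · rfl

theorem edge_eq_tri (n : ℕ) (σ : Fin (X.num (n + 2))) :
    X.edge (n + 1) σ = X.face 1 2 (X.tri n σ) := by
  induction n with
  | zero => rfl
  | succ n ih => exact ih _

theorem edge_one_eq_tri (n : ℕ) (σ : Fin (X.num (n + 2))) :
    X.edge n (X.face (n + 1) 1 σ) = X.face 1 1 (X.tri n σ) := by
  induction n with
  | zero => rfl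
  | succ n ih =>
    have h1 := X.face_face (n + 1) 1 (Fin.last (n + 2)) (Fin.le_last _) σ
    rw [Fin.succ_last] at h1
    have h2 : (1 : Fin (n + 3)).castSucc = 1 := rfl
    rw [h2] at h1
    change X.edge n (X.face (n + 1) (Fin.last (n + 2)) (X.face (n + 2) 1 σ)) = _
    rw [← h1]
    exact ih _

theorem edge_zero_eq_tri (n : ℕ) (σ : Fin (X.num (n + 2))) :
    X.edge n (X.face (n + 1) 0 σ) = X.face 1 0 (X.tri n σ) := by
  induction n with
  | zero => rfl
  | succ n ih =>
    have h1 := X.face_face (n + 1) 0 (Fin.last (n + 2)) (Fin.le_last _) σ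
    rw [Fin.succ_last] at h1
    have h2 : (0 : Fin (n + 3)).castSucc = 0 := rfl
    rw [h2] at h1
    change X.edge n (X.face (n + 1) (Fin.last (n + 2)) (X.face (n + 2) 0 σ)) = _
    rw [← h1]
    exact ih _

/-- The class in the fundamental group of the edge `[01]` of a simplex. -/
def label (n : ℕ) (σ : Fin (X.num (n + 1))) : X.pi1 := X.cls (X.edge n σ)

theorem label_one (n : ℕ) (σ : Fin (X.num (n + 2))) :
    X.label n (X.face (n + 1) 1 σ) = X.label (n + 1) σ * X.label n (X.face (n + 1) 0 σ) := by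
  unfold label
  rw [edge_one_eq_tri, edge_eq_tri, edge_zero_eq_tri, cls_rel]

theorem label_succ (n : ℕ) (j : Fin (n + 2)) (hj : 1 ≤ (j : ℕ)) (σ : Fin (X.num (n + 2))) :
    X.label n (X.face (n + 1) j.succ σ) = X.label (n + 1) σ := by
  unfold label
  rw [edge_face_succ X n j hj]

/-- A face of a simplex of the quotient `X̃/N` of the universal covering: a simplex is a pair
`(g, σ)` where `g` is its first vertex. -/
def coverFace (N : Subgroup X.pi1) [N.Normal] (n : ℕ) (i : Fin (n + 2))
    (p : (X.pi1 ⧸ N) × Fin (X.num (n + 1))) : (X.pi1 ⧸ N) × Fin (X.num n) :=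
  (if i = 0 then p.1 * (X.label n p.2 : X.pi1 ⧸ N) else p.1, X.face n i p.2)

theorem coverFace_coverFace (N : Subgroup X.pi1) [N.Normal] (n : ℕ) (i j : Fin (n + 2))
    (hij : i ≤ j) (p : (X.pi1 ⧸ N) × Fin (X.num (n + 2))) :
    X.coverFace N n i (X.coverFace N (n + 1) j.succ p)
      = X.coverFace N n j (X.coverFace N (n + 1) i.castSucc p) := by
  obtain ⟨g, σ⟩ := p
  unfold coverFace
  ext1
  · simp only [Fin.succ_ne_zero, if_false]
    by_cases hi : i = 0
    · subst hi
      simp only [if_true, Fin.castSucc_zero]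
      by_cases hj : j = 0
      · subst hj
        simp only [if_true]
        have h := X.label_one n σ
        have h3 : (0 : Fin (n + 2)).succ = 1 := rfl
        rw [h3, h, QuotientGroup.mk_mul, mul_assoc]
      · simp only [if_neg hj]
        have h1 : 1 ≤ (j : ℕ) := by
          rcases Nat.eq_zero_or_pos (j : ℕ) with h | h
          · exact absurd (Fin.ext h) hj
          · exact h
        rw [X.label_succ n j h1 σ]
    · have hj : j ≠ 0 := by
        rintro rfl
        exact hi (Fin.le_zero_iff.mp hij)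
      have hi' : i.castSucc ≠ 0 := by
        intro h
        apply hi
        exact Fin.castSucc_eq_zero_iff.mp h
      simp only [if_neg hi, if_neg hj, if_neg hi']
  · exact X.face_face n i j hij σ

/-- The covering `X̃/N` of `X`, a `Δ`-set. -/
def cover (N : Subgroup X.pi1) [N.Normal] : DeltaSet where
  simplex n := (X.pi1 ⧸ N) × Fin (X.num n)
  face := X.coverFace N
  face_face := X.coverFace_coverFace N

/-- The boundary matrix `C_{n+1}(X̃) → C_n(X̃)` over the group ring of the fundamental group, where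
`C_n(X̃)` is free with basis the `n`-simplices of `X` and chains are row vectors. -/
def boundary (n : ℕ) : Matrix (Fin (X.num (n + 1))) (Fin (X.num n)) (MonoidAlgebra ℤ X.pi1) :=
  Matrix.of fun σ τ => ∑ i : Fin (n + 2), if X.face n i σ = τ then
    MonoidAlgebra.single (if i = 0 then X.label n σ else 1) ((-1 : ℤ) ^ (i : ℕ)) else 0

/-- The boundary operator `ℓ²(G) ⊗ C_{n+1}(X̃) → ℓ²(G) ⊗ C_n(X̃)`. -/
def l2boundary (n : ℕ) : FK.L2Pow X.pi1 (X.num (n + 1)) →L[ℂ] FK.L2Pow X.pi1 (X.num n) :=
  FK.rMul ((X.boundary n).map (MonoidAlgebra.mapRingHom X.pi1 (Int.castRingHom ℚ)))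

/-- The combinatorial Laplacian `∂_{n+1} ∂_{n+1}* + ∂_n* ∂_n`. -/
def laplacian : ∀ n, FK.L2Pow X.pi1 (X.num n) →L[ℂ] FK.L2Pow X.pi1 (X.num n)
  | 0 => oneWay (X.l2boundary 0)
  | n + 1 => bothWays (X.l2boundary n) (X.l2boundary (n + 1))

/-- The `L²`-Betti number: the von Neumann dimension of the kernel of the Laplacian. -/
def l2betti (n : ℕ) : ℝ := dimKer (X.laplacian n)

/-- The universal covering is det-`L²`-acyclic. -/
def DetL2Acyclic : Prop :=
  ∀ n, X.l2betti n = 0 ∧ 0 < FK.fkDet (X.laplacian n)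

/-- The `L²`-torsion. -/
def l2torsion : ℝ :=
  -(1 / 2) * ∑ n ∈ Finset.range (X.dim + 1), (-1) ^ n * n * Real.log (FK.fkDet (X.laplacian n))

/-- The alternating sum of the normalised `log |tors H_n(X̃/N; ℤ)|`. -/
def torsionSum (N : Subgroup X.pi1) [N.Normal] : ℝ :=
  ∑ n ∈ Finset.range (X.dim + 1),
    (-1) ^ n * (Real.log ((X.cover N).torsionOrder n) / (N.index : ℝ))

end OneVertex

/-- The statement of the problem for the complexes `X` above. -/
def TorsionGrowth : Prop :=
  ∀ X : OneVertex, X.DetL2Acyclic → ∀ (N : ℕ → Subgroup X.pi1) [∀ i, (N i).Normal],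
    (∀ i, (N i).FiniteIndex) → N 0 = ⊤ → Antitone N → ⨅ i, N i = ⊥ →
      Filter.Tendsto (fun i => X.torsionSum (N i)) Filter.atTop (𝓝 X.l2torsion)

end Pool.Agent.Helper993.Delta
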