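import Mathlib

namespace Pool.Agent.Helper993.HeisDet

open Matrix Finset

theorem sign_addRight_one {m : ℕ} [NeZero m] (hm : Odd m) :
    Equiv.Perm.sign (Equiv.addRight (1 : ZMod m)) = 1 := by
  have h1 : (Equiv.addRight (1 : ZMod m) : Equiv.Perm (ZMod m)) ^ m = 1 := by
    have key : ∀ j : ℕ, ∀ x : ZMod m,
        ((Equiv.addRight (1 : ZMod m) : Equiv.Perm (ZMod m)) ^ j) x = x + j := by
      intro j
      induction j with
      | zero => intro x; simp
      | succ j ih => intro x; rw [pow_succ', Equiv.Perm.mul_apply, ih]; simp [add_assoc]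
    ext x
    rw [key m x]; simp
  have h2 : (Equiv.Perm.sign (Equiv.addRight (1 : ZMod m))) ^ m = 1 := by
    rw [← map_pow, h1, map_one]
  rcases Int.units_eq_one_or (Equiv.Perm.sign (Equiv.addRight (1 : ZMod m))) with h | h
  · exact h
  · rw [h, hm.neg_one_pow] at h2
    exact absurd h2 (by decide)

theorem det_cyclic {m : ℕ} [NeZero m] (hm : Odd m) (w : ZMod m → ℂ) :
    (Matrix.of fun a a' : ZMod m =>
      (if a' = a then (1:ℂ) else 0) + (if a' = a + 1 then w a else 0)).det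
      = 1 + ∏ a, w a := by
  classical
  by_cases hm1 : m = 1
  · subst hm1
    rw [Matrix.det_unique]
    simp
    intro h
    exact absurd (Subsingleton.elim _ _) h
  have hm2 : 1 < m := by
    have := NeZero.ne m
    omega
  have : Fact (1 < m) := ⟨hm2⟩
  rw [← Matrix.det_transpose, Matrix.det_apply']
  set τ : Equiv.Perm (ZMod m) := Equiv.addRight (1 : ZMod m) with hτ
  have hne : (1 : Equiv.Perm (ZMod m)) ≠ τ := by
    intro h
    have := congrArg (fun e : Equiv.Perm (ZMod m) => e 0) h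
    simp [hτ] at this
  have hzero : ∀ σ : Equiv.Perm (ZMod m), σ ≠ 1 → σ ≠ τ →
      ((Equiv.Perm.sign σ : ℤ) : ℂ) * ∏ i, (Matrix.of fun a a' : ZMod m =>
      (if a' = a then (1:ℂ) else 0) + (if a' = a + 1 then w a else 0))ᵀ (σ i) i = 0 := by
    intro σ h1 h2
    by_cases hall : ∀ i, σ i = i ∨ σ i = i + 1
    · exfalso
      obtain ⟨i, hi⟩ : ∃ i, σ i ≠ i := by
        by_contra hcon
        push Not at hcon
        exact h1 (Equiv.ext hcon)
      have hstep : ∀ j : ℕ, σ (i + j) = i + j + 1 := by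
        intro j
        induction j with
        | zero => simpa using (hall i).resolve_left hi
        | succ j ih =>
          have h3 : σ (i + j + 1) ≠ i + j + 1 := by
            intro h4
            have h5 : i + (j : ZMod m) + 1 = i + j := σ.injective (h4.trans ih.symm)
            simp at h5
          have h6 := (hall (i + j + 1)).resolve_left h3
          push_cast
          rw [← add_assoc]
          exact h6
      apply h2
      ext x
      have h7 := hstep (x - i).val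
      rw [ZMod.natCast_zmod_val] at h7
      have h8 : i + (x - i) = x := by ring
      rw [h8] at h7
      rw [h7, hτ]
      rfl
    · push Not at hall
      obtain ⟨i, hi1, hi2⟩ := hall
      rw [Finset.prod_eq_zero (Finset.mem_univ i), mul_zero]
      simp [Matrix.transpose_apply, hi1, hi2]
  rw [← Finset.sum_subset (Finset.subset_univ {1, τ})]
  · rw [Finset.sum_pair hne]
    congr 1
    · simp only [Equiv.Perm.sign_one, Units.val_one, Int.cast_one, one_mul]
      apply Finset.prod_eq_one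
      intro i _
      simp [Matrix.transpose_apply]
    · rw [sign_addRight_one hm]
      simp only [Units.val_one, Int.cast_one, one_mul]
      apply Finset.prod_congr rfl
      intro i _
      simp [Matrix.transpose_apply, hτ]
  · intro σ _ hσ
    simp only [Finset.mem_insert, Finset.mem_singleton, not_or] at hσ
    exact hzero σ hσ.1 hσ.2

/-- The Heisenberg group over a commutative ring, with coordinates `(a, b, c)` and
multiplication `(a,b,c)(a',b',c') = (a+a', b+b', c+c'+ab')`. -/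
@[ext] structure Heis (R : Type) where
  a : R
  b : R
  c : R

namespace Heis

variable {R : Type} [CommRing R]

instance : Mul (Heis R) := ⟨fun x y => ⟨x.a + y.a, x.b + y.b, x.c + y.c + x.a * y.b⟩⟩
instance : One (Heis R) := ⟨⟨0, 0, 0⟩⟩
instance : Inv (Heis R) := ⟨fun x => ⟨-x.a, -x.b, -x.c + x.a * x.b⟩⟩

@[simp] theorem mul_a (x y : Heis R) : (x * y).a = x.a + y.a := rfl
@[simp] theorem mul_b (x y : Heis R) : (x * y).b = x.b + y.b := rfl
@[simp] theorem mul_c (x y : Heis R) : (x * y).c = x.c + y.c + x.a * y.b := rfl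
@[simp] theorem one_a : (1 : Heis R).a = 0 := rfl
@[simp] theorem one_b : (1 : Heis R).b = 0 := rfl
@[simp] theorem one_c : (1 : Heis R).c = 0 := rfl
@[simp] theorem inv_a (x : Heis R) : (x⁻¹).a = -x.a := rfl
@[simp] theorem inv_b (x : Heis R) : (x⁻¹).b = -x.b := rfl
@[simp] theorem inv_c (x : Heis R) : (x⁻¹).c = -x.c + x.a * x.b := rfl

instance : Group (Heis R) :=
  Group.ofLeftAxioms
    (by intro x y z; ext <;> simp <;> ring)
    (by intro x; ext <;> simp)
    (by intro x; ext <;> simp)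

end Heis

/-- The subgroup of integer triples `(a, b, c)` with `m ∣ a`, `n ∣ b`, `k ∣ c`,
where `k ∣ m`. -/
def cong (n k m : ℕ) (hkm : k ∣ m) : Subgroup (Heis ℤ) where
  carrier := {g | (m : ℤ) ∣ g.a ∧ (n : ℤ) ∣ g.b ∧ (k : ℤ) ∣ g.c}
  mul_mem' := by
    intro x y hx hy
    obtain ⟨h1, h2, h3⟩ := hx
    obtain ⟨h4, h5, h6⟩ := hy
    have hk : (k : ℤ) ∣ x.a := (Int.natCast_dvd_natCast.mpr hkm).trans h1
    exact ⟨dvd_add h1 h4, dvd_add h2 h5, dvd_add (dvd_add h3 h6) (Dvd.dvd.mul_right hk _)⟩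
  one_mem' := ⟨dvd_zero _, dvd_zero _, dvd_zero _⟩
  inv_mem' := by
    intro x hx
    obtain ⟨h1, h2, h3⟩ := hx
    have hk : (k : ℤ) ∣ x.a := (Int.natCast_dvd_natCast.mpr hkm).trans h1
    exact ⟨(dvd_neg).mpr h1, (dvd_neg).mpr h2,
      dvd_add ((dvd_neg).mpr h3) (Dvd.dvd.mul_right hk _)⟩

theorem mem_cong {n k m : ℕ} {hkm : k ∣ m} {g : Heis ℤ} :
    g ∈ cong n k m hkm ↔ (m : ℤ) ∣ g.a ∧ (n : ℤ) ∣ g.b ∧ (k : ℤ) ∣ g.c := Iff.rfl

theorem cong_normal {n k m : ℕ} (hkm : k ∣ m) (hkn : k ∣ n) : (cong n k m hkm).Normal := by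
  constructor
  intro x hx g
  obtain ⟨h1, h2, h3⟩ := hx
  have hk : (k : ℤ) ∣ x.a := (Int.natCast_dvd_natCast.mpr hkm).trans h1
  have hk2 : (k : ℤ) ∣ x.b := (Int.natCast_dvd_natCast.mpr hkn).trans h2
  refine mem_cong.mpr ⟨?_, ?_, ?_⟩
  · simpa using h1
  · simpa using h2
  · have : (g * x * g⁻¹).c = x.c + g.a * x.b - x.a * g.b := by simp; ring
    rw [this]
    exact dvd_sub (dvd_add h3 (Dvd.dvd.mul_left hk2 _)) (Dvd.dvd.mul_right hk _)

/-- coordinates on the quotient -/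
noncomputable def coordEquiv {n k m : ℕ} [NeZero n] [NeZero k] [NeZero m]
    (hkm : k ∣ m) (hkn : k ∣ n) :
    (Heis ℤ ⧸ cong n k m hkm) ≃ ZMod m × ZMod n × ZMod k := by
  refine Equiv.ofBijective
    (Quotient.lift (fun g : Heis ℤ => ((g.a : ZMod m), (g.b : ZMod n), (g.c : ZMod k))) ?_) ?_
  · intro x y hxy
    have h := QuotientGroup.leftRel_apply.mp hxy
    obtain ⟨h1, h2, h3⟩ := mem_cong.mp h
    simp only [Heis.mul_a, Heis.mul_b, Heis.mul_c, Heis.inv_a, Heis.inv_b, Heis.inv_c] at h1 h2 h3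
    have e1 : (x.a : ZMod m) = y.a := by
      rw [ZMod.intCast_eq_intCast_iff_dvd_sub]; convert h1 using 1; ring
    have e2 : (x.b : ZMod n) = y.b := by
      rw [ZMod.intCast_eq_intCast_iff_dvd_sub]; convert h2 using 1; ring
    have e3 : (x.c : ZMod k) = y.c := by
      rw [ZMod.intCast_eq_intCast_iff_dvd_sub]
      have h4 : (k : ℤ) ∣ -x.b + y.b := (Int.natCast_dvd_natCast.mpr hkn).trans h2
      have h5 : y.c - x.c = (-x.c + x.a * x.b + y.c + -x.a * y.b) + x.a * (-x.b + y.b) := by ring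
      rw [h5]
      exact dvd_add h3 (Dvd.dvd.mul_left h4 _)
    simp [e1, e2, e3]
  · constructor
    · intro X Y
      refine Quotient.inductionOn₂ X Y ?_
      intro x y h
      simp only [Quotient.lift_mk, Prod.mk.injEq] at h
      obtain ⟨e1, e2, e3⟩ := h
      apply Quotient.sound
      refine QuotientGroup.leftRel_apply.mpr ?_
      rw [ZMod.intCast_eq_intCast_iff_dvd_sub] at e1 e2 e3
      refine mem_cong.mpr ⟨?_, ?_, ?_⟩
      · simp only [Heis.mul_a, Heis.inv_a]; convert e1 using 1; ring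
      · simp only [Heis.mul_b, Heis.inv_b]; convert e2 using 1; ring
      · simp only [Heis.mul_c, Heis.inv_c, Heis.inv_a]
        have h4 : (k : ℤ) ∣ y.b - x.b := (Int.natCast_dvd_natCast.mpr hkn).trans e2
        have h5 : -x.c + x.a * x.b + y.c + -x.a * y.b = (y.c - x.c) - x.a * (y.b - x.b) := by ring
        rw [h5]
        exact dvd_sub e3 (Dvd.dvd.mul_left h4 _)
    · rintro ⟨a, b, c⟩
      refine ⟨Quotient.mk _ ⟨a.val, b.val, c.val⟩, ?_⟩
      simp

section Fourier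

variable {n k m : ℕ} [NeZero n] [NeZero k] [NeZero m]

/-- the model matrix of `1 + N t - N u t` -/
noncomputable def modelMat (n k m : ℕ) [NeZero n] [NeZero k] [NeZero m] (N : ℂ) :
    Matrix (ZMod m × ZMod n × ZMod k) (ZMod m × ZMod n × ZMod k) ℂ :=
  Matrix.of fun p q =>
    (if q = p then (1:ℂ) else 0) + N * (if q = (p.1 + 1, p.2.1, p.2.2) then 1 else 0)
      - N * (if q = (p.1 + 1, p.2.1 + 1, p.2.2 + (p.1.cast : ZMod k)) then 1 else 0)

noncomputable def four (n k m : ℕ) [NeZero n] [NeZero k] [NeZero m] :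
    Matrix (ZMod m × ZMod n × ZMod k) (ZMod m × ZMod n × ZMod k) ℂ :=
  Matrix.of fun p q => if p.1 = q.1 then
    ZMod.stdAddChar (p.2.1 * q.2.1) * ZMod.stdAddChar (p.2.2 * q.2.2) else 0

noncomputable def fourInv (n k m : ℕ) [NeZero n] [NeZero k] [NeZero m] :
    Matrix (ZMod m × ZMod n × ZMod k) (ZMod m × ZMod n × ZMod k) ℂ :=
  Matrix.of fun q p => if p.1 = q.1 then
    ZMod.stdAddChar (-(p.2.1 * q.2.1)) * ZMod.stdAddChar (-(p.2.2 * q.2.2)) else 0

theorem sum_char {n : ℕ} [NeZero n] (y y' : ZMod n) :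
    ∑ b : ZMod n, (ZMod.stdAddChar (-(b * y)) : ℂ) * ZMod.stdAddChar (b * y')
      = if y = y' then (n : ℂ) else 0 := by
  have h := AddChar.sum_mulShift (y' - y) (ZMod.isPrimitive_stdAddChar n)
  have h2 : ∀ b : ZMod n, (ZMod.stdAddChar (-(b * y)) : ℂ) * ZMod.stdAddChar (b * y')
      = ZMod.stdAddChar (b * (y' - y)) := by
    intro b
    rw [← AddChar.map_add_eq_mul]
    congr 1; ring
  simp_rw [h2]
  rw [h]
  by_cases hy : y = y'
  · simp [hy, ZMod.card]
  · have : y' - y ≠ 0 := sub_ne_zero.mpr (Ne.symm hy)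
    simp [hy, this]

theorem fourInv_mul_four : fourInv n k m * four n k m = ((n : ℂ) * k) • 1 := by
  ext ⟨a, y, θ⟩ ⟨a', y', θ'⟩
  rw [Matrix.mul_apply]
  simp only [fourInv, four, Matrix.of_apply, Matrix.smul_apply, Matrix.one_apply, smul_eq_mul,
    Prod.mk.injEq]
  rw [Fintype.sum_prod_type]
  simp only [Fintype.sum_prod_type]
  by_cases ha : a = a'
  · subst ha
    rw [Finset.sum_eq_single a]
    · simp only [if_true, true_and]
      have : ∀ b c, (ZMod.stdAddChar (-(b * y)) : ℂ) * ZMod.stdAddChar (-(c * θ)) *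
          (ZMod.stdAddChar (b * y') * ZMod.stdAddChar (c * θ'))
          = ((ZMod.stdAddChar (-(b * y)) : ℂ) * ZMod.stdAddChar (b * y')) *
            ((ZMod.stdAddChar (-(c * θ)) : ℂ) * ZMod.stdAddChar (c * θ')) := by
        intro b c; ring
      simp_rw [this, ← Finset.mul_sum, ← Finset.sum_mul, sum_char]
      by_cases h1 : y = y' <;> by_cases h2 : θ = θ' <;> simp [h1, h2]
    · intro b _ hb
      simp [hb]
    · simp
  · simp only [ha, false_and, if_false, mul_zero]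
    apply Finset.sum_eq_zero
    intro b _
    by_cases hb : b = a
    · subst hb; simp [ha]
    · simp [hb]

theorem det_four_ne_zero : (four n k m).det ≠ 0 := by
  intro h
  have h1 := congrArg Matrix.det (fourInv_mul_four (n := n) (k := k) (m := m))
  rw [Matrix.det_mul, h, mul_zero, Matrix.det_smul, Matrix.det_one, mul_one] at h1
  have : ((n : ℂ) * k) ≠ 0 := by
    simp [NeZero.ne n, NeZero.ne k]
  exact (pow_ne_zero _ this) h1.symm

/-- the blocks -/
noncomputable def blk (n k m : ℕ) [NeZero n] [NeZero k] [NeZero m] (N : ℂ) (x : ZMod n × ZMod k) :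
    Matrix (ZMod m) (ZMod m) ℂ :=
  Matrix.of fun a a' : ZMod m => (if a' = a then (1:ℂ) else 0) +
    (if a' = a + 1 then
      N * (1 - ZMod.stdAddChar x.1 * ZMod.stdAddChar (x.2 * (a.cast : ZMod k))) else 0)

theorem model_mul_four (N : ℂ) :
    modelMat n k m N * four n k m = four n k m * Matrix.blockDiagonal (blk n k m N) := by
  ext ⟨a, b, c⟩ ⟨a'', y, θ⟩
  rw [Matrix.mul_apply, Matrix.mul_apply]
  have hL : ∑ q, modelMat n k m N (a, b, c) q * four n k m q (a'', y, θ)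
      = four n k m (a, b, c) (a'', y, θ) + N * four n k m (a + 1, b, c) (a'', y, θ)
        - N * four n k m (a + 1, b + 1, c + (a.cast : ZMod k)) (a'', y, θ) := by
    simp only [modelMat, Matrix.of_apply]
    simp only [add_mul, sub_mul, Finset.sum_add_distrib, Finset.sum_sub_distrib, mul_assoc,
      ← Finset.mul_sum, ite_mul, one_mul, zero_mul, Finset.sum_ite_eq', Finset.mem_univ, if_true]
  rw [hL]
  have hR : ∑ q : ZMod m × ZMod n × ZMod k, four n k m (a, b, c) q *
      Matrix.blockDiagonal (blk n k m N) q (a'', y, θ)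
      = ZMod.stdAddChar (b * y) * ZMod.stdAddChar (c * θ) * blk n k m N (y, θ) a a'' := by
    rw [Finset.sum_eq_single (a, y, θ)]
    · simp [four, Matrix.blockDiagonal_apply]
    · rintro ⟨a1, y1, θ1⟩ _ hne
      by_cases h1 : a = a1
      · subst h1
        have h2 : ¬ ((y1, θ1) = (y, θ)) := by
          intro h; apply hne; rw [h]
        rw [Matrix.blockDiagonal_apply, if_neg h2, mul_zero]
      · simp [four, h1]
    · simp
  rw [hR]
  simp only [four, blk, Matrix.of_apply]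
  have e1 : (ZMod.stdAddChar ((b + 1) * y) : ℂ) = ZMod.stdAddChar (b * y) * ZMod.stdAddChar y := by
    rw [← AddChar.map_add_eq_mul]; congr 1; ring
  have e2 : (ZMod.stdAddChar ((c + (a.cast : ZMod k)) * θ) : ℂ)
      = ZMod.stdAddChar (c * θ) * ZMod.stdAddChar (θ * (a.cast : ZMod k)) := by
    rw [← AddChar.map_add_eq_mul]; congr 1; ring
  rw [e1, e2]
  have s1 : (a = a'') ↔ (a'' = a) := eq_comm
  have s2 : (a + 1 = a'') ↔ (a'' = a + 1) := eq_comm
  simp only [s1, s2]
  split_ifs <;> ring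

theorem det_model (hm : Odd m) (N : ℂ) :
    (modelMat n k m N).det = ∏ x : ZMod n × ZMod k,
      (1 + ∏ a : ZMod m, (N * (1 - ZMod.stdAddChar x.1 *
        ZMod.stdAddChar (x.2 * (a.cast : ZMod k))))) := by
  have h := congrArg Matrix.det (model_mul_four (n := n) (k := k) (m := m) N)
  rw [Matrix.det_mul, Matrix.det_mul, mul_comm] at h
  have h2 := mul_left_cancel₀ det_four_ne_zero h
  rw [h2, Matrix.det_blockDiagonal]
  apply Finset.prod_congr rfl
  intro x _
  exact det_cyclic hm _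

end Fourier

open Polynomial

/-- block value -/
noncomputable def B (m : ℕ) (N η ζ : ℂ) : ℂ := 1 + ∏ j ∈ range m, (N * (1 - η * ζ ^ j))

/-- product of all block values -/
noncomputable def D (n k m : ℕ) (N : ℂ) : ℂ :=
  ∏ η ∈ nthRootsFinset n (1 : ℂ), ∏ ζ ∈ nthRootsFinset k (1 : ℂ), B m N η ζ

theorem prod_char {n : ℕ} [NeZero n] (F : ℂ → ℂ) :
    ∏ y : ZMod n, F (ZMod.stdAddChar y) = ∏ η ∈ nthRootsFinset n (1 : ℂ), F η := by
  classical
  have hinj : Function.Injective (fun y : ZMod n => (ZMod.stdAddChar y : ℂ)) :=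
    ZMod.injective_stdAddChar
  have himg : (univ : Finset (ZMod n)).image (fun y : ZMod n => (ZMod.stdAddChar y : ℂ))
      = nthRootsFinset n (1 : ℂ) := by
    apply Finset.eq_of_subset_of_card_le
    · intro z hz
      simp only [Finset.mem_image, Finset.mem_univ, true_and] at hz
      obtain ⟨y, rfl⟩ := hz
      rw [mem_nthRootsFinset (NeZero.pos n)]
      rw [← AddChar.map_nsmul_eq_pow]
      simp
    · rw [Finset.card_image_of_injective _ hinj, Finset.card_univ, ZMod.card]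
      exact le_of_eq (Complex.isPrimitiveRoot_exp n (NeZero.ne n)).card_nthRootsFinset
  rw [← himg, Finset.prod_image (fun a _ b _ h => hinj h)]

theorem det_model_eq_D {n k m : ℕ} [NeZero n] [NeZero k] [NeZero m] (hm : Odd m)
    (N : ℂ) : (modelMat n k m N).det = D n k m N := by
  rw [det_model hm, Fintype.prod_prod_type]
  have h1 : ∀ (y : ZMod n) (θ : ZMod k),
      (1 + ∏ a : ZMod m, (N * (1 - ZMod.stdAddChar y *
        ZMod.stdAddChar (θ * (a.cast : ZMod k)))) : ℂ)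
      = B m N (ZMod.stdAddChar y) (ZMod.stdAddChar θ) := by
    intro y θ
    unfold B
    congr 1
    have h2 : ∀ a : ZMod m, (ZMod.stdAddChar (θ * (a.cast : ZMod k)) : ℂ)
        = (ZMod.stdAddChar θ : ℂ) ^ a.val := by
      intro a
      rw [← AddChar.map_nsmul_eq_pow]
      congr 1
      rw [ZMod.cast_eq_val, nsmul_eq_mul, mul_comm]
    simp_rw [h2]
    exact (Finset.prod_bij (fun (a : ZMod m) _ => a.val)
      (fun a _ => Finset.mem_range.mpr (ZMod.val_lt a))
      (fun a _ b _ h => ZMod.val_injective m h)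
      (fun j hj => ⟨(j : ZMod m), Finset.mem_univ _,
        ZMod.val_natCast_of_lt (Finset.mem_range.mp hj)⟩)
      (fun a _ => rfl))
  simp_rw [h1]
  rw [D, ← prod_char (fun η => ∏ ζ ∈ nthRootsFinset k (1 : ℂ), B m N η ζ)]
  apply Finset.prod_congr rfl
  intro y _
  exact prod_char (fun ζ => B m N (ZMod.stdAddChar y) ζ)

theorem B_primitive {m : ℕ} (hm : 0 < m) {ζ : ℂ} (hζ : IsPrimitiveRoot ζ m) (N η : ℂ) :
    B m N η ζ = 1 + N ^ m * (1 - η ^ m) := by
  unfold B
  rw [Finset.prod_mul_distrib, Finset.prod_const, Finset.card_range]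
  congr 2
  have h := hζ.pow_sub_pow_eq_prod_sub_mul (x := 1) (y := η) hm
  rw [one_pow] at h
  rw [h]
  refine Finset.prod_bij (fun j _ => ζ ^ j) ?_ ?_ ?_ ?_
  · intro j _
    rw [mem_nthRootsFinset hm, ← pow_mul, mul_comm, pow_mul, hζ.pow_eq_one, one_pow]
  · intro a ha b hb hab
    exact hζ.pow_inj (Finset.mem_range.mp ha) (Finset.mem_range.mp hb) hab
  · intro z hz
    rw [mem_nthRootsFinset hm] at hz
    have : NeZero m := ⟨hm.ne'⟩
    obtain ⟨i, hi, rfl⟩ := hζ.eq_pow_of_pow_eq_one hz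
    exact ⟨i, Finset.mem_range.mpr hi, rfl⟩
  · intro j _
    rw [mul_comm]

theorem norm_B_le {m : ℕ} (hm : 0 < m) (N : ℕ) {η ζ : ℂ} (hη : ‖η‖ = 1) (hζ : ‖ζ‖ = 1) :
    ‖B m N η ζ‖ ≤ (2 * N + 1 : ℝ) ^ m := by
  unfold B
  have h1 : ‖∏ j ∈ range m, ((N : ℂ) * (1 - η * ζ ^ j))‖ ≤ (2 * N : ℝ) ^ m := by
    rw [norm_prod]
    calc ∏ j ∈ range m, ‖(N : ℂ) * (1 - η * ζ ^ j)‖ ≤ ∏ j ∈ range m, (2 * N : ℝ) := by
          apply Finset.prod_le_prod
          · intro i _; exact norm_nonneg _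
          · intro i _
            rw [norm_mul, Complex.norm_natCast]
            have : ‖1 - η * ζ ^ i‖ ≤ 2 := by
              calc ‖1 - η * ζ ^ i‖ ≤ ‖(1:ℂ)‖ + ‖η * ζ ^ i‖ := norm_sub_le _ _
                _ = 2 := by rw [norm_mul, norm_pow, hη, hζ]; norm_num
            have hN : (0:ℝ) ≤ N := Nat.cast_nonneg _
            nlinarith
      _ = (2 * N : ℝ) ^ m := by simp
  have h2 : (1:ℝ) + (2 * N : ℝ) ^ m ≤ (2 * N + 1) ^ m := by
    have := pow_add_pow_le (x := (2 * N : ℝ)) (y := 1) (by positivity) (by norm_num) hm.ne'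
    rw [one_pow] at this
    linarith
  calc ‖1 + ∏ j ∈ range m, ((N : ℂ) * (1 - η * ζ ^ j))‖
      ≤ ‖(1:ℂ)‖ + ‖∏ j ∈ range m, ((N : ℂ) * (1 - η * ζ ^ j))‖ := norm_add_le _ _
    _ ≤ 1 + (2 * N : ℝ) ^ m := by rw [norm_one]; linarith
    _ ≤ _ := h2

theorem norm_eq_one_of_mem {n : ℕ} (hn : 0 < n) {z : ℂ} (hz : z ∈ nthRootsFinset n (1 : ℂ)) :
    ‖z‖ = 1 := by
  rw [mem_nthRootsFinset hn] at hz
  exact Complex.norm_eq_one_of_pow_eq_one hz hn.ne'

theorem roots_split (j : ℕ) :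
    nthRootsFinset (3 ^ (j + 1)) (1 : ℂ) =
      primitiveRoots (3 ^ (j + 1)) ℂ ∪ nthRootsFinset (3 ^ j) (1 : ℂ) := by
  ext z
  rw [Finset.mem_union, mem_nthRootsFinset (by positivity), mem_nthRootsFinset (by positivity),
    mem_primitiveRoots (by positivity)]
  constructor
  · intro h
    by_cases h2 : z ^ 3 ^ j = 1
    · right; exact h2
    · left
      have : orderOf z = 3 ^ (j + 1) := orderOf_eq_prime_pow h2 h
      rw [← this]
      exact IsPrimitiveRoot.orderOf z
  · rintro (h | h)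
    · exact h.pow_eq_one
    · rw [pow_succ, pow_mul, h, one_pow]

theorem roots_disj (j : ℕ) :
    Disjoint (primitiveRoots (3 ^ (j + 1)) ℂ) (nthRootsFinset (3 ^ j) (1 : ℂ)) := by
  rw [Finset.disjoint_left]
  intro z hz hz2
  rw [mem_primitiveRoots (by positivity)] at hz
  rw [mem_nthRootsFinset (by positivity)] at hz2
  have h1 := hz.dvd_of_pow_eq_one _ hz2
  have h2 := Nat.le_of_dvd (by positivity) h1
  have h3 : 3 ^ j < 3 ^ (j + 1) := Nat.pow_lt_pow_right (by norm_num) (Nat.lt_succ_self j)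
  omega

theorem D_split (n m : ℕ) (N : ℂ) (j : ℕ) :
    D n (3 ^ (j + 1)) m N =
      (∏ η ∈ nthRootsFinset n (1 : ℂ), ∏ ζ ∈ primitiveRoots (3 ^ (j + 1)) ℂ, B m N η ζ) *
        D n (3 ^ j) m N := by
  unfold D
  rw [← Finset.prod_mul_distrib]
  apply Finset.prod_congr rfl
  intro η _
  rw [roots_split, Finset.prod_union (roots_disj j)]

theorem norm_D_le {n k m : ℕ} (hn : 0 < n) (hk : 0 < k) (hm : 0 < m) (N : ℕ) :
    ‖D n k m N‖ ≤ ((2 * N + 1 : ℝ) ^ m) ^ (n * k) := by
  unfold D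
  rw [norm_prod]
  calc ∏ η ∈ nthRootsFinset n (1 : ℂ), ‖∏ ζ ∈ nthRootsFinset k (1 : ℂ), B m N η ζ‖
      ≤ ∏ η ∈ nthRootsFinset n (1 : ℂ), ((2 * N + 1 : ℝ) ^ m) ^ k := by
        apply Finset.prod_le_prod
        · intro i _; exact norm_nonneg _
        · intro η hη
          rw [norm_prod]
          calc ∏ ζ ∈ nthRootsFinset k (1 : ℂ), ‖B m N η ζ‖
              ≤ ∏ ζ ∈ nthRootsFinset k (1 : ℂ), ((2 * N + 1 : ℝ) ^ m) := by
                apply Finset.prod_le_prod
                · intro i _; exact norm_nonneg _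
                · intro ζ hζ
                  exact norm_B_le hm N (norm_eq_one_of_mem hn hη) (norm_eq_one_of_mem hk hζ)
            _ = _ := by
                rw [Finset.prod_const,
                  (Complex.isPrimitiveRoot_exp k hk.ne').card_nthRootsFinset]
    _ = _ := by
        rw [Finset.prod_const, (Complex.isPrimitiveRoot_exp n hn.ne').card_nthRootsFinset,
          ← pow_mul, mul_comm k n]

/-- type one: `n = k = m = 3 ^ (j+1)` -/
theorem norm_D_type1 (j : ℕ) (N : ℕ) :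
    ‖D (3 ^ (j + 1)) (3 ^ (j + 1)) (3 ^ (j + 1)) N‖
      ≤ ((2 * N + 1 : ℝ) ^ (3 ^ (j + 1))) ^ (3 ^ (j + 1) * 3 ^ j) := by
  rw [D_split]
  have h1 : (∏ η ∈ nthRootsFinset (3 ^ (j + 1)) (1 : ℂ),
      ∏ ζ ∈ primitiveRoots (3 ^ (j + 1)) ℂ, B (3 ^ (j + 1)) N η ζ) = 1 := by
    apply Finset.prod_eq_one
    intro η hη
    apply Finset.prod_eq_one
    intro ζ hζ
    rw [mem_nthRootsFinset (by positivity)] at hη
    rw [mem_primitiveRoots (by positivity)] at hζ
    rw [B_primitive (by positivity) hζ, hη]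
    simp
  rw [h1, one_mul]
  exact norm_D_le (by positivity) (by positivity) (by positivity) N

theorem norm_B_ge {m : ℕ} (hm : 0 < m) {ζ : ℂ} (hζ : IsPrimitiveRoot ζ m) (N : ℕ) {η : ℂ}
    (h3 : (η ^ m) ^ 3 = 1) (h1 : η ^ m ≠ 1) : (N : ℝ) ^ m ≤ ‖B m N η ζ‖ := by
  rw [B_primitive hm hζ]
  set w := η ^ m with hw
  have hfac : (w - 1) * (w ^ 2 + w + 1) = 0 := by
    have : (w - 1) * (w ^ 2 + w + 1) = w ^ 3 - 1 := by ring
    rw [this, h3, sub_self]
  have hq : w ^ 2 + w + 1 = 0 := by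
    rcases mul_eq_zero.mp hfac with h | h
    · exact absurd (sub_eq_zero.mp h) h1
    · exact h
  have hnorm : ‖w‖ = 1 := Complex.norm_eq_one_of_pow_eq_one h3 (by norm_num)
  have hre : w.re = -1 / 2 := by
    have e1 : w.re * w.re + w.im * w.im = 1 := by
      have := Complex.normSq_eq_norm_sq w
      rw [Complex.normSq_apply, hnorm] at this
      linarith
    have e2 := congrArg Complex.re hq
    simp only [Complex.add_re, Complex.one_re, Complex.zero_re, pow_two, Complex.mul_re] at e2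
    have e3 := congrArg Complex.im hq
    simp only [Complex.add_im, Complex.one_im, Complex.zero_im, pow_two, Complex.mul_im] at e3
    have e4 : w.im * (2 * w.re + 1) = 0 := by linarith
    rcases mul_eq_zero.mp e4 with h | h
    · exfalso
      rw [h] at e1 e2
      nlinarith
    · linarith
  calc (N : ℝ) ^ m ≤ (1 + (N : ℂ) ^ m * (1 - w)).re := by
        have : ((1 : ℂ) + (N : ℂ) ^ m * (1 - w)).re = 1 + (N : ℝ) ^ m * (3 / 2) := by
          have h5 : ((N : ℂ) ^ m) = (((N : ℝ) ^ m : ℝ) : ℂ) := by push_cast; rfl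
          rw [h5, Complex.add_re, Complex.re_ofReal_mul, Complex.sub_re, hre, Complex.one_re]
          ring
        rw [this]
        have : (0:ℝ) ≤ (N : ℝ) ^ m := by positivity
        linarith
    _ ≤ ‖1 + (N : ℂ) ^ m * (1 - w)‖ := Complex.re_le_norm _

/-- type two: `n = 3 ^ (j+2)`, `k = m = 3 ^ (j+1)` -/
theorem norm_D_type2 (j : ℕ) (N : ℕ) :
    ((N : ℝ) ^ (3 ^ (j + 1))) ^ (4 * 3 ^ (2 * j + 1)) *
      ‖D (3 ^ (j + 2)) (3 ^ j) (3 ^ (j + 1)) N‖
      ≤ ‖D (3 ^ (j + 2)) (3 ^ (j + 1)) (3 ^ (j + 1)) N‖ := by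
  rw [D_split, norm_mul]
  apply mul_le_mul_of_nonneg_right _ (norm_nonneg _)
  rw [roots_split (j + 1), Finset.prod_union (roots_disj (j + 1)), norm_mul]
  have h1 : (∏ η ∈ nthRootsFinset (3 ^ (j + 1)) (1 : ℂ),
      ∏ ζ ∈ primitiveRoots (3 ^ (j + 1)) ℂ, B (3 ^ (j + 1)) N η ζ) = 1 := by
    apply Finset.prod_eq_one
    intro η hη
    apply Finset.prod_eq_one
    intro ζ hζ
    rw [mem_nthRootsFinset (by positivity)] at hη
    rw [mem_primitiveRoots (by positivity)] at hζ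
    rw [B_primitive (by positivity) hζ, hη]
    simp
  rw [h1, norm_one, mul_one, norm_prod]
  have hc : ∀ i, (primitiveRoots (3 ^ (i + 1)) ℂ).card = 2 * 3 ^ i := by
    intro i
    rw [(Complex.isPrimitiveRoot_exp (3 ^ (i + 1)) (by positivity)).card_primitiveRoots,
      Nat.totient_prime_pow Nat.prime_three (Nat.succ_pos i)]
    simp [mul_comm]
  calc ((N : ℝ) ^ (3 ^ (j + 1))) ^ (4 * 3 ^ (2 * j + 1))
      = ∏ η ∈ primitiveRoots (3 ^ (j + 1 + 1)) ℂ, ((N : ℝ) ^ (3 ^ (j + 1))) ^ (2 * 3 ^ j) := by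
        rw [Finset.prod_const, hc, ← pow_mul ((N : ℝ) ^ (3 ^ (j + 1))) (2 * 3 ^ j)]
        congr 1
        ring
    _ ≤ ∏ η ∈ primitiveRoots (3 ^ (j + 1 + 1)) ℂ,
        ‖∏ ζ ∈ primitiveRoots (3 ^ (j + 1)) ℂ, B (3 ^ (j + 1)) N η ζ‖ := by
        apply Finset.prod_le_prod
        · intro i _; positivity
        · intro η hη
          rw [mem_primitiveRoots (by positivity)] at hη
          rw [norm_prod]
          calc ((N : ℝ) ^ (3 ^ (j + 1))) ^ (2 * 3 ^ j)
              = ∏ ζ ∈ primitiveRoots (3 ^ (j + 1)) ℂ, ((N : ℝ) ^ (3 ^ (j + 1))) := by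
                rw [Finset.prod_const, hc]
            _ ≤ _ := by
                apply Finset.prod_le_prod
                · intro i _; positivity
                · intro ζ hζ
                  rw [mem_primitiveRoots (by positivity)] at hζ
                  apply norm_B_ge (by positivity) hζ N
                  · rw [← pow_mul, ← pow_succ]
                    exact hη.pow_eq_one
                  · intro h
                    have h2 := hη.dvd_of_pow_eq_one _ h
                    have h3 := Nat.le_of_dvd (by positivity) h2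
                    have h4 : 3 ^ (j + 1) < 3 ^ (j + 1 + 1) :=
                      Nat.pow_lt_pow_right (by norm_num) (Nat.lt_succ_self _)
                    omega

/-- the matrix of right multiplication by a group ring element on row vectors -/
def gmat {R Q : Type} [Semiring R] [Group Q] (a : MonoidAlgebra R Q) : Matrix Q Q R :=
  Matrix.of fun g h => a.coeff (g⁻¹ * h)

/-- `t = (1,0,0)` -/
def tt : Heis ℤ := ⟨1, 0, 0⟩
/-- `u = (0,1,0)` -/
def uu : Heis ℤ := ⟨0, 1, 0⟩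

/-- `1 + N t - N u t` -/
noncomputable def elt (R : Type) [Ring R] (N : R) : MonoidAlgebra R (Heis ℤ) :=
  MonoidAlgebra.single 1 1 + MonoidAlgebra.single tt N - MonoidAlgebra.single (uu * tt) N

section

variable {n k m : ℕ} [NeZero n] [NeZero k] [NeZero m]

theorem coordEquiv_mk (hkm : k ∣ m) (hkn : k ∣ n) (g : Heis ℤ) :
    coordEquiv hkm hkn (QuotientGroup.mk g : Heis ℤ ⧸ cong n k m hkm)
      = ((g.a : ZMod m), (g.b : ZMod n), (g.c : ZMod k)) := rfl

theorem card_quot (hkm : k ∣ m) (hkn : k ∣ n) :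
    Nat.card (Heis ℤ ⧸ cong n k m hkm) = m * (n * k) := by
  rw [Nat.card_congr (coordEquiv hkm hkn)]
  simp

omit [NeZero k] [NeZero m] in
theorem cast_int_cast (hkm : k ∣ m) (a : ℤ) : (((a : ZMod m)).cast : ZMod k) = (a : ZMod k) :=
  ZMod.cast_intCast hkm a

open Classical in
theorem elt_coeff {R : Type} [Ring R] (N : R) (K : Subgroup (Heis ℤ)) [K.Normal]
    (x : Heis ℤ ⧸ K) :
    (MonoidAlgebra.mapDomain (QuotientGroup.mk' K) (elt R N)).coeff x
      = (if x = 1 then (1:R) else 0) + (if x = QuotientGroup.mk tt then N else 0)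
        - (if x = QuotientGroup.mk (uu * tt) then N else 0) := by
  have : MonoidAlgebra.mapDomain (QuotientGroup.mk' K) (elt R N)
      = MonoidAlgebra.single 1 1 + MonoidAlgebra.single (QuotientGroup.mk tt : Heis ℤ ⧸ K) N
        - MonoidAlgebra.single (QuotientGroup.mk (uu * tt) : Heis ℤ ⧸ K) N := by
    have h := fun x => (MonoidAlgebra.mapDomainRingHom_apply R (QuotientGroup.mk' K) x)
    rw [← h, elt, map_sub, map_add, h, h, h, MonoidAlgebra.mapDomain_single,
      MonoidAlgebra.mapDomain_single, MonoidAlgebra.mapDomain_single]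
    rfl
  rw [this]
  simp only [MonoidAlgebra.coeff_sub, MonoidAlgebra.coeff_add, MonoidAlgebra.coeff_single,
    Finsupp.sub_apply, Finsupp.add_apply, Finsupp.single_apply, eq_comm]

theorem gmat_reindex (hkm : k ∣ m) (hkn : k ∣ n) [(cong n k m hkm).Normal] (N : ℂ) :
    Matrix.reindex (coordEquiv hkm hkn) (coordEquiv hkm hkn)
      (gmat (MonoidAlgebra.mapDomain (QuotientGroup.mk' (cong n k m hkm)) (elt ℂ N)))
      = modelMat n k m N := by
  classical
  ext p q
  obtain ⟨x, rfl⟩ := (coordEquiv hkm hkn).surjective p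
  obtain ⟨y, rfl⟩ := (coordEquiv hkm hkn).surjective q
  rw [Matrix.reindex_apply, Matrix.submatrix_apply, Equiv.symm_apply_apply,
    Equiv.symm_apply_apply]
  obtain ⟨x, rfl⟩ := QuotientGroup.mk_surjective x
  obtain ⟨y, rfl⟩ := QuotientGroup.mk_surjective y
  simp only [gmat, Matrix.of_apply, elt_coeff, modelMat]
  have h1 : ((QuotientGroup.mk x : Heis ℤ ⧸ cong n k m hkm)⁻¹ * QuotientGroup.mk y = 1)
      ↔ (coordEquiv hkm hkn (QuotientGroup.mk y) = coordEquiv hkm hkn (QuotientGroup.mk x)) := by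
    rw [inv_mul_eq_one, (coordEquiv hkm hkn).apply_eq_iff_eq, eq_comm]
  have h2 : ∀ w : Heis ℤ, ((QuotientGroup.mk x : Heis ℤ ⧸ cong n k m hkm)⁻¹ *
      QuotientGroup.mk y = QuotientGroup.mk w)
      ↔ (coordEquiv hkm hkn (QuotientGroup.mk y)
        = coordEquiv hkm hkn (QuotientGroup.mk (x * w))) := by
    intro w
    rw [inv_mul_eq_iff_eq_mul, (coordEquiv hkm hkn).apply_eq_iff_eq, QuotientGroup.mk_mul]
  have e1 : coordEquiv hkm hkn (QuotientGroup.mk (x * tt) : Heis ℤ ⧸ cong n k m hkm)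
      = ((x.a : ZMod m) + 1, (x.b : ZMod n), (x.c : ZMod k)) := by
    rw [coordEquiv_mk]; simp [tt]
  have e2 : coordEquiv hkm hkn (QuotientGroup.mk (x * (uu * tt)) : Heis ℤ ⧸ cong n k m hkm)
      = ((x.a : ZMod m) + 1, (x.b : ZMod n) + 1, (x.c : ZMod k) + (x.a : ZMod k)) := by
    rw [coordEquiv_mk]; simp [tt, uu]
  have key : ∀ (P P' : Prop) [Decidable P] [Decidable P'] (_ : P ↔ P') (z : ℂ),
      (if P then z else 0) = z * (if P' then (1:ℂ) else 0) := by
    intro P P' _ _ h z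
    by_cases hP : P
    · simp [hP, h.mp hP]
    · have hP' : ¬ P' := fun h' => hP (h.mpr h')
      simp [hP, hP']
  rw [key _ _ h1 1, key _ _ ((h2 tt).trans (by rw [e1])) N,
    key _ _ ((h2 (uu * tt)).trans (by rw [e2])) N, one_mul]
  simp only [coordEquiv_mk, cast_int_cast hkm]
  congr!

theorem det_gmat (hkm : k ∣ m) (hkn : k ∣ n) [(cong n k m hkm).Normal]
    [Fintype (Heis ℤ ⧸ cong n k m hkm)] [DecidableEq (Heis ℤ ⧸ cong n k m hkm)]
    (hm : Odd m) (N : ℂ) :
    (gmat (MonoidAlgebra.mapDomain (QuotientGroup.mk' (cong n k m hkm)) (elt ℂ N))).det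
      = D n k m N := by
  rw [← Matrix.det_reindex_self (coordEquiv hkm hkn), gmat_reindex, det_model_eq_D hm]

theorem det_gmat' (K : Subgroup (Heis ℤ)) [K.Normal] [Fintype (Heis ℤ ⧸ K)]
    [DecidableEq (Heis ℤ ⧸ K)] (hkm : k ∣ m) (hkn : k ∣ n) (hK : K = cong n k m hkm)
    (hm : Odd m) (N : ℂ) :
    (gmat (MonoidAlgebra.mapDomain (QuotientGroup.mk' K) (elt ℂ N))).det = D n k m N := by
  subst hK
  exact det_gmat hkm hkn hm N

/-- integrality: `D` is an integer congruent to one modulo `N` -/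
theorem D_int (hm : Odd m) (N : ℕ) : ∃ z : ℤ, D n k m N = z ∧ (N : ℤ) ∣ z - 1 := by
  classical
  let MZ : Matrix (ZMod m × ZMod n × ZMod k) (ZMod m × ZMod n × ZMod k) ℤ :=
    Matrix.of fun p q =>
    (if q = p then (1:ℤ) else 0) + N * (if q = (p.1 + 1, p.2.1, p.2.2) then 1 else 0)
      - N * (if q = (p.1 + 1, p.2.1 + 1, p.2.2 + (p.1.cast : ZMod k)) then 1 else 0)
  refine ⟨MZ.det, ?_, ?_⟩
  · rw [← det_model_eq_D hm]
    have : modelMat n k m N = MZ.map (Int.castRingHom ℂ) := by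
      ext p q
      simp [modelMat, MZ]
    rw [this]
    rw [← RingHom.mapMatrix_apply, ← RingHom.map_det]
    simp
  · have h2 : (MZ.map (Int.castRingHom (ZMod N))) = 1 := by
      ext p q
      simp only [MZ, Matrix.map_apply, Matrix.of_apply, Matrix.one_apply]
      simp [eq_comm]
    have h3 : ((MZ.det : ℤ) : ZMod N) = 1 := by
      have := RingHom.map_det (Int.castRingHom (ZMod N)) MZ
      rw [RingHom.mapMatrix_apply, h2, Matrix.det_one] at this
      simpa using this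
    have h4 : ((1 : ℤ) : ZMod N) = (MZ.det : ℤ) := by rw [h3]; simp
    exact (ZMod.intCast_eq_intCast_iff_dvd_sub 1 MZ.det N).mp h4

theorem D_norm_ge_one (hm : Odd m) {N : ℕ} (hN : 2 ≤ N) : 1 ≤ ‖D n k m N‖ := by
  obtain ⟨z, hz, hd⟩ := D_int (n := n) (k := k) hm N
  have hz0 : z ≠ 0 := by
    rintro rfl
    have h1 : (N : ℤ) ∣ 1 := by simpa using hd
    have h2 := Int.le_of_dvd (by norm_num) h1
    omega
  rw [hz, Complex.norm_intCast]
  exact_mod_cast Int.one_le_abs hz0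

end

/-- the chain -/
def chain (i : ℕ) : Subgroup (Heis ℤ) :=
  cong (3 ^ ((i + 1) / 2)) (3 ^ (i / 2)) (3 ^ (i / 2)) dvd_rfl

instance chain_normal (i : ℕ) : (chain i).Normal :=
  cong_normal dvd_rfl (pow_dvd_pow 3 (by omega))

theorem chain_zero : chain 0 = ⊤ := by
  rw [eq_top_iff]
  intro g _
  exact mem_cong.mpr ⟨by simp, by simp, by simp⟩

theorem chain_anti : Antitone chain := by
  intro i j hij g hg
  obtain ⟨h1, h2, h3⟩ := mem_cong.mp hg
  have e1 : ((3 ^ (i / 2) : ℕ) : ℤ) ∣ ((3 ^ (j / 2) : ℕ) : ℤ) :=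
    Int.natCast_dvd_natCast.mpr (pow_dvd_pow 3 (by omega))
  have e2 : ((3 ^ ((i + 1) / 2) : ℕ) : ℤ) ∣ ((3 ^ ((j + 1) / 2) : ℕ) : ℤ) :=
    Int.natCast_dvd_natCast.mpr (pow_dvd_pow 3 (by omega))
  exact mem_cong.mpr ⟨e1.trans h1, e2.trans h2, e1.trans h3⟩

theorem chain_card (i : ℕ) :
    Nat.card (Heis ℤ ⧸ chain i) = 3 ^ (i / 2) * (3 ^ ((i + 1) / 2) * 3 ^ (i / 2)) :=
  card_quot dvd_rfl (pow_dvd_pow 3 (by omega))

instance chain_finite (i : ℕ) : Finite (Heis ℤ ⧸ chain i) := by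
  apply Nat.finite_of_card_ne_zero
  rw [chain_card]
  positivity

theorem chain_index (i : ℕ) :
    (chain i).index = 3 ^ (i / 2) * (3 ^ ((i + 1) / 2) * 3 ^ (i / 2)) := by
  rw [Subgroup.index_eq_card, chain_card]

theorem int_eq_zero_of_pow_dvd {x : ℤ} (h : ∀ i : ℕ, ((3 ^ (i / 2) : ℕ) : ℤ) ∣ x) : x = 0 := by
  by_contra hx
  have h1 := h (2 * x.natAbs)
  have h2 := Int.natAbs_dvd_natAbs.mpr h1
  have h3 := Nat.le_of_dvd (Int.natAbs_pos.mpr hx) h2
  simp at h3
  have h4 : x.natAbs < 3 ^ x.natAbs := Nat.lt_pow_self (by norm_num)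
  omega

theorem chain_inf : ⨅ i, chain i = ⊥ := by
  rw [eq_bot_iff]
  intro g hg
  rw [Subgroup.mem_iInf] at hg
  have h1 : ∀ i : ℕ, ((3 ^ (i / 2) : ℕ) : ℤ) ∣ g.a := fun i => (mem_cong.mp (hg i)).1
  have h2 : ∀ i : ℕ, ((3 ^ (i / 2) : ℕ) : ℤ) ∣ g.b := fun i =>
    (Int.natCast_dvd_natCast.mpr (pow_dvd_pow 3 (by omega))).trans (mem_cong.mp (hg i)).2.1
  have h3 : ∀ i : ℕ, ((3 ^ (i / 2) : ℕ) : ℤ) ∣ g.c := fun i => (mem_cong.mp (hg i)).2.2
  rw [Subgroup.mem_bot]
  ext
  · exact int_eq_zero_of_pow_dvd h1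
  · exact int_eq_zero_of_pow_dvd h2
  · exact int_eq_zero_of_pow_dvd h3

/-- determinant of the group matrix of `1 + 10 t - 10 u t` over the `i`-th quotient -/
noncomputable def Dseq (i : ℕ) : ℂ := D (3 ^ ((i + 1) / 2)) (3 ^ (i / 2)) (3 ^ (i / 2)) ((10 : ℕ) : ℂ)

theorem det_chain (i : ℕ) [Fintype (Heis ℤ ⧸ chain i)] [DecidableEq (Heis ℤ ⧸ chain i)] :
    (gmat (MonoidAlgebra.mapDomain (QuotientGroup.mk' (chain i)) (elt ℂ ((10 : ℕ) : ℂ)))).det
      = Dseq i := by
  exact det_gmat' (chain i) dvd_rfl (pow_dvd_pow 3 (by omega)) rfl (Odd.pow (by decide)) _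

theorem Dseq_norm_ge (i : ℕ) : 1 ≤ ‖Dseq i‖ :=
  D_norm_ge_one (Odd.pow (by decide)) (by norm_num)

theorem Dseq_even (j : ℕ) :
    Real.log ‖Dseq (2 * (j + 1))‖ / (Nat.card (Heis ℤ ⧸ chain (2 * (j + 1))) : ℝ)
      ≤ 1 / 3 * Real.log 21 := by
  rw [chain_card]
  have e1 : 2 * (j + 1) / 2 = j + 1 := by omega
  have e2 : (2 * (j + 1) + 1) / 2 = j + 1 := by omega
  have h := norm_D_type1 j 10
  have hD : Dseq (2 * (j + 1)) = D (3 ^ (j + 1)) (3 ^ (j + 1)) (3 ^ (j + 1)) ((10 : ℕ) : ℂ) := by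
    unfold Dseq; rw [e1, e2]
  rw [← hD] at h
  rw [e1, e2]
  have hpos : 0 < ‖Dseq (2 * (j + 1))‖ := lt_of_lt_of_le one_pos (Dseq_norm_ge _)
  have h2 := Real.log_le_log hpos h
  rw [Real.log_pow, Real.log_pow] at h2
  have e3 : (2 * ((10 : ℕ) : ℝ) + 1) = 21 := by norm_num
  rw [e3] at h2
  rw [div_le_iff₀ (by positivity)]
  refine h2.trans (le_of_eq ?_)
  push_cast
  ring

theorem Dseq_odd (j : ℕ) :
    4 / 9 * Real.log 10 ≤
      Real.log ‖Dseq (2 * (j + 1) + 1)‖ / (Nat.card (Heis ℤ ⧸ chain (2 * (j + 1) + 1)) : ℝ) := by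
  rw [chain_card]
  have e1 : (2 * (j + 1) + 1) / 2 = j + 1 := by omega
  have e2 : (2 * (j + 1) + 1 + 1) / 2 = j + 2 := by omega
  have h := norm_D_type2 j 10
  have hD : Dseq (2 * (j + 1) + 1)
      = D (3 ^ (j + 2)) (3 ^ (j + 1)) (3 ^ (j + 1)) ((10 : ℕ) : ℂ) := by
    unfold Dseq; rw [e1, e2]
  rw [← hD] at h
  rw [e1, e2]
  have h1 : (1:ℝ) ≤ ‖D (3 ^ (j + 2)) (3 ^ j) (3 ^ (j + 1)) ((10 : ℕ) : ℂ)‖ :=
    D_norm_ge_one (Odd.pow (by decide)) (by norm_num)
  have h3 : (((10 : ℕ) : ℝ) ^ (3 ^ (j + 1))) ^ (4 * 3 ^ (2 * j + 1)) ≤ ‖Dseq (2 * (j + 1) + 1)‖ := by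
    refine le_trans ?_ h
    exact le_mul_of_one_le_right (by positivity) h1
  have h2 := Real.log_le_log (by positivity) h3
  rw [Real.log_pow, Real.log_pow] at h2
  rw [le_div_iff₀ (by positivity)]
  refine le_trans (le_of_eq ?_) h2
  push_cast
  ring

theorem gap : 1 / 3 * Real.log 21 < 4 / 9 * Real.log 10 := by
  have h1 : Real.log (21 ^ 3) < Real.log (10 ^ 4) :=
    Real.log_lt_log (by norm_num) (by norm_num)
  rw [Real.log_pow, Real.log_pow] at h1
  push_cast at h1
  linarith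

/-- the normalised logarithms do not converge -/
theorem no_limit (L : ℝ) :
    ¬ Filter.Tendsto (fun i => Real.log ‖Dseq i‖ / (Nat.card (Heis ℤ ⧸ chain i) : ℝ))
      Filter.atTop (nhds L) := by
  intro h
  have h1 : Filter.Tendsto (fun j : ℕ => 2 * (j + 1)) Filter.atTop Filter.atTop :=
    Filter.tendsto_atTop_mono (fun j => by simp only [id]; omega) Filter.tendsto_id
  have h2 : Filter.Tendsto (fun j : ℕ => 2 * (j + 1) + 1) Filter.atTop Filter.atTop :=
    Filter.tendsto_atTop_mono (fun j => by simp only [id]; omega) Filter.tendsto_id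
  have g1 := le_of_tendsto' (h.comp h1) (fun j => Dseq_even j)
  have g2 := ge_of_tendsto' (h.comp h2) (fun j => Dseq_odd j)
  have := gap
  linarith

end Pool.Agent.Helper993.HeisDet
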