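import Mathlib
import Pool.Agent.Helper993.HeisDet

open scoped Topology Matrix

noncomputable section

namespace Pool.Agent.Helper993.LT

/-- The involution `∑ a_g g ↦ ∑ a_g g⁻¹` of the integral group ring. -/
def involution {Γ : Type} [Group Γ] (a : MonoidAlgebra ℤ Γ) : MonoidAlgebra ℤ Γ :=
  MonoidAlgebra.mapDomain (fun g => g⁻¹) a

/-- The adjoint `A*`: transpose `A` and apply the involution to each entry. -/
def adj {Γ : Type} [Group Γ] {l : ℕ} (A : Matrix (Fin l) (Fin l) (MonoidAlgebra ℤ Γ)) :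
    Matrix (Fin l) (Fin l) (MonoidAlgebra ℤ Γ) :=
  Aᵀ.map involution

/-- The matrix, in the basis `δ_h^{(j)}`, of the operator by which a matrix `B` over the group ring
of a finite group `Q` acts on `ℓ²(Q)^l` (left multiplication, `δ_h^{(j)} ↦ ∑_i ∑_g B_{ij}(g) δ_{gh}^{(i)}`).
-/
def opMatrix {Q : Type} [Group Q] {l : ℕ} (B : Matrix (Fin l) (Fin l) (MonoidAlgebra ℤ Q)) :
    Matrix (Fin l × Q) (Fin l × Q) ℂ :=
  Matrix.of fun p q => (((B p.1 q.1).coeff (p.2 * q.2⁻¹) : ℤ) : ℂ)

theorem coeff_mul_sum {Q : Type} [Group Q] [Fintype Q] (a b : MonoidAlgebra ℤ Q) (g h : Q) :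
    (a * b).coeff (g * h⁻¹) = ∑ x, a.coeff (g * x⁻¹) * b.coeff (x * h⁻¹) := by
  classical
  induction a using MonoidAlgebra.induction_linear with
  | zero => simp
  | add a a' h1 h2 => simp [add_mul, h1, h2, Finset.sum_add_distrib]
  | single y r =>
    rw [MonoidAlgebra.coeff_single_mul_apply, Finset.sum_eq_single (y⁻¹ * g)]
    · simp [mul_assoc]
    · intro x _ hx
      rw [MonoidAlgebra.coeff_single, Finsupp.single_apply, if_neg, zero_mul]
      rintro rfl
      exact hx (by group)
    · simp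

theorem opMatrix_mul {Q : Type} [Group Q] [Fintype Q] {l : ℕ}
    (A B : Matrix (Fin l) (Fin l) (MonoidAlgebra ℤ Q)) :
    opMatrix (A * B) = opMatrix A * opMatrix B := by
  ext p q
  simp only [opMatrix, Matrix.of_apply, Matrix.mul_apply, Fintype.sum_prod_type,
    MonoidAlgebra.coeff_sum, Finsupp.finsetSum_apply, coeff_mul_sum]
  push_cast
  rfl

theorem opMatrix_adj {Q : Type} [Group Q] {l : ℕ}
    (A : Matrix (Fin l) (Fin l) (MonoidAlgebra ℤ Q)) :
    opMatrix (adj A) = (opMatrix A)ᴴ := by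
  ext p q
  simp only [opMatrix, adj, involution, Matrix.of_apply, Matrix.conjTranspose_apply, Matrix.map_apply,
    Matrix.transpose_apply]
  have h : (MonoidAlgebra.mapDomain (fun g => g⁻¹) (A q.1 p.1)).coeff (p.2 * q.2⁻¹)
      = (A q.1 p.1).coeff (q.2 * p.2⁻¹) := by
    have := Finsupp.mapDomain_apply (f := fun g : Q => g⁻¹) inv_injective (A q.1 p.1).coeff
      (q.2 * p.2⁻¹)
    rw [← this]
    simp [MonoidAlgebra.mapDomain]
  rw [h]
  simp

theorem isHermitian_op {Q : Type} [Group Q] [Fintype Q] {l : ℕ}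
    (A : Matrix (Fin l) (Fin l) (MonoidAlgebra ℤ Q)) : (opMatrix (adj A * A)).IsHermitian := by
  rw [opMatrix_mul, opMatrix_adj]
  exact Matrix.isHermitian_conjTranspose_mul_self _

open Classical in
/-- `tr (log (A* A))` for a matrix `A` over the group ring of a finite group `Q`: the sum of `log λ`
over the nonzero eigenvalues `λ` of the operator `A* A` on `ℓ²(Q)^l`, counted with multiplicity. -/
def traceLog {Q : Type} [Group Q] [Finite Q] {l : ℕ}
    (A : Matrix (Fin l) (Fin l) (MonoidAlgebra ℤ Q)) : ℝ :=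
  let _ : Fintype Q := Fintype.ofFinite Q
  ∑ p, if (isHermitian_op A).eigenvalues p = 0 then 0
    else Real.log ((isHermitian_op A).eigenvalues p)

theorem sum_log_eigenvalues {n : Type} [Fintype n] [DecidableEq n] {H : Matrix n n ℂ}
    (hH : H.IsHermitian) (hdet : H.det ≠ 0) :
    (∑ p, if hH.eigenvalues p = 0 then 0 else Real.log (hH.eigenvalues p)) = Real.log ‖H.det‖ := by
  have h1 : H.det = ∏ p, ((hH.eigenvalues p : ℝ) : ℂ) := by
    simpa using hH.det_eq_prod_eigenvalues
  have hne : ∀ p, hH.eigenvalues p ≠ 0 := by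
    intro p hp
    apply hdet
    rw [h1]
    exact Finset.prod_eq_zero (Finset.mem_univ p) (by rw [hp]; simp)
  rw [h1, norm_prod, Real.log_prod (fun p _ => by simpa using hne p)]
  apply Finset.sum_congr rfl
  intro p _
  rw [if_neg (hne p), Complex.norm_real, Real.norm_eq_abs, Real.log_abs]

theorem traceLog_eq {Q : Type} [Group Q] [Finite Q] {l : ℕ}
    (A : Matrix (Fin l) (Fin l) (MonoidAlgebra ℤ Q)) (D : ℂ)
    (hD : ∀ [Fintype Q] [DecidableEq Q], (opMatrix A).det = D) (h : D ≠ 0) :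
    traceLog A = 2 * Real.log ‖D‖ := by
  classical
  let _ : Fintype Q := Fintype.ofFinite Q
  have e : (opMatrix (adj A * A)).det = star D * D := by
    rw [opMatrix_mul, opMatrix_adj, Matrix.det_mul, Matrix.det_conjTranspose, hD]
  have hne : (opMatrix (adj A * A)).det ≠ 0 := by
    rw [e]
    exact mul_ne_zero (star_ne_zero.mpr h) h
  have h2 := sum_log_eigenvalues (isHermitian_op A) hne
  rw [e, norm_mul, norm_star, ← sq, Real.log_pow] at h2
  push_cast at h2
  rw [← h2]
  rfl

open Pool.Agent.Helper993.HeisDet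

theorem coeff_mapDomain_equiv {R Q Q' : Type} [Semiring R] [Group Q] [Group Q'] (φ : Q ≃* Q')
    (a : MonoidAlgebra R Q) (x : Q) : (MonoidAlgebra.mapDomain φ a).coeff (φ x) = a.coeff x := by
  have := Finsupp.mapDomain_apply (f := φ) φ.injective a.coeff x
  rw [← this]
  simp [MonoidAlgebra.mapDomain]

/-- the determinant of the operator of a single group ring element is that of its group matrix -/
theorem det_opMatrix {Q Q' : Type} [Group Q] [Group Q'] [Fintype Q] [DecidableEq Q]
    [Fintype Q'] [DecidableEq Q'] (φ : Q ≃* Q') (a : MonoidAlgebra ℤ Q) (b : MonoidAlgebra ℂ Q')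
    (hab : ∀ x, ((a.coeff x : ℤ) : ℂ) = b.coeff (φ x)) :
    (opMatrix (Matrix.of fun _ _ => a : Matrix (Fin 1) (Fin 1) (MonoidAlgebra ℤ Q))).det
      = (gmat b).det := by
  let e : Fin 1 × Q ≃ Q' := (Equiv.uniqueProd Q (Fin 1)).trans (φ.toEquiv.trans (Equiv.inv Q'))
  rw [← Matrix.det_reindex_self e]
  congr 1
  ext x y
  obtain ⟨⟨i, g⟩, rfl⟩ := e.surjective x
  obtain ⟨⟨j, h⟩, rfl⟩ := e.surjective y
  rw [Matrix.reindex_apply, Matrix.submatrix_apply, Equiv.symm_apply_apply, Equiv.symm_apply_apply]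
  simp only [opMatrix, Matrix.of_apply, gmat]
  rw [hab]
  congr 1
  simp [e]

/-- A strictly decreasing chain `Γ = Γ_0 > Γ_1 > ⋯` of normal subgroups of finite index with trivial
intersection. -/
structure NormalChain (Γ : Type) [Group Γ] where
  /-- the subgroups -/
  sub : ℕ → Subgroup Γ
  normal : ∀ k, (sub k).Normal
  finiteIndex : ∀ k, (sub k).FiniteIndex
  zero : sub 0 = ⊤
  strictAnti : StrictAnti sub
  iInf_eq_bot : ⨅ k, sub k = ⊥

instance {Γ : Type} [Group Γ] (C : NormalChain Γ) (k : ℕ) : (C.sub k).Normal := C.normal k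

instance {Γ : Type} [Group Γ] (C : NormalChain Γ) (k : ℕ) : (C.sub k).FiniteIndex :=
  C.finiteIndex k

/-- The image `A_k` of `A` over the group ring of `Γ/Γ_k`. -/
def image {Γ : Type} [Group Γ] (C : NormalChain Γ) {l : ℕ}
    (A : Matrix (Fin l) (Fin l) (MonoidAlgebra ℤ Γ)) (k : ℕ) :
    Matrix (Fin l) (Fin l) (MonoidAlgebra ℤ (Γ ⧸ C.sub k)) :=
  A.map (MonoidAlgebra.mapDomain (QuotientGroup.mk' (C.sub k)))

/-- The normalised value `tr (log (A_k* A_k)) / [Γ : Γ_k]`. -/
def normalised {Γ : Type} [Group Γ] (C : NormalChain Γ) {l : ℕ}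
    (A : Matrix (Fin l) (Fin l) (MonoidAlgebra ℤ Γ)) (k : ℕ) : ℝ :=
  traceLog (image C A k) / (C.sub k).index

theorem chain_strictAnti : StrictAnti chain := by
  refine strictAnti_nat_of_succ_lt fun i => ?_
  refine lt_of_le_of_ne (chain_anti (Nat.le_succ i)) ?_
  intro h
  have h1 := chain_index i
  have h2 := chain_index (i + 1)
  rw [h, h1, ← pow_add, ← pow_add, ← pow_add, ← pow_add] at h2
  have h3 := Nat.pow_right_injective (le_refl 2 |>.trans (by norm_num : 2 ≤ 3)) h2
  omega

/-- the pull back of the chain to a group isomorphic to the integer Heisenberg group -/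
def pullChain {Γ : Type} [Group Γ] (φ : Γ ≃* Heis ℤ) : NormalChain Γ where
  sub k := (chain k).comap φ.toMonoidHom
  normal k := inferInstance
  finiteIndex k := by
    have h : (chain k).FiniteIndex := Subgroup.finiteIndex_of_finite_quotient
    constructor
    rw [Subgroup.index_comap_of_surjective _ (f := φ.toMonoidHom) φ.surjective]
    exact h.index_ne_zero
  zero := by rw [chain_zero, Subgroup.comap_top]
  strictAnti := by
    intro i j hij
    exact (Subgroup.comap_lt_comap_of_surjective (f := φ.toMonoidHom) φ.surjective).mpr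
      (chain_strictAnti hij)
  iInf_eq_bot := by
    rw [← Subgroup.comap_iInf, chain_inf, MonoidHom.comap_bot]
    exact (MonoidHom.ker_eq_bot_iff _).mpr φ.injective

/-- the isomorphism of the quotients -/
def quotEquiv {Γ : Type} [Group Γ] (φ : Γ ≃* Heis ℤ) (k : ℕ) :
    Γ ⧸ (pullChain φ).sub k ≃* Heis ℤ ⧸ chain k :=
  QuotientGroup.congr _ _ φ
    (Subgroup.map_comap_eq_self_of_surjective (f := φ.toMonoidHom) φ.surjective (chain k))

/-- the group ring element `1 + 10 t - 10 u t` -/
def pullElt {Γ : Type} [Group Γ] (φ : Γ ≃* Heis ℤ) : MonoidAlgebra ℤ Γ :=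
  MonoidAlgebra.mapDomain φ.symm (elt ℤ 10)

theorem mapDomain_quot {Γ : Type} [Group Γ] (φ : Γ ≃* Heis ℤ) (k : ℕ) :
    MonoidAlgebra.mapDomain (quotEquiv φ k)
      (MonoidAlgebra.mapDomain (QuotientGroup.mk' ((pullChain φ).sub k)) (pullElt φ))
      = MonoidAlgebra.mapDomain (QuotientGroup.mk' (chain k)) (elt ℤ 10) := by
  simp only [pullElt, MonoidAlgebra.mapDomain, MonoidAlgebra.coeff_ofCoeff,
    ← Finsupp.mapDomain_comp]
  congr 2
  funext x
  simp only [Function.comp_apply]
  change (QuotientGroup.mk (φ (φ.symm x)) : Heis ℤ ⧸ chain k) = QuotientGroup.mk x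
  rw [MulEquiv.apply_symm_apply]

theorem coeff_quot {Γ : Type} [Group Γ] (φ : Γ ≃* Heis ℤ) (k : ℕ) (x : Γ ⧸ (pullChain φ).sub k) :
    (((MonoidAlgebra.mapDomain (QuotientGroup.mk' ((pullChain φ).sub k)) (pullElt φ)).coeff x : ℤ) : ℂ)
      = (MonoidAlgebra.mapDomain (QuotientGroup.mk' (chain k)) (elt ℂ ((10 : ℕ) : ℂ))).coeff
        (quotEquiv φ k x) := by
  rw [← coeff_mapDomain_equiv (quotEquiv φ k), mapDomain_quot, elt_coeff, elt_coeff]
  split_ifs <;> norm_num

theorem traceLog_pull {Γ : Type} [Group Γ] (φ : Γ ≃* Heis ℤ) (k : ℕ) :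
    normalised (pullChain φ)
      (Matrix.of fun _ _ => pullElt φ : Matrix (Fin 1) (Fin 1) (MonoidAlgebra ℤ Γ)) k
      = 2 * (Real.log ‖Dseq k‖ / (Nat.card (Heis ℤ ⧸ chain k) : ℝ)) := by
  have hne : Dseq k ≠ 0 := by
    intro h
    have := Dseq_norm_ge k
    rw [h, norm_zero] at this
    linarith
  have h1 : traceLog (image (pullChain φ)
      (Matrix.of fun _ _ => pullElt φ : Matrix (Fin 1) (Fin 1) (MonoidAlgebra ℤ Γ)) k)
      = 2 * Real.log ‖Dseq k‖ := by
    have himg : image (pullChain φ)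
        (Matrix.of fun _ _ => pullElt φ : Matrix (Fin 1) (Fin 1) (MonoidAlgebra ℤ Γ)) k
        = Matrix.of fun _ _ =>
          MonoidAlgebra.mapDomain (QuotientGroup.mk' ((pullChain φ).sub k)) (pullElt φ) := rfl
    rw [himg]
    refine traceLog_eq _ _ ?_ hne
    intro i1 i2
    classical
    have : Fintype (Heis ℤ ⧸ chain k) := Fintype.ofFinite _
    have h3 := det_opMatrix (quotEquiv φ k) _ _ (coeff_quot φ k)
    rw [h3]
    exact det_chain k
  have h2 : ((pullChain φ).sub k).index = Nat.card (Heis ℤ ⧸ chain k) := by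
    rw [← Subgroup.index_eq_card]
    exact Subgroup.index_comap_of_surjective _ (f := φ.toMonoidHom) φ.surjective
  unfold normalised
  rw [h1, h2]
  ring

/-- The normalised traces have no limit, not even an infinite one. -/
theorem not_tendsto {Γ : Type} [Group Γ] (φ : Γ ≃* Heis ℤ) :
    ¬ ∃ L : EReal, Filter.Tendsto (fun k => ((normalised (pullChain φ)
      (Matrix.of fun _ _ => pullElt φ : Matrix (Fin 1) (Fin 1) (MonoidAlgebra ℤ Γ)) k : ℝ) : EReal))
      Filter.atTop (𝓝 L) := by
  rintro ⟨L, h⟩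
  simp only [traceLog_pull] at h
  have h1 : Filter.Tendsto (fun j : ℕ => 2 * (j + 1)) Filter.atTop Filter.atTop :=
    Filter.tendsto_atTop_mono (fun j => by simp only [id]; omega) Filter.tendsto_id
  have h2 : Filter.Tendsto (fun j : ℕ => 2 * (j + 1) + 1) Filter.atTop Filter.atTop :=
    Filter.tendsto_atTop_mono (fun j => by simp only [id]; omega) Filter.tendsto_id
  have g1 : L ≤ ((2 * (1 / 3 * Real.log 21) : ℝ) : EReal) := by
    refine le_of_tendsto' (h.comp h1) (fun j => ?_)
    simp only [Function.comp_apply]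
    exact EReal.coe_le_coe_iff.mpr (by have := Dseq_even j; linarith)
  have g2 : ((2 * (4 / 9 * Real.log 10) : ℝ) : EReal) ≤ L := by
    refine ge_of_tendsto' (h.comp h2) (fun j => ?_)
    simp only [Function.comp_apply]
    exact EReal.coe_le_coe_iff.mpr (by have := Dseq_odd j; linarith)
  have g3 := EReal.coe_le_coe_iff.mp (g2.trans g1)
  have := gap
  linarith

end Pool.Agent.Helper993.LT
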