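import Pool.Agent.Helper993.Homotopy
import Pool.Agent.Helper993.LogTrace

open scoped InnerProductSpace Topology

noncomputable section

namespace Pool.Agent.Helper993.FK

open Pool.Agent.Helper993.HeisDet Pool.Agent.Helper993.LT

section
variable {Q : Type} [Group Q] [Fintype Q]

/-- the matrix with a single entry -/
def one1 {R Γ : Type} [Semiring R] (a : MonoidAlgebra R Γ) :
    Matrix (Fin 1) (Fin 1) (MonoidAlgebra R Γ) := Matrix.of fun _ _ => a

theorem coord_one1 (a : MonoidAlgebra ℚ Q) (v : L2Pow Q 1) (j : Fin 1) (h : Q) :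
    coord (rMul (one1 a) v) j h = ∑ k, coord v 0 k * ((a.coeff (k⁻¹ * h) : ℚ) : ℂ) := by
  rw [rMul_apply, Fin.sum_univ_one]
  unfold one1
  rw [Matrix.of_apply]
  have e1 : ∑ g ∈ a.coeff.support, ((a.coeff g : ℚ) : ℂ) * coord v 0 (h * g⁻¹)
      = ∑ g, ((a.coeff g : ℚ) : ℂ) * coord v 0 (h * g⁻¹) := by
    apply Finset.sum_subset (Finset.subset_univ _)
    intro g _ hg
    rw [Finsupp.notMem_support_iff] at hg
    rw [hg]
    simp
  rw [e1]
  let e : Q ≃ Q := (Equiv.inv Q).trans (Equiv.mulLeft h)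
  rw [← Equiv.sum_comp e (fun k => coord v 0 k * ((a.coeff (k⁻¹ * h) : ℚ) : ℂ))]
  apply Finset.sum_congr rfl
  intro g _
  simp [e, mul_comm]

theorem one1_inj [DecidableEq Q] (a : MonoidAlgebra ℚ Q)
    (hdet : (Matrix.of fun g h : Q => ((a.coeff (g⁻¹ * h) : ℚ) : ℂ)).det ≠ 0) (v : L2Pow Q 1)
    (hv : rMul (one1 a) v = 0) : v = 0 := by
  have h1 : (fun k => coord v 0 k) = 0 := by
    apply Matrix.eq_zero_of_vecMul_eq_zero hdet
    ext h
    have := congrArg (fun w => coord w 0 h) hv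
    simp only [coord_one1, coord_zero] at this
    exact this
  apply coord_ext
  intro j g
  rw [coord_zero, Subsingleton.elim j 0]
  exact congrFun h1 g

end

section
variable {Γ : Type} [Group Γ] (φ : Γ ≃* Heis ℤ)

instance pull_finite (k : ℕ) : Finite (Γ ⧸ (pullChain φ).sub k) :=
  Finite.of_equiv _ (quotEquiv φ k).symm.toEquiv

theorem Dseq_ne (k : ℕ) : Dseq k ≠ 0 := by
  intro h
  have := Dseq_norm_ge k
  rw [h, norm_zero] at this
  linarith

theorem det_pull (k : ℕ) [Fintype (Γ ⧸ (pullChain φ).sub k)] [DecidableEq (Γ ⧸ (pullChain φ).sub k)] :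
    (Matrix.of fun g h : Γ ⧸ (pullChain φ).sub k =>
      (((MonoidAlgebra.mapDomain (QuotientGroup.mk' ((pullChain φ).sub k)) (pullElt φ)).coeff
        (g⁻¹ * h) : ℤ) : ℂ)).det = Dseq k := by
  classical
  have : Fintype (Heis ℤ ⧸ chain k) := Fintype.ofFinite _
  rw [← det_chain k, ← Matrix.det_reindex_self (quotEquiv φ k).toEquiv]
  congr 1
  ext x y
  rw [Matrix.reindex_apply, Matrix.submatrix_apply, Matrix.of_apply, coeff_quot φ k, gmat,
    Matrix.of_apply]
  congr 1
  simp

theorem elt_inj : ∀ v : L2Pow Γ 1, rMul ((one1 (pullElt φ)).map toQ) v = 0 → v = 0 := by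
  apply injective_of_finite_level (fun k => (pullChain φ).sub k) (pullChain φ).strictAnti.antitone
    (pullChain φ).iInf_eq_bot
  intro k v hv
  classical
  have : Fintype (Γ ⧸ (pullChain φ).sub k) := Fintype.ofFinite _
  rw [mq_toQ] at hv
  refine one1_inj (toQ (MonoidAlgebra.mapDomain (QuotientGroup.mk' ((pullChain φ).sub k))
    (pullElt φ))) ?_ v hv
  have h := det_pull φ k
  simp only [toQ_coeff, Rat.cast_intCast]
  rw [h]
  exact Dseq_ne k

theorem invol_coeff {R : Type} [Semiring R] (a : MonoidAlgebra R Γ) (g : Γ) :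
    (MonoidAlgebra.mapDomain (fun g => g⁻¹) a).coeff g = a.coeff g⁻¹ := by
  have := Finsupp.mapDomain_apply (f := fun g : Γ => g⁻¹) inv_injective a.coeff g⁻¹
  rw [inv_inv] at this
  rw [← this]
  simp [MonoidAlgebra.mapDomain]

theorem elt_adj_inj : ∀ v : L2Pow Γ 1, rMul ((adjZ (one1 (pullElt φ))).map toQ) v = 0 → v = 0 := by
  apply injective_of_finite_level (fun k => (pullChain φ).sub k) (pullChain φ).strictAnti.antitone
    (pullChain φ).iInf_eq_bot
  intro k v hv
  classical
  have : Fintype (Γ ⧸ (pullChain φ).sub k) := Fintype.ofFinite _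
  rw [toQ_adjZ, mq_adjQ, mq_toQ] at hv
  refine one1_inj (invol (toQ (MonoidAlgebra.mapDomain (QuotientGroup.mk' ((pullChain φ).sub k))
    (pullElt φ)))) ?_ v hv
  have h := det_pull φ k
  simp only [invol, invol_coeff, toQ_coeff, Rat.cast_intCast, mul_inv_rev, inv_inv]
  rw [← Matrix.det_transpose, Matrix.transpose]
  simp only [Matrix.of_apply]
  rw [h]
  exact Dseq_ne k

end

end Pool.Agent.Helper993.FK
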