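import Pool.Agent.Helper993.Cpx

noncomputable section

namespace Pool.Agent.Helper993.Cpx

open Pool.Agent.Helper993.HeisDet Pool.Agent.Helper993.SP Pool.Agent.Helper993.Delta

/-- the class of an edge -/
def cl (b : Bool) (e : Fin 9) : (cpx b).pi1 := (cpx b).cls e

section
variable (b : Bool)

theorem cl_w : cl b 5 = cl b 1 * cl b 2 := (cpx b).cls_rel (5 : Fin 30)
theorem cl_s : cl b 4 = cl b 2 * cl b 1 := (cpx b).cls_rel (6 : Fin 30)
theorem cl_w2 : cl b 5 = cl b 3 * cl b 4 := (cpx b).cls_rel (7 : Fin 30)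
theorem cl_p : cl b 6 = cl b 1 * cl b 3 := (cpx b).cls_rel (9 : Fin 30)
theorem cl_p2 : cl b 6 = cl b 3 * cl b 1 := (cpx b).cls_rel (10 : Fin 30)
theorem cl_q : cl b 7 = cl b 2 * cl b 3 := (cpx b).cls_rel (11 : Fin 30)
theorem cl_q2 : cl b 7 = cl b 3 * cl b 2 := (cpx b).cls_rel (12 : Fin 30)
theorem cl_v : cl b 8 = cl b 3 * cl b 5 := (cpx b).cls_rel (14 : Fin 30)
theorem cl_o : cl b 0 = 1 := by
  have h : cl b 0 = cl b 0 * cl b 0 := (cpx b).cls_rel (0 : Fin 30)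
  exact (left_eq_mul.mp h)

theorem comm_xz : Commute (cl b 1) (cl b 3) := by
  unfold Commute SemiconjBy
  rw [← cl_p, ← cl_p2]

theorem comm_yz : Commute (cl b 2) (cl b 3) := by
  unfold Commute SemiconjBy
  rw [← cl_q, ← cl_q2]

theorem xy_eq : cl b 1 * cl b 2 = cl b 3 * (cl b 2 * cl b 1) := by
  rw [← cl_w, cl_w2, cl_s]

end

section
variable {Γ : Type} [Group Γ] {x y z : Γ}

/-- `y⁻¹ x y = z x`, so `x^a y = y (z x)^a = z^a y x^a` -/
theorem comm_aux (hxz : Commute x z) (hyz : Commute y z) (hxy : x * y = z * (y * x)) (a c : ℤ) :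
    x ^ a * y ^ c = z ^ (a * c) * (y ^ c * x ^ a) := by
  have h1 : SemiconjBy y (z * x) x := by
    unfold SemiconjBy
    rw [hxy, ← mul_assoc, ← mul_assoc, hyz.eq]
  have h2 : SemiconjBy y ((z * x) ^ a) (x ^ a) := h1.zpow_right a
  rw [hxz.symm.mul_zpow] at h2
  -- `y (z^a x^a) = x^a y`
  have h3 : x ^ a * y = z ^ a * (y * x ^ a) := by
    rw [← h2.eq, ← mul_assoc, ← mul_assoc, (hyz.zpow_right a).eq]
  -- `x^a y x^{-a} = z^a y`
  have h4 : SemiconjBy (x ^ a) y (z ^ a * y) := by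
    unfold SemiconjBy
    rw [h3, mul_assoc]
  have h5 := h4.zpow_right c
  rw [((hyz.zpow_right a).symm).mul_zpow, ← zpow_mul] at h5
  rw [h5.eq, mul_assoc]

end

theorem rearrange {Γ : Type} [Group Γ] {X1 X2 Y1 Y2 Z1 Z2 Z3 : Γ} (h1 : Commute X1 Z2)
    (h2 : Commute Y1 Z2) (h3 : Commute Y1 Z3) (h4 : X1 * Y2 = Z3 * (Y2 * X1)) :
    Z1 * Z2 * Z3 * (Y1 * Y2) * (X1 * X2) = Z1 * Y1 * X1 * (Z2 * Y2 * X2) := by
  calc Z1 * Z2 * Z3 * (Y1 * Y2) * (X1 * X2)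
      = Z1 * (Z2 * ((Z3 * Y1) * (Y2 * X1)) * X2) := by group
    _ = Z1 * (Z2 * ((Y1 * Z3) * (Y2 * X1)) * X2) := by rw [h3.eq]
    _ = Z1 * ((Z2 * Y1) * (Z3 * (Y2 * X1)) * X2) := by group
    _ = Z1 * ((Y1 * Z2) * (X1 * Y2) * X2) := by rw [h2.eq, h4]
    _ = Z1 * Y1 * (Z2 * X1) * Y2 * X2 := by group
    _ = Z1 * Y1 * (X1 * Z2) * Y2 * X2 := by rw [h1.eq]
    _ = Z1 * Y1 * X1 * (Z2 * Y2 * X2) := by group

/-- the inverse of the isomorphism -/
def fwd (b : Bool) : Heis ℤ →* (cpx b).pi1 where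
  toFun g := cl b 3 ^ g.c * cl b 2 ^ g.b * cl b 1 ^ g.a
  map_one' := by simp
  map_mul' g h := by
    rw [Heis.mul_a, Heis.mul_b, Heis.mul_c, zpow_add, zpow_add, zpow_add, zpow_add]
    exact rearrange ((comm_xz b).zpow_zpow _ _) ((comm_yz b).zpow_zpow _ _)
      ((comm_yz b).zpow_zpow _ _) (comm_aux (comm_xz b) (comm_yz b) (xy_eq b) g.a h.b)

theorem fwd_labH (b : Bool) (e : Fin 9) : fwd b (labH e) = cl b e := by
  have h : ∀ g : Heis ℤ, fwd b g = cl b 3 ^ g.c * cl b 2 ^ g.b * cl b 1 ^ g.a := fun _ => rfl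
  rw [h]
  fin_cases e
  · simp [labH, cl_o]
  · simp [labH]
  · simp [labH]
  · simp [labH]
  · simp [labH, cl_s]
  · simp [labH, cl_w2, cl_s, mul_assoc]
  · simp [labH, cl_p2]
  · simp [labH, cl_q2]
  · simp [labH, cl_v, cl_w2, cl_s, mul_assoc, zpow_ofNat, pow_two]

theorem labH_rel (b : Bool) : ∀ σ : Fin 30, labH (faceF b 1 2 σ) * labH (faceF b 1 0 σ)
    * (labH (faceF b 1 1 σ))⁻¹ = 1 := by
  revert b
  decide +kernel

/-- the labels of the edges -/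
def labX (b : Bool) : Fin ((cpx b).num 1) → Heis ℤ := labH

/-- the isomorphism -/
def bwd (b : Bool) : (cpx b).pi1 →* Heis ℤ :=
  PresentedGroup.toGroup (rels := Set.range (cpx b).rel) (f := labX b) (by
    rintro _ ⟨σ, rfl⟩
    unfold OneVertex.rel
    rw [map_mul, map_mul, map_inv, FreeGroup.lift_apply_of, FreeGroup.lift_apply_of,
      FreeGroup.lift_apply_of]
    exact labH_rel b σ)

theorem bwd_cl (b : Bool) (e : Fin 9) : bwd b (cl b e) = labH e :=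
  PresentedGroup.toGroup.of _

theorem zpow_x (n : ℤ) : (⟨1, 0, 0⟩ : Heis ℤ) ^ n = ⟨n, 0, 0⟩ := by
  induction n using Int.induction_on with
  | zero => rfl
  | succ i ih => rw [zpow_add_one, ih]; ext <;> simp
  | pred i ih => rw [zpow_sub_one, ih]; ext <;> simp [sub_eq_add_neg]

theorem zpow_y (n : ℤ) : (⟨0, 1, 0⟩ : Heis ℤ) ^ n = ⟨0, n, 0⟩ := by
  induction n using Int.induction_on with
  | zero => rfl
  | succ i ih => rw [zpow_add_one, ih]; ext <;> simp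
  | pred i ih => rw [zpow_sub_one, ih]; ext <;> simp [sub_eq_add_neg]

theorem zpow_z (n : ℤ) : (⟨0, 0, 1⟩ : Heis ℤ) ^ n = ⟨0, 0, n⟩ := by
  induction n using Int.induction_on with
  | zero => rfl
  | succ i ih => rw [zpow_add_one, ih]; ext <;> simp
  | pred i ih => rw [zpow_sub_one, ih]; ext <;> simp [sub_eq_add_neg]

/-- the isomorphism of the fundamental group with the Heisenberg group -/
def phi (b : Bool) : (cpx b).pi1 ≃* Heis ℤ :=
  MonoidHom.toMulEquiv (bwd b) (fwd b)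
    (by
      apply PresentedGroup.ext
      intro e
      change fwd b (bwd b (cl b e)) = cl b e
      rw [bwd_cl, fwd_labH])
    (by
      ext1 g
      change bwd b (cl b 3 ^ g.c * cl b 2 ^ g.b * cl b 1 ^ g.a) = g
      rw [map_mul, map_mul, map_zpow, map_zpow, map_zpow, bwd_cl, bwd_cl, bwd_cl]
      change (⟨0, 0, 1⟩ : Heis ℤ) ^ g.c * (⟨0, 1, 0⟩ : Heis ℤ) ^ g.b * (⟨1, 0, 0⟩ : Heis ℤ) ^ g.a = g
      rw [zpow_x, zpow_y, zpow_z]
      ext <;> simp)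

theorem phi_symm_labH (b : Bool) (e : Fin 9) : (phi b).symm (labH e) = (cpx b).cls e :=
  fwd_labH b e

end Pool.Agent.Helper993.Cpx
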