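import Pool.Agent.Helper993.Acyclic
import Pool.Agent.Helper993.EltInj
import Pool.Agent.Helper993.Pi1

open scoped InnerProductSpace Topology

noncomputable section

namespace Pool.Agent.Helper993.Cpx

open Pool.Agent.Helper993.HeisDet Pool.Agent.Helper993.SP Pool.Agent.Helper993.Delta
  Pool.Agent.Helper993.FK Pool.Agent.Helper993.LT

theorem boundary_eq (X : OneVertex) (n : ℕ) : X.boundary n = toM (bdR X X.cls n) := by
  ext1 σ τ
  unfold OneVertex.boundary toM ev bdR
  rw [Matrix.of_apply, Matrix.of_apply, List.map_map, Fin.sum_univ_def]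
  rfl

theorem bdR_map (X : OneVertex) {H H' : Type} [Group H] [Group H'] (f : H →* H')
    (lab : Fin (X.num 1) → H) (n : ℕ) (σ : Fin (X.num (n + 1))) :
    mapR f (bdR X lab n σ) = bdR X (fun e => f (lab e)) n σ := by
  unfold mapR bdR
  rw [List.map_map]
  apply List.map_congr_left
  intro i _
  simp only [Function.comp_apply]
  split_ifs with h
  · rfl
  · rw [map_one]

theorem toM_bdR_map (X : OneVertex) {H H' : Type} [Group H] [Group H'] (f : H →* H')
    (lab : Fin (X.num 1) → H) (n : ℕ) :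
    (toM (bdR X lab n)).map (MonoidAlgebra.mapDomainRingHom ℤ f)
      = toM (bdR X (fun e => f (lab e)) n) := by
  rw [toM_map]
  congr 1
  funext σ
  exact bdR_map X f lab n σ

/-! ### identities over the Heisenberg group -/

theorem I0 (b : Bool) : toM h0 * toM (d1 b) = toM (zM 1) := by
  rw [toM_mul]; exact toM_eq (check0 b)

theorem I1 (b : Bool) : toM (d1 b) * toM h0 + toM h1 * toM (d2 b) = toM (zM 9) := by
  rw [toM_mul, toM_mul, toM_add]; exact toM_eq (check1 b)

theorem I2 (b : Bool) : toM (d2 b) * toM h1 + toM h2 * toM (d3 false) = toM (zM 30) := by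
  rw [toM_mul, toM_mul, toM_add]; exact toM_eq (check2 b)

theorem I3 : toM (d3 false) * toM h2 = toM (zM 22) := by
  rw [toM_mul]; exact toM_eq check3

theorem I4 : toM tM * toM (d3 false) = toM (d3 true) := by
  rw [toM_mul]; exact toM_eq check4

/-- the unit column vector of the last tetrahedron, transposed -/
def rR (_ : Fin 1) : Row 22 (Heis ℤ) := [(21, 1, 1)]

/-- the projection to the other tetrahedra -/
def pR (i : Fin 22) : Row 22 (Heis ℤ) := if i = 21 then [] else [(i, 1, 1)]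

/-- the group ring element -/
def aR (_ : Fin 1) : Row 1 (Heis ℤ) := [(0, 1, 1), (0, 10, ⟨1, 0, 0⟩), (0, -10, ⟨1, 1, 0⟩)]

/-- the last row of the inverse part -/
def wR (_ : Fin 1) : Row 22 (Heis ℤ) := (21, 1, 1) :: negR ((tM 21).filter fun x => x.1 ≠ 21)

/-- the identity matrix -/
def oR (r : ℕ) (i : Fin r) : Row r (Heis ℤ) := [(i, 1, 1)]

theorem T1 : toM tM * toM eM = toM eM * toM aR := by
  rw [toM_mul, toM_mul]; exact toM_eq (by decide +kernel)

theorem T2 : toM tM * toM pR + toM eM * toM wR = toM (oR 22) := by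
  rw [toM_mul, toM_mul, toM_add]; exact toM_eq (by decide +kernel)

theorem T3 : toM pR * toM tM = toM pR := by
  rw [toM_mul]; exact toM_eq (by decide +kernel)

theorem T4 : toM rR * toM tM * toM eM = toM aR := by
  rw [toM_mul, toM_mul]; exact toM_eq (by decide +kernel)

theorem T5 : toM pR + toM eM * toM rR = toM (oR 22) := by
  rw [toM_mul, toM_add]; exact toM_eq (by decide +kernel)

theorem toM_oR (r : ℕ) : toM (oR r) = 1 := by
  ext1 i j
  unfold toM oR ev
  simp only [Matrix.of_apply, List.map_cons, List.map_nil, List.sum_cons, List.sum_nil, add_zero]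
  by_cases h : i = j
  · subst h; simp [MonoidAlgebra.one_def]
  · simp [h]

theorem toM_zM (r : ℕ) : toM (zM r)
    = Matrix.diagonal fun _ => MonoidAlgebra.single (⟨0, 0, 1⟩ : Heis ℤ) (1 : ℤ) - 1 := by
  ext1 i j
  unfold toM zM ev
  simp only [Matrix.of_apply, List.map_cons, List.map_nil, List.sum_cons, List.sum_nil, add_zero]
  by_cases h : i = j
  · subst h; simp [MonoidAlgebra.one_def, sub_eq_add_neg]
  · simp [h]

theorem toM_aR : toM aR = one1 (elt ℤ 10) := by
  ext1 i j
  have hi : (0 : Fin 1) = j := Subsingleton.elim _ _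
  have e : (⟨1, 1, 0⟩ : Heis ℤ) = uu * tt := by decide +kernel
  unfold toM aR ev one1 elt
  simp only [Matrix.of_apply, List.map_cons, List.map_nil, List.sum_cons, List.sum_nil, add_zero,
    if_pos hi]
  rw [e]
  have e2 : MonoidAlgebra.single (uu * tt) (-10 : ℤ) = - MonoidAlgebra.single (uu * tt) (10 : ℤ) := by
    simp
  rw [e2]
  change MonoidAlgebra.single 1 1 + (MonoidAlgebra.single tt 10 + _) = _
  abel

/-! ### the triangular comparison matrix -/

section
variable {G : Type} [Group G] {r : ℕ}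

theorem tri_inj (T P : Matrix (Fin r) (Fin r) (MonoidAlgebra ℚ G))
    (c : Matrix (Fin r) (Fin 1) (MonoidAlgebra ℚ G)) (w : Matrix (Fin 1) (Fin r) (MonoidAlgebra ℚ G))
    (a : Matrix (Fin 1) (Fin 1) (MonoidAlgebra ℚ G)) (h1 : T * c = c * a) (h2 : T * P + c * w = 1)
    (ha : ∀ v, rMul a v = 0 → v = 0) (v : L2Pow G r) (hv : rMul T v = 0) : v = 0 := by
  have e1 : rMul c v = 0 := by
    apply ha
    have h := congrArg (fun M => rMul M v) h1
    simp only [rMul_mul, ContinuousLinearMap.comp_apply] at h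
    rw [← h, hv, map_zero]
  have h := congrArg (fun M => rMul M v) h2
  simp only [rMul_add, rMul_mul, rMul_one, _root_.add_apply,
    ContinuousLinearMap.comp_apply, hv, e1, map_zero, zero_add] at h
  exact h.symm

theorem tri_adj_inj (T P : Matrix (Fin r) (Fin r) (MonoidAlgebra ℚ G))
    (c : Matrix (Fin r) (Fin 1) (MonoidAlgebra ℚ G)) (c' : Matrix (Fin 1) (Fin r) (MonoidAlgebra ℚ G))
    (a : Matrix (Fin 1) (Fin 1) (MonoidAlgebra ℚ G)) (h3 : P * T = P) (h4 : c' * T * c = a)
    (h5 : P + c * c' = 1) (ha : ∀ v, (rMul a).adjoint v = 0 → v = 0) (v : L2Pow G r)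
    (hv : (rMul T).adjoint v = 0) : v = 0 := by
  have e1 : (rMul P).adjoint v = 0 := by
    have h := congrArg (fun M => (rMul M).adjoint v) h3
    simp only [rMul_mul, ContinuousLinearMap.adjoint_comp, ContinuousLinearMap.comp_apply] at h
    rw [← h, hv, map_zero]
  have e2 : v = (rMul c).adjoint ((rMul c').adjoint v) := by
    have h := congrArg (fun M => (rMul M).adjoint v) h5
    simp only [rMul_add, rMul_mul, rMul_one, map_add, ContinuousLinearMap.adjoint_comp,
      _root_.add_apply, ContinuousLinearMap.comp_apply, e1, zero_add] at h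
    rw [h]
    have : ContinuousLinearMap.adjoint (1 : L2Pow G r →L[ℂ] L2Pow G r) = 1 :=
      ContinuousLinearMap.adjoint_id
    rw [this]
    rfl
  have e3 : (rMul c').adjoint v = 0 := by
    apply ha
    have h := congrArg (fun M => (rMul M).adjoint ((rMul c').adjoint v)) h4
    simp only [rMul_mul, ContinuousLinearMap.adjoint_comp, ContinuousLinearMap.comp_apply] at h
    rw [← h, ← e2, hv, map_zero]
  rw [e2, e3, map_zero]

end

/-! ### the complexes are acyclic -/

section
variable (b : Bool)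

/-- the homomorphism from the Heisenberg group -/
def psi : Heis ℤ →* (cpx b).pi1 := (phi b).symm.toMonoidHom

/-- the ring homomorphism -/
def RH : MonoidAlgebra ℤ (Heis ℤ) →+* MonoidAlgebra ℚ (cpx b).pi1 :=
  (MonoidAlgebra.mapRingHom (cpx b).pi1 (Int.castRingHom ℚ)).comp
    (MonoidAlgebra.mapDomainRingHom ℤ (psi b))

theorem cpx_boundary (n : ℕ) : (cpx b).boundary n
    = (toM (bdR (cpx b) (labX b) n)).map (MonoidAlgebra.mapDomainRingHom ℤ (psi b)) := by
  rw [toM_bdR_map, boundary_eq]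
  have h : (fun e => psi b (labX b e)) = (cpx b).cls := funext (phi_symm_labH b)
  rw [h]

theorem l2b (n : ℕ) : (cpx b).l2boundary n
    = rMul ((toM (bdR (cpx b) (labX b) n)).map (RH b)) := by
  unfold OneVertex.l2boundary
  rw [cpx_boundary, Matrix.map_map]
  rfl

/-- the central element -/
def zz : (cpx b).pi1 := psi b ⟨0, 0, 1⟩

theorem zz_central (g : (cpx b).pi1) : zz b * g = g * zz b := by
  obtain ⟨h, rfl⟩ := (phi b).symm.surjective g
  change psi b _ * psi b h = psi b h * psi b _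
  rw [← map_mul, ← map_mul]
  congr 1
  ext <;> simp [add_comm]

theorem zz_order : ¬ IsOfFinOrder (zz b) := by
  rw [isOfFinOrder_iff_pow_eq_one]
  rintro ⟨n, hn, h⟩
  unfold zz at h
  rw [← map_pow] at h
  have h2 : (⟨0, 0, 1⟩ : Heis ℤ) ^ n = 1 := by
    apply (phi b).symm.injective
    rw [map_one]
    exact h
  have h3 : (⟨0, 0, 1⟩ : Heis ℤ) ^ n = ⟨0, 0, n⟩ := by
    have := zpow_z n
    rwa [zpow_natCast] at this
  rw [h3] at h2
  have h4 := congrArg Heis.c h2
  simp at h4
  omega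

theorem RH_single (g : Heis ℤ) (c : ℤ) :
    RH b (MonoidAlgebra.single g c) = MonoidAlgebra.single (psi b g) (c : ℚ) := by
  unfold RH
  rw [RingHom.comp_apply, MonoidAlgebra.mapDomainRingHom_apply, MonoidAlgebra.mapDomain_single]
  exact MonoidAlgebra.mapRingHom_single _ _ _

theorem RH_zM (r : ℕ) : (toM (zM r)).map (RH b) = zeta (zz b) r := by
  rw [toM_zM, Matrix.diagonal_map (map_zero _)]
  unfold zeta
  congr 1
  funext i
  rw [map_sub, map_one, RH_single]
  simp [zz]

theorem RH_one (r : ℕ) : (1 : Matrix (Fin r) (Fin r) (MonoidAlgebra ℤ (Heis ℤ))).map (RH b) = 1 :=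
  Matrix.map_one _ (map_zero _) (map_one _)

theorem J0 : (toM h0).map (RH b) * (toM (d1 b)).map (RH b) = zeta (zz b) 1 := by
  rw [← Matrix.map_mul, I0, RH_zM]

theorem J1 : (toM (d1 b)).map (RH b) * (toM h0).map (RH b)
    + (toM h1).map (RH b) * (toM (d2 b)).map (RH b) = zeta (zz b) 9 := by
  rw [← Matrix.map_mul, ← Matrix.map_mul, ← Matrix.map_add _ (map_add _), I1, RH_zM]

theorem J2 : (toM (d2 b)).map (RH b) * (toM h1).map (RH b)
    + (toM h2).map (RH b) * (toM (d3 false)).map (RH b) = zeta (zz b) 30 := by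
  rw [← Matrix.map_mul, ← Matrix.map_mul, ← Matrix.map_add _ (map_add _), I2, RH_zM]

theorem J3 : (toM (d3 false)).map (RH b) * (toM h2).map (RH b) = zeta (zz b) 22 := by
  rw [← Matrix.map_mul, I3, RH_zM]

theorem J4 : (toM tM).map (RH b) * (toM (d3 false)).map (RH b) = (toM (d3 true)).map (RH b) := by
  rw [← Matrix.map_mul, I4]

theorem rMul_zero' {G : Type} [Group G] {r s : ℕ} :
    rMul (0 : Matrix (Fin r) (Fin s) (MonoidAlgebra ℚ G)) = 0 := by
  rw [rMul_eq_sc]
  simp [sc_zero]

/-- the group ring element over the rational group ring -/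
theorem RH_aR : (toM aR).map (RH b) = (one1 (pullElt (phi b))).map toQ := by
  rw [toM_aR]
  rfl

theorem T_inj (v : L2Pow (cpx b).pi1 22) (hv : rMul ((toM tM).map (RH b)) v = 0) : v = 0 := by
  refine tri_inj _ ((toM pR).map (RH b)) ((toM eM).map (RH b)) ((toM wR).map (RH b))
    ((toM aR).map (RH b)) ?_ ?_ ?_ v hv
  · rw [← Matrix.map_mul, T1, Matrix.map_mul]
  · rw [← Matrix.map_mul, ← Matrix.map_mul, ← Matrix.map_add _ (map_add _), T2, toM_oR, RH_one]
  · rw [RH_aR]
    exact elt_inj (phi b)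

theorem T_adj_inj (v : L2Pow (cpx b).pi1 22) (hv : (rMul ((toM tM).map (RH b))).adjoint v = 0) :
    v = 0 := by
  refine tri_adj_inj _ ((toM pR).map (RH b)) ((toM eM).map (RH b)) ((toM rR).map (RH b))
    ((toM aR).map (RH b)) ?_ ?_ ?_ ?_ v hv
  · rw [← Matrix.map_mul, T3]
  · rw [← Matrix.map_mul, ← Matrix.map_mul, T4]
  · rw [← Matrix.map_mul, ← Matrix.map_add _ (map_add _), T5, toM_oR, RH_one]
  · rw [RH_aR, adjoint_rMul, ← toQ_adjZ]
    exact elt_adj_inj (phi b)

theorem acyc0 (v : L2Pow (cpx b).pi1 1) (hv : (rMul ((toM (d1 b)).map (RH b))).adjoint v = 0) :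
    v = 0 := by
  refine homotopy_inj (zz_central b) (zz_order b) (0 : Matrix (Fin 1) (Fin 1) _) 0
    ((toM h0).map (RH b)) ((toM (d1 b)).map (RH b)) ?_ v ?_ hv
  · rw [Matrix.zero_mul, zero_add, J0]
  · rw [rMul_zero']
    rfl

theorem acyc1 (v : L2Pow (cpx b).pi1 9) (h1 : rMul ((toM (d1 b)).map (RH b)) v = 0)
    (hv : (rMul ((toM (d2 b)).map (RH b))).adjoint v = 0) : v = 0 :=
  homotopy_inj (zz_central b) (zz_order b) _ _ _ _ (J1 b) v h1 hv

theorem acyc2f (v : L2Pow (cpx b).pi1 30) (h1 : rMul ((toM (d2 b)).map (RH b)) v = 0)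
    (hv : (rMul ((toM (d3 false)).map (RH b))).adjoint v = 0) : v = 0 :=
  homotopy_inj (zz_central b) (zz_order b) _ _ _ _ (J2 b) v h1 hv

theorem J4' : rMul ((toM (d3 true)).map (RH b))
    = rMul ((toM (d3 false)).map (RH b)) ∘L rMul ((toM tM).map (RH b)) := by
  rw [← rMul_mul, J4]

theorem adj_comp_zero {H K L : Type} [NormedAddCommGroup H] [InnerProductSpace ℂ H]
    [CompleteSpace H] [NormedAddCommGroup K] [InnerProductSpace ℂ K] [CompleteSpace K]
    [NormedAddCommGroup L] [InnerProductSpace ℂ L] [CompleteSpace L]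
    {A : H →L[ℂ] K} {B : K →L[ℂ] L} {C : H →L[ℂ] L} (h : C = B ∘L A) {v : L}
    (hv : C.adjoint v = 0) : A.adjoint (B.adjoint v) = 0 := by
  rw [h, ContinuousLinearMap.adjoint_comp] at hv
  exact hv

theorem acyc2t (v : L2Pow (cpx b).pi1 30) (h1 : rMul ((toM (d2 b)).map (RH b)) v = 0)
    (hv : (rMul ((toM (d3 true)).map (RH b))).adjoint v = 0) : v = 0 :=
  acyc2f b v h1 (T_adj_inj b _ (adj_comp_zero (J4' b) hv))

theorem acyc3f (v : L2Pow (cpx b).pi1 22) (h1 : rMul ((toM (d3 false)).map (RH b)) v = 0) :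
    v = 0 := by
  refine homotopy_inj (zz_central b) (zz_order b) _ ((toM h2).map (RH b))
    (0 : Matrix (Fin 22) (Fin 22) _) 0 ?_ v h1 ?_
  · rw [Matrix.zero_mul, add_zero, J3]
  · rw [rMul_zero', map_zero]
    rfl

theorem acyc3t (v : L2Pow (cpx b).pi1 22) (h1 : rMul ((toM (d3 true)).map (RH b)) v = 0) :
    v = 0 := by
  have h2 : rMul ((toM (d3 false)).map (RH b)) (rMul ((toM tM).map (RH b)) v) = 0 := by
    rw [← ContinuousLinearMap.comp_apply, ← J4']
    exact h1
  exact T_inj b _ (acyc3f b _ h2)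

theorem l2b_zero : (cpx b).l2boundary 0 = rMul ((toM (d1 b)).map (RH b)) := l2b b 0
theorem l2b_one : (cpx b).l2boundary 1 = rMul ((toM (d2 b)).map (RH b)) := l2b b 1
theorem l2b_two : (cpx b).l2boundary 2 = rMul ((toM (d3 b)).map (RH b)) := l2b b 2

theorem aux0 (v : L2Pow (cpx b).pi1 ((cpx b).num 1)) (h1 : (cpx b).l2boundary 0 v = 0)
    (h2 : ((cpx b).l2boundary 1).adjoint v = 0) : v = 0 := by
  rw [l2b_zero] at h1
  rw [l2b_one] at h2
  exact acyc1 b v h1 h2

theorem aux1 (v : L2Pow (cpx b).pi1 ((cpx b).num 2)) (h1 : (cpx b).l2boundary 1 v = 0)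
    (h2 : ((cpx b).l2boundary 2).adjoint v = 0) : v = 0 := by
  rw [l2b_one] at h1
  rw [l2b_two] at h2
  cases b with
  | false => exact acyc2f false v h1 h2
  | true => exact acyc2t true v h1 h2

theorem aux2 (v : L2Pow (cpx b).pi1 ((cpx b).num 3)) (h1 : (cpx b).l2boundary 2 v = 0) : v = 0 := by
  rw [l2b_two] at h1
  cases b with
  | false => exact acyc3f false v h1
  | true => exact acyc3t true v h1

theorem aux3 (n : ℕ) (v : L2Pow (cpx b).pi1 ((cpx b).num (n + 4))) : v = 0 := by
  apply coord_ext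
  intro j
  exact Fin.elim0 (show Fin 0 from j)

theorem aux00 (v : L2Pow (cpx b).pi1 ((cpx b).num 0)) (hv : ((cpx b).l2boundary 0).adjoint v = 0) :
    v = 0 := by
  rw [l2b_zero] at hv
  exact acyc0 b v hv

theorem acyclic : (cpx b).DetL2Acyclic :=
  OneVertex.detL2Acyclic_of3 (fun k => (pullChain (phi b)).sub k)
    (pullChain (phi b)).strictAnti.antitone (pullChain (phi b)).iInf_eq_bot
    (aux00 b) (aux0 b) (aux1 b) (aux2 b) (aux3 b)

end

end Pool.Agent.Helper993.Cpx
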