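import Mathlib

noncomputable section

namespace Pool.Agent.Helper993.SP

/-- sparse row vectors over a group ring: lists of terms `(column, coefficient, group element)` -/
abbrev Row (s : ℕ) (H : Type) := List (Fin s × ℤ × H)

variable {H : Type} {r s m : ℕ}

/-- the entry of a sparse row -/
def ev (L : Row s H) (j : Fin s) : MonoidAlgebra ℤ H :=
  (L.map fun x => if x.1 = j then MonoidAlgebra.single x.2.2 x.2.1 else 0).sum

theorem ev_nil (j : Fin s) : ev ([] : Row s H) j = 0 := rfl

theorem ev_cons (x : Fin s × ℤ × H) (L : Row s H) (j : Fin s) :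
    ev (x :: L) j = (if x.1 = j then MonoidAlgebra.single x.2.2 x.2.1 else 0) + ev L j := by
  simp [ev]

theorem ev_append (L L' : Row s H) (j : Fin s) : ev (L ++ L') j = ev L j + ev L' j := by
  simp [ev]

/-- the matrix of a family of sparse rows -/
def toM (A : Fin r → Row s H) : Matrix (Fin r) (Fin s) (MonoidAlgebra ℤ H) :=
  Matrix.of fun i j => ev (A i) j

/-- product of a sparse row and a sparse matrix -/
def mulR [Group H] (L : Row m H) (B : Fin m → Row s H) : Row s H :=
  L.flatMap fun x => (B x.1).map fun y => (y.1, x.2.1 * y.2.1, x.2.2 * y.2.2)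

theorem ev_scale [Group H] (c : ℤ) (h : H) (L : Row s H) (j : Fin s) :
    ev (L.map fun y => (y.1, c * y.2.1, h * y.2.2)) j = MonoidAlgebra.single h c * ev L j := by
  induction L with
  | nil => simp [ev]
  | cons y L ih =>
    rw [List.map_cons, ev_cons, ih, ev_cons, mul_add]
    congr 1
    split_ifs
    · rw [MonoidAlgebra.single_mul_single]
    · rw [mul_zero]

theorem ev_mulR [Group H] (L : Row m H) (B : Fin m → Row s H) (j : Fin s) :
    ev (mulR L B) j = ∑ k, ev L k * ev (B k) j := by
  induction L with
  | nil => simp [mulR, ev]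
  | cons x L ih =>
    have h1 : mulR (x :: L) B
        = ((B x.1).map fun y => (y.1, x.2.1 * y.2.1, x.2.2 * y.2.2)) ++ mulR L B := rfl
    rw [h1, ev_append, ih, ev_scale]
    simp_rw [ev_cons, add_mul, Finset.sum_add_distrib]
    congr 1
    rw [Finset.sum_eq_single x.1]
    · simp
    · intro k _ hk
      rw [if_neg (fun h => hk h.symm), zero_mul]
    · intro h
      exact absurd (Finset.mem_univ _) h

theorem toM_mul [Group H] (A : Fin r → Row m H) (B : Fin m → Row s H) :
    toM A * toM B = toM (fun i => mulR (A i) B) := by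
  ext1 i j
  rw [Matrix.mul_apply]
  exact (ev_mulR (A i) B j).symm

theorem toM_add (A B : Fin r → Row s H) : toM A + toM B = toM (fun i => A i ++ B i) := by
  ext1 i j
  exact (ev_append (A i) (B i) j).symm

/-- negation of a sparse row -/
def negR (L : Row s H) : Row s H := L.map fun x => (x.1, -x.2.1, x.2.2)

theorem ev_negR (L : Row s H) (j : Fin s) : ev (negR L) j = - ev L j := by
  induction L with
  | nil => simp [negR, ev]
  | cons x L ih =>
    have h1 : negR (x :: L) = (x.1, -x.2.1, x.2.2) :: negR L := rfl
    rw [h1, ev_cons, ev_cons, ih, neg_add]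
    congr 1
    split_ifs
    · simp
    · simp

/-- the total coefficient of `(j, h)` in a sparse row -/
def total [DecidableEq H] (L : Row s H) (j : Fin s) (h : H) : ℤ :=
  (L.map fun x => if x.1 = j ∧ x.2.2 = h then x.2.1 else 0).sum

/-- the test whether a sparse row is zero -/
def isZero [DecidableEq H] (L : Row s H) : Bool :=
  L.all fun x => total L x.1 x.2.2 == 0

theorem ev_coeff [DecidableEq H] (L : Row s H) (j : Fin s) (h : H) :
    (ev L j).coeff h = total L j h := by
  induction L with
  | nil => simp [ev, total]
  | cons x L ih =>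
    rw [ev_cons, MonoidAlgebra.coeff_add, Finsupp.add_apply, ih]
    unfold total
    rw [List.map_cons, List.sum_cons]
    congr 1
    by_cases h1 : x.1 = j
    · by_cases h2 : x.2.2 = h
      · simp [h1, h2]
      · simp [h1, h2, Finsupp.single_apply]
    · simp [h1]

theorem total_eq_zero [DecidableEq H] {L : Row s H} (hL : isZero L = true) (j : Fin s) (h : H) :
    total L j h = 0 := by
  by_cases hex : ∃ x ∈ L, x.1 = j ∧ x.2.2 = h
  · obtain ⟨x, hx, h1, h2⟩ := hex
    unfold isZero at hL
    rw [List.all_eq_true] at hL
    have h3 := hL x hx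
    rw [beq_iff_eq, h1, h2] at h3
    exact h3
  · push Not at hex
    unfold total
    rw [List.sum_eq_zero]
    intro y hy
    rw [List.mem_map] at hy
    obtain ⟨x, hx, rfl⟩ := hy
    rw [if_neg]
    rintro ⟨h1, h2⟩
    exact hex x hx h1 h2

theorem ev_eq_zero [DecidableEq H] {L : Row s H} (hL : isZero L = true) (j : Fin s) : ev L j = 0 := by
  ext h
  rw [ev_coeff, total_eq_zero hL]
  rfl

/-- the test whether two sparse matrices are equal -/
def eqM [DecidableEq H] (A B : Fin r → Row s H) : Bool :=
  (List.finRange r).all fun i => isZero (A i ++ negR (B i))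

theorem toM_eq [DecidableEq H] {A B : Fin r → Row s H} (h : eqM A B = true) : toM A = toM B := by
  ext1 i j
  unfold eqM at h
  rw [List.all_eq_true] at h
  have h1 := ev_eq_zero (h i (List.mem_finRange i)) j
  rw [ev_append, ev_negR, add_neg_eq_zero] at h1
  exact h1

variable {H' : Type}

/-- the image of a sparse row under a group homomorphism -/
def mapR (f : H → H') (L : Row s H) : Row s H' := L.map fun x => (x.1, x.2.1, f x.2.2)

theorem ev_mapR [Group H] [Group H'] (f : H →* H') (L : Row s H) (j : Fin s) :
    ev (mapR f L) j = MonoidAlgebra.mapDomainRingHom ℤ f (ev L j) := by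
  induction L with
  | nil => simp [mapR, ev]
  | cons x L ih =>
    have h1 : mapR f (x :: L) = (x.1, x.2.1, f x.2.2) :: mapR f L := rfl
    rw [h1, ev_cons, ev_cons, ih, map_add]
    congr 1
    split_ifs
    · simp
    · simp

theorem toM_map [Group H] [Group H'] (f : H →* H') (A : Fin r → Row s H) :
    (toM A).map (MonoidAlgebra.mapDomainRingHom ℤ f) = toM (fun i => mapR f (A i)) := by
  ext1 i j
  exact (ev_mapR f (A i) j).symm

end Pool.Agent.Helper993.SP
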