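import Pool.Agent.Helper993.DeltaDef
import Pool.Agent.Helper993.Sparse
import Pool.Agent.Helper993.HeisDet

noncomputable section

namespace Pool.Agent.Helper993.Cpx

open Pool.Agent.Helper993.HeisDet Pool.Agent.Helper993.SP Pool.Agent.Helper993.Delta

/-- the numbers of simplices -/
def numF : ℕ → ℕ
  | 0 => 1
  | 1 => 9
  | 2 => 30
  | 3 => 22
  | _ + 4 => 0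

/-- the faces `d_0`, `d_1`, `d_2` of the triangles -/
def triT : List (List ℕ) :=
  [[0, 0, 0], [1, 1, 0], [0, 1, 1], [2, 2, 0], [0, 2, 2], [2, 5, 1], [1, 4, 2], [4, 5, 3],
   [3, 5, 4], [3, 6, 1], [1, 6, 3], [3, 7, 2], [2, 7, 3], [3, 8, 5], [5, 8, 3], [7, 8, 1],
   [2, 8, 6], [6, 5, 2], [1, 5, 7], [0, 0, 0], [0, 0, 0], [0, 0, 0], [0, 0, 0], [0, 0, 0],
   [0, 1, 1], [1, 1, 0], [0, 0, 0], [0, 2, 2], [2, 2, 0], [0, 0, 0]]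

/-- the faces `d_0`, `d_1`, `d_2`, `d_3` of the tetrahedra -/
def tetT (b : Bool) : List (List ℕ) :=
  [[0, 2, 2, 2], [1, 1, 1, 0], [0, 4, 4, 4], [3, 3, 3, 0], [11, 13, 15, 5], [12, 16, 15, 9],
   [5, 16, 14, 10], [9, 8, 17, 6], [10, 18, 17, 11], [6, 18, 7, 12], [8, 13, 14, 7],
   [19, 20, 19, 0], [20, 21, 20, 0], [21, 22, 21, 0], [22, 23, 20, 0], [23, 24, 2, 2],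
   [24, 2, 1, 25], [25, 1, 1, 26], [26, 27, 4, 4], [27, 4, 3, 28], [28, 3, 3, 29],
   if b then [19, 29, 26, 0] else [19, 0, 0, 0]]

/-- the face maps -/
def faceF (b : Bool) : ∀ n, Fin (n + 2) → Fin (numF (n + 1)) → Fin (numF n)
  | 0, _, _ => (0 : Fin 1)
  | 1, i, σ => (Fin.ofNat 9 ((triT.getD σ []).getD i 0) : Fin 9)
  | 2, i, σ => (Fin.ofNat 30 (((tetT b).getD σ []).getD i 0) : Fin 30)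
  | _ + 3, _, σ => σ.elim0

theorem faceF_one (b : Bool) : ∀ i j : Fin 3, i ≤ j → ∀ σ : Fin 22,
    faceF b 1 i (faceF b 2 j.succ σ) = faceF b 1 j (faceF b 2 i.castSucc σ) := by
  revert b
  decide +kernel

theorem faceF_faceF (b : Bool) : ∀ n (i j : Fin (n + 2)), i ≤ j → ∀ σ : Fin (numF (n + 2)),
    faceF b n i (faceF b (n + 1) j.succ σ) = faceF b n j (faceF b (n + 1) i.castSucc σ)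
  | 0, _, _, _, _ => rfl
  | 1, i, j, hij, σ => faceF_one b i j hij σ
  | _ + 2, _, _, _, σ => σ.elim0

theorem numF_eq_zero : ∀ n, 3 < n → numF n = 0
  | 0, h | 1, h | 2, h | 3, h => by omega
  | _ + 4, _ => rfl

/-- the two complexes -/
def cpx (b : Bool) : OneVertex where
  num := numF
  num_zero := rfl
  dim := 3
  num_eq_zero := numF_eq_zero
  face := faceF b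
  face_face := faceF_faceF b

instance : DecidableEq (Heis ℤ) := fun x y =>
  decidable_of_iff (x.a = y.a ∧ x.b = y.b ∧ x.c = y.c)
    ⟨fun h => Heis.ext h.1 h.2.1 h.2.2, fun h => by rw [h]; exact ⟨rfl, rfl, rfl⟩⟩

/-- the labels of the edges in the Heisenberg group -/
def labH (e : Fin 9) : Heis ℤ :=
  ([⟨0, 0, 0⟩, ⟨1, 0, 0⟩, ⟨0, 1, 0⟩, ⟨0, 0, 1⟩, ⟨1, 1, 0⟩, ⟨1, 1, 1⟩, ⟨1, 0, 1⟩, ⟨0, 1, 1⟩,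
    ⟨1, 1, 2⟩] : List (Heis ℤ)).getD e 1

/-- the rows of the boundary matrices of a complex with labels in a group -/
def bdR (X : OneVertex) {H : Type} [Group H] (lab : Fin (X.num 1) → H) (n : ℕ)
    (σ : Fin (X.num (n + 1))) : Row (X.num n) H :=
  (List.finRange (n + 2)).map fun i =>
    (X.face n i σ, (-1) ^ (i : ℕ), if i = 0 then lab (X.edge n σ) else 1)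

/-- rows of the homotopy in degree one -/
def H1L : List (Row 30 (Heis ℤ)) :=
  [[(0, -1, ⟨0, 0, 0⟩), (0, 1, ⟨0, 0, 1⟩)],
   [(9, -1, ⟨0, 0, 0⟩), (10, 1, ⟨0, 0, 0⟩)],
   [(11, -1, ⟨0, 0, 0⟩), (12, 1, ⟨0, 0, 0⟩)],
   [],
   [(7, 1, ⟨0, 0, 0⟩), (8, -1, ⟨0, 0, 0⟩)],
   [(13, -1, ⟨0, 0, 0⟩), (14, 1, ⟨0, 0, 0⟩)],
   [(9, -1, ⟨0, 0, 1⟩), (10, 1, ⟨0, 0, 0⟩)],
   [(11, -1, ⟨0, 0, 1⟩), (12, 1, ⟨0, 0, 0⟩)],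
   [(13, -1, ⟨0, 0, 1⟩), (14, 1, ⟨0, 0, 0⟩)]]

/-- rows of the homotopy in degree two -/
def H2L : List (Row 22 (Heis ℤ)) :=
  [[],
   [(1, -1, ⟨0, 0, 0⟩), (1, 1, ⟨0, 0, 1⟩)],
   [(0, 1, ⟨0, 0, 0⟩), (0, -1, ⟨0, 0, 1⟩)],
   [(3, -1, ⟨0, 0, 0⟩), (3, 1, ⟨0, 0, 1⟩)],
   [(2, 1, ⟨0, 0, 0⟩), (2, -1, ⟨0, 0, 1⟩)],
   [(4, 1, ⟨0, 0, 0⟩), (5, -1, ⟨0, 0, 0⟩), (6, 1, ⟨0, 0, 0⟩)],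
   [(7, 1, ⟨0, 0, 0⟩), (8, -1, ⟨0, 0, 0⟩), (9, 1, ⟨0, 0, 0⟩)],
   [(10, 1, ⟨0, 0, 0⟩)],
   [(10, 1, ⟨0, 0, 0⟩)],
   [],
   [],
   [],
   [],
   [],
   [],
   [(4, 1, ⟨0, 0, 1⟩), (5, -1, ⟨0, 0, 0⟩), (6, 1, ⟨0, 0, 0⟩)],
   [(4, 1, ⟨0, 0, 1⟩), (5, -1, ⟨0, 0, 1⟩), (6, 1, ⟨0, 0, 0⟩)],
   [(7, 1, ⟨0, 0, 1⟩), (8, -1, ⟨0, 0, 0⟩), (9, 1, ⟨0, 0, 0⟩), (10, 1, ⟨0, 0, 0⟩)],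
   [(7, 1, ⟨0, 0, 1⟩), (8, -1, ⟨0, 0, 1⟩), (9, 1, ⟨0, 0, 0⟩), (10, 1, ⟨0, 0, 0⟩)],
   [(21, -1, ⟨0, 0, 0⟩), (21, 1, ⟨0, 0, 1⟩)],
   [(11, 1, ⟨0, 0, 0⟩), (11, -1, ⟨0, 0, 1⟩), (21, -2, ⟨0, 0, 0⟩), (21, 2, ⟨0, 0, 1⟩)],
   [(11, 2, ⟨0, 0, 0⟩), (11, -2, ⟨0, 0, 1⟩), (12, 1, ⟨0, 0, 0⟩), (12, -1, ⟨0, 0, 1⟩), (21, -4, ⟨0, 0, 0⟩), (21, 4, ⟨0, 0, 1⟩)],
   [(11, 4, ⟨0, 0, 0⟩), (11, -4, ⟨0, 0, 1⟩), (12, 2, ⟨0, 0, 0⟩), (12, -2, ⟨0, 0, 1⟩), (13, 1, ⟨0, 0, 0⟩), (13, -1, ⟨0, 0, 1⟩), (21, -8, ⟨0, 0, 0⟩), (21, 8, ⟨0, 0, 1⟩)],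
   [(11, 5, ⟨0, 0, 0⟩), (11, -5, ⟨0, 0, 1⟩), (12, 2, ⟨0, 0, 0⟩), (12, -2, ⟨0, 0, 1⟩), (13, 1, ⟨0, 0, 0⟩), (13, -1, ⟨0, 0, 1⟩), (14, 1, ⟨0, 0, 0⟩), (14, -1, ⟨0, 0, 1⟩), (21, -10, ⟨0, 0, 0⟩), (21, 10, ⟨0, 0, 1⟩)],
   [(11, 5, ⟨1, 0, 0⟩), (11, -5, ⟨1, 0, 1⟩), (12, 2, ⟨1, 0, 0⟩), (12, -2, ⟨1, 0, 1⟩), (13, 1, ⟨1, 0, 0⟩), (13, -1, ⟨1, 0, 1⟩), (14, 1, ⟨1, 0, 0⟩), (14, -1, ⟨1, 0, 1⟩), (15, 1, ⟨0, 0, 0⟩), (15, -1, ⟨0, 0, 1⟩), (21, -10, ⟨1, 0, 0⟩), (21, 10, ⟨1, 0, 1⟩)],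
   [(0, -1, ⟨0, 0, 0⟩), (0, 1, ⟨0, 0, 1⟩), (1, -1, ⟨0, 0, 0⟩), (1, 1, ⟨0, 0, 1⟩), (11, 5, ⟨1, 0, 0⟩), (11, -5, ⟨1, 0, 1⟩), (12, 2, ⟨1, 0, 0⟩), (12, -2, ⟨1, 0, 1⟩), (13, 1, ⟨1, 0, 0⟩), (13, -1, ⟨1, 0, 1⟩), (14, 1, ⟨1, 0, 0⟩), (14, -1, ⟨1, 0, 1⟩), (15, 1, ⟨0, 0, 0⟩), (15, -1, ⟨0, 0, 1⟩), (16, 1, ⟨0, 0, 0⟩), (16, -1, ⟨0, 0, 1⟩), (21, -10, ⟨1, 0, 0⟩), (21, 10, ⟨1, 0, 1⟩)],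
   [(0, -1, ⟨0, 0, 0⟩), (0, 1, ⟨0, 0, 1⟩), (1, -1, ⟨0, 0, 0⟩), (1, 1, ⟨0, 0, 1⟩), (11, 5, ⟨1, 0, 0⟩), (11, -5, ⟨1, 0, 1⟩), (12, 2, ⟨1, 0, 0⟩), (12, -2, ⟨1, 0, 1⟩), (13, 1, ⟨1, 0, 0⟩), (13, -1, ⟨1, 0, 1⟩), (14, 1, ⟨1, 0, 0⟩), (14, -1, ⟨1, 0, 1⟩), (15, 1, ⟨0, 0, 0⟩), (15, -1, ⟨0, 0, 1⟩), (16, 1, ⟨0, 0, 0⟩), (16, -1, ⟨0, 0, 1⟩), (17, 1, ⟨0, 0, 0⟩), (17, -1, ⟨0, 0, 1⟩), (21, -10, ⟨1, 0, 0⟩), (21, 10, ⟨1, 0, 1⟩)],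
   [(0, -1, ⟨0, 1, 0⟩), (0, 1, ⟨0, 1, 1⟩), (1, -1, ⟨0, 1, 0⟩), (1, 1, ⟨0, 1, 1⟩), (11, 5, ⟨1, 1, 0⟩), (11, -5, ⟨1, 1, 1⟩), (12, 2, ⟨1, 1, 0⟩), (12, -2, ⟨1, 1, 1⟩), (13, 1, ⟨1, 1, 0⟩), (13, -1, ⟨1, 1, 1⟩), (14, 1, ⟨1, 1, 0⟩), (14, -1, ⟨1, 1, 1⟩), (15, 1, ⟨0, 1, 0⟩), (15, -1, ⟨0, 1, 1⟩), (16, 1, ⟨0, 1, 0⟩), (16, -1, ⟨0, 1, 1⟩), (17, 1, ⟨0, 1, 0⟩), (17, -1, ⟨0, 1, 1⟩), (18, 1, ⟨0, 0, 0⟩), (18, -1, ⟨0, 0, 1⟩), (21, -10, ⟨1, 1, 0⟩), (21, 10, ⟨1, 1, 1⟩)],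
   [(0, -1, ⟨0, 1, 0⟩), (0, 1, ⟨0, 1, 1⟩), (1, -1, ⟨0, 1, 0⟩), (1, 1, ⟨0, 1, 1⟩), (2, -1, ⟨0, 0, 0⟩), (2, 1, ⟨0, 0, 1⟩), (3, -1, ⟨0, 0, 0⟩), (3, 1, ⟨0, 0, 1⟩), (11, 5, ⟨1, 1, 0⟩), (11, -5, ⟨1, 1, 1⟩), (12, 2, ⟨1, 1, 0⟩), (12, -2, ⟨1, 1, 1⟩), (13, 1, ⟨1, 1, 0⟩), (13, -1, ⟨1, 1, 1⟩), (14, 1, ⟨1, 1, 0⟩), (14, -1, ⟨1, 1, 1⟩), (15, 1, ⟨0, 1, 0⟩), (15, -1, ⟨0, 1, 1⟩), (16, 1, ⟨0, 1, 0⟩), (16, -1, ⟨0, 1, 1⟩), (17, 1, ⟨0, 1, 0⟩), (17, -1, ⟨0, 1, 1⟩), (18, 1, ⟨0, 0, 0⟩), (18, -1, ⟨0, 0, 1⟩), (19, 1, ⟨0, 0, 0⟩), (19, -1, ⟨0, 0, 1⟩), (21, -10, ⟨1, 1, 0⟩), (21, 10, ⟨1, 1, 1⟩)],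
   [(0, -1, ⟨0, 1, 0⟩), (0, 1, ⟨0, 1, 1⟩), (1, -1, ⟨0, 1, 0⟩), (1, 1, ⟨0, 1, 1⟩), (2, -1, ⟨0, 0, 0⟩), (2, 1, ⟨0, 0, 1⟩), (3, -1, ⟨0, 0, 0⟩), (3, 1, ⟨0, 0, 1⟩), (11, 5, ⟨1, 1, 0⟩), (11, -5, ⟨1, 1, 1⟩), (12, 2, ⟨1, 1, 0⟩), (12, -2, ⟨1, 1, 1⟩), (13, 1, ⟨1, 1, 0⟩), (13, -1, ⟨1, 1, 1⟩), (14, 1, ⟨1, 1, 0⟩), (14, -1, ⟨1, 1, 1⟩), (15, 1, ⟨0, 1, 0⟩), (15, -1, ⟨0, 1, 1⟩), (16, 1, ⟨0, 1, 0⟩), (16, -1, ⟨0, 1, 1⟩), (17, 1, ⟨0, 1, 0⟩), (17, -1, ⟨0, 1, 1⟩), (18, 1, ⟨0, 0, 0⟩), (18, -1, ⟨0, 0, 1⟩), (19, 1, ⟨0, 0, 0⟩), (19, -1, ⟨0, 0, 1⟩), (20, 1, ⟨0, 0, 0⟩), (20, -1, ⟨0, 0, 1⟩), (21, -10, ⟨1, 1, 0⟩), (21, 10, ⟨1, 1, 1⟩)]]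

/-- rows of the comparison matrix -/
def TL : List (Row 22 (Heis ℤ)) :=
  [[(0, 1, ⟨0, 0, 0⟩)],
   [(1, 1, ⟨0, 0, 0⟩)],
   [(2, 1, ⟨0, 0, 0⟩)],
   [(3, 1, ⟨0, 0, 0⟩)],
   [(4, 1, ⟨0, 0, 0⟩)],
   [(5, 1, ⟨0, 0, 0⟩)],
   [(6, 1, ⟨0, 0, 0⟩)],
   [(7, 1, ⟨0, 0, 0⟩)],
   [(8, 1, ⟨0, 0, 0⟩)],
   [(9, 1, ⟨0, 0, 0⟩)],
   [(10, 1, ⟨0, 0, 0⟩)],
   [(11, 1, ⟨0, 0, 0⟩)],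
   [(12, 1, ⟨0, 0, 0⟩)],
   [(13, 1, ⟨0, 0, 0⟩)],
   [(14, 1, ⟨0, 0, 0⟩)],
   [(15, 1, ⟨0, 0, 0⟩)],
   [(16, 1, ⟨0, 0, 0⟩)],
   [(17, 1, ⟨0, 0, 0⟩)],
   [(18, 1, ⟨0, 0, 0⟩)],
   [(19, 1, ⟨0, 0, 0⟩)],
   [(20, 1, ⟨0, 0, 0⟩)],
   [(0, 1, ⟨0, 0, 0⟩), (0, -1, ⟨0, 1, 0⟩), (1, 1, ⟨0, 0, 0⟩), (1, -1, ⟨0, 1, 0⟩), (2, -1, ⟨0, 0, 0⟩), (3, -1, ⟨0, 0, 0⟩), (11, -5, ⟨1, 0, 0⟩), (11, 5, ⟨1, 1, 0⟩), (12, -2, ⟨1, 0, 0⟩), (12, 2, ⟨1, 1, 0⟩), (13, -1, ⟨1, 0, 0⟩), (13, 1, ⟨1, 1, 0⟩), (14, -1, ⟨1, 0, 0⟩), (14, 1, ⟨1, 1, 0⟩), (15, -1, ⟨0, 0, 0⟩), (15, 1, ⟨0, 1, 0⟩), (16, -1, ⟨0, 0, 0⟩), (16, 1, ⟨0, 1, 0⟩), (17, -1, ⟨0, 0, 0⟩), (17, 1, ⟨0, 1, 0⟩), (18, 1, ⟨0, 0, 0⟩), (19, 1, ⟨0, 0, 0⟩), (20, 1, ⟨0, 0, 0⟩), (21, 1, ⟨0, 0, 0⟩), (21,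 10, ⟨1, 0, 0⟩), (21, -10, ⟨1, 1, 0⟩)]]

/-- entries of the cocycle -/
def cL : List (Row 1 (Heis ℤ)) :=
  [[],
   [],
   [],
   [],
   [],
   [],
   [],
   [],
   [],
   [],
   [],
   [],
   [],
   [],
   [],
   [],
   [],
   [],
   [],
   [(0, 1, ⟨0, 0, 0⟩)],
   [(0, 2, ⟨0, 0, 0⟩)],
   [(0, 4, ⟨0, 0, 0⟩)],
   [(0, 8, ⟨0, 0, 0⟩)],
   [(0, 10, ⟨0, 0, 0⟩)],
   [(0, 10, ⟨1, 0, 0⟩)],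
   [(0, 10, ⟨1, 0, 0⟩)],
   [(0, 10, ⟨1, 0, 0⟩)],
   [(0, 10, ⟨1, 1, 0⟩)],
   [(0, 10, ⟨1, 1, 0⟩)],
   [(0, 10, ⟨1, 1, 0⟩)]]

/-- rows of the homotopy in degree zero -/
def h0 (_ : Fin 1) : Row 9 (Heis ℤ) := [(3, 1, 1)]

/-- rows of the homotopy in degree one -/
def h1 (e : Fin 9) : Row 30 (Heis ℤ) := H1L.getD e []

/-- rows of the homotopy in degree two -/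
def h2 (σ : Fin 30) : Row 22 (Heis ℤ) := H2L.getD σ []

/-- rows of the comparison matrix -/
def tM (σ : Fin 22) : Row 22 (Heis ℤ) := TL.getD σ []

/-- the cocycle -/
def cM (σ : Fin 30) : Row 1 (Heis ℤ) := cL.getD σ []

/-- the unit vector of the last tetrahedron -/
def eM (σ : Fin 22) : Row 1 (Heis ℤ) := if σ = 21 then [(0, 1, 1)] else []

/-- the central element `z - 1` -/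
def zM (r : ℕ) (i : Fin r) : Row r (Heis ℤ) := [(i, 1, ⟨0, 0, 1⟩), (i, -1, 1)]

/-- rows of the first boundary matrix -/
def d1 (b : Bool) : Fin 9 → Row 1 (Heis ℤ) := bdR (cpx b) labH 0

/-- rows of the second boundary matrix -/
def d2 (b : Bool) : Fin 30 → Row 9 (Heis ℤ) := bdR (cpx b) labH 1

/-- rows of the third boundary matrix -/
def d3 (b : Bool) : Fin 22 → Row 30 (Heis ℤ) := bdR (cpx b) labH 2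

theorem check0 : ∀ b, eqM (fun i => mulR (h0 i) (d1 b)) (zM 1) = true := by
  decide +kernel

theorem check1 : ∀ b, eqM (fun i => mulR (d1 b i) h0 ++ mulR (h1 i) (d2 b)) (zM 9) = true := by
  decide +kernel

theorem check2 : ∀ b, eqM (fun i => mulR (d2 b i) h1 ++ mulR (h2 i) (d3 false)) (zM 30) = true := by
  decide +kernel

theorem check3 : eqM (fun i => mulR (d3 false i) h2) (zM 22) = true := by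
  decide +kernel

theorem check4 : eqM (fun i => mulR (tM i) (d3 false)) (d3 true) = true := by
  decide +kernel

theorem check5 : eqM (fun i => mulR (d3 false i) cM) eM = true := by
  decide +kernel

theorem check6 : eqM (fun i => mulR (d2 false i) (d1 false)) (fun _ => []) = true := by
  decide +kernel

theorem check7 : eqM (fun i => mulR (d3 false i) (d2 false)) (fun _ => []) = true := by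
  decide +kernel

end Pool.Agent.Helper993.Cpx
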