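import Pool.Agent.Helper993.TorsMat
import Pool.Agent.Helper993.Cpx

noncomputable section

namespace Pool.Agent.Helper993.Cov

open Pool.Agent.Helper993.HeisDet Pool.Agent.Helper993.SP Pool.Agent.Helper993.Delta
  Pool.Agent.Helper993.Tors Pool.Agent.Helper993.Cpx

section
variable {A Q : Type}

/-- chains as row vectors over the group ring -/
def EE (θ : A ≃ Q) (c : ℕ) : (A × Fin c →₀ ℤ) ≃ₗ[ℤ] (Fin c → MonoidAlgebra ℤ Q) :=
  (Finsupp.domLCongr ((Equiv.prodComm A (Fin c)).trans (Equiv.prodCongr (Equiv.refl _) θ))).trans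
    ((Finsupp.curryLinearEquiv ℤ).trans
      ((Finsupp.linearEquivFunOnFinite ℤ (Q →₀ ℤ) (Fin c)).trans
        (LinearEquiv.piCongrRight fun _ => (MonoidAlgebra.coeffLinearEquiv ℤ).symm)))

theorem EE_apply (θ : A ≃ Q) (c : ℕ) (f : A × Fin c →₀ ℤ) (σ : Fin c) (q : Q) :
    (EE θ c f σ).coeff q = f (θ.symm q, σ) := by
  rfl

theorem EE_single (θ : A ≃ Q) (c : ℕ) (g : A) (σ : Fin c) :
    EE θ c (Finsupp.single (g, σ) 1) = Pi.single σ (MonoidAlgebra.single (θ g) 1) := by
  classical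
  funext τ
  apply MonoidAlgebra.coeff_injective
  ext q
  rw [EE_apply]
  by_cases h1 : σ = τ
  · subst h1
    rw [Pi.single_eq_same, MonoidAlgebra.coeff_single, Finsupp.single_apply, Finsupp.single_apply]
    by_cases h2 : θ g = q
    · subst h2
      simp
    · have h3 : g ≠ θ.symm q := by
        rintro rfl
        exact h2 (θ.apply_symm_apply q)
      simp [h2, h3]
  · rw [Pi.single_eq_of_ne (Ne.symm h1), Finsupp.single_apply, if_neg]
    · rfl
    · intro h
      exact h1 (congrArg Prod.snd h)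

end

/-! ### the chain complex of a covering -/

section
variable (X : OneVertex) (N : Subgroup X.pi1) [N.Normal] {Q : Type} [Group Q]
  (θ : (X.pi1 ⧸ N) ≃* Q)

/-- the label of an edge in the quotient -/
def labQ (e : Fin (X.num 1)) : Q := θ (QuotientGroup.mk (X.cls e))

/-- the boundary matrix over the quotient -/
def DQ (n : ℕ) : Matrix (Fin (X.num (n + 1))) (Fin (X.num n)) (MonoidAlgebra ℤ Q) :=
  toM (bdR X (labQ X N θ) n)

theorem DQ_apply (n : ℕ) (σ : Fin (X.num (n + 1))) (τ : Fin (X.num n)) :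
    DQ X N θ n σ τ = ∑ i : Fin (n + 2), if X.face n i σ = τ then
      MonoidAlgebra.single (if i = 0 then labQ X N θ (X.edge n σ) else 1) ((-1 : ℤ) ^ (i : ℕ))
      else 0 := by
  unfold DQ toM ev bdR
  rw [Matrix.of_apply, List.map_map, Fin.sum_univ_def]
  rfl

theorem boundary_single (n : ℕ) (p : (X.pi1 ⧸ N) × Fin (X.num (n + 1))) :
    (X.cover N).boundary n (Finsupp.single p 1)
      = ∑ i : Fin (n + 2), ((-1 : ℤ) ^ (i : ℕ)) • Finsupp.single (X.coverFace N n i p) 1 := by
  unfold DeltaSet.boundary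
  rw [LinearMap.sum_apply]
  apply Finset.sum_congr rfl
  intro i _
  rw [LinearMap.smul_apply]
  congr 1
  exact Finsupp.mapDomain_single

theorem EE_boundary_single (n : ℕ) (p : (X.pi1 ⧸ N) × Fin (X.num (n + 1))) :
    EE θ.toEquiv (X.num n) ((X.cover N).boundary n (Finsupp.single p 1))
      = vm (DQ X N θ n) (EE θ.toEquiv (X.num (n + 1)) (Finsupp.single p 1)) := by
  obtain ⟨g, σ⟩ := p
  rw [boundary_single, EE_single, map_sum, vm_apply, Matrix.single_vecMul]
  funext τ
  rw [Finset.sum_apply]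
  change _ = MonoidAlgebra.single (θ g) 1 * DQ X N θ n σ τ
  rw [DQ_apply, Finset.mul_sum]
  apply Finset.sum_congr rfl
  intro i _
  rw [map_smul, Pi.smul_apply]
  unfold OneVertex.coverFace
  rw [EE_single]
  by_cases h : X.face n i σ = τ
  · rw [if_pos h, ← h, Pi.single_eq_same, MonoidAlgebra.single_mul_single,
      MonoidAlgebra.smul_single, smul_eq_mul, mul_one, one_mul]
    congr 1
    split_ifs
    · exact map_mul θ _ _
    · rw [mul_one]
      rfl
  · rw [if_neg h, mul_zero, Pi.single_eq_of_ne (Ne.symm h), smul_zero]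

theorem EE_boundary (n : ℕ) (f : (X.pi1 ⧸ N) × Fin (X.num (n + 1)) →₀ ℤ) :
    EE θ.toEquiv (X.num n) ((X.cover N).boundary n f)
      = vm (DQ X N θ n) (EE θ.toEquiv (X.num (n + 1)) f) := by
  have h : (EE θ.toEquiv (X.num n)).toLinearMap ∘ₗ (X.cover N).boundary n
      = vm (DQ X N θ n) ∘ₗ (EE θ.toEquiv (X.num (n + 1))).toLinearMap := by
    apply Finsupp.lhom_ext'
    intro p
    apply LinearMap.ext_ring
    exact EE_boundary_single X N θ n p
  exact congrArg (fun F => F f) h

/-- the cycles over the quotient -/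
def zQ : ∀ n, Submodule ℤ (Fin (X.num n) → MonoidAlgebra ℤ Q)
  | 0 => ⊤
  | n + 1 => LinearMap.ker (vm (DQ X N θ n))

theorem map_cycles : ∀ n, ((X.cover N).cycles n).map (EE θ.toEquiv (X.num n)).toLinearMap
    = zQ X N θ n
  | 0 => by
    change Submodule.map (EE θ.toEquiv (X.num 0)).toLinearMap ⊤ = ⊤
    rw [Submodule.map_top]
    exact LinearEquiv.range _
  | n + 1 => by
    ext x
    obtain ⟨f, rfl⟩ := (EE θ.toEquiv (X.num (n + 1))).surjective x
    rw [mem_map_iff]
    change (X.cover N).boundary n f = 0 ↔ vm (DQ X N θ n) (EE θ.toEquiv (X.num (n + 1)) f) = 0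
    rw [← EE_boundary]
    exact (LinearEquiv.map_eq_zero_iff _).symm

theorem map_boundaries (n : ℕ) : ((X.cover N).boundaries n).map (EE θ.toEquiv (X.num n)).toLinearMap
    = LinearMap.range (vm (DQ X N θ n)) := by
  ext x
  constructor
  · rintro ⟨_, ⟨f, rfl⟩, rfl⟩
    exact ⟨EE θ.toEquiv (X.num (n + 1)) f, (EE_boundary X N θ n f).symm⟩
  · rintro ⟨w, rfl⟩
    obtain ⟨f, rfl⟩ := (EE θ.toEquiv (X.num (n + 1))).surjective w
    exact ⟨_, ⟨f, rfl⟩, EE_boundary X N θ n f⟩

theorem torsionOrder_eq (n : ℕ) : (X.cover N).torsionOrder n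
    = tO (zQ X N θ n) (LinearMap.range (vm (DQ X N θ n))) := by
  rw [← map_cycles, ← map_boundaries, tO_map]
  rfl

end

end Pool.Agent.Helper993.Cov
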