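import Pool.Agent.Helper993.FKDef

open scoped InnerProductSpace Topology CompactlySupported InnerProduct

noncomputable section

namespace Pool.Agent.Helper993.FK

open MeasureTheory Polynomial

section general
variable {H : Type} [NormedAddCommGroup H] [InnerProductSpace ℂ H] [CompleteSpace H]

omit [CompleteSpace H] in
theorem aeval_apply_eigen (T : H →L[ℂ] H) (P : ℝ[X]) (v : H) (c : ℝ) (hv : T v = (c : ℂ) • v) :
    (aeval T P) v = ((P.eval c : ℝ) : ℂ) • v := by
  induction P using Polynomial.induction_on' with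
  | add p q hp hq => simp [map_add, hp, hq, add_smul]
  | monomial n a =>
    have hpow : ∀ n : ℕ, (T ^ n) v = ((c : ℂ) ^ n) • v := by
      intro n
      induction n with
      | zero => simp
      | succ n ih =>
        rw [pow_succ', mul_apply_eq_comp, ih, map_smul, hv, smul_smul, pow_succ]
    rw [aeval_monomial, mul_apply_eq_comp, hpow, eval_monomial]
    simp only [Algebra.algebraMap_eq_smul_one]
    push_cast
    rw [mul_smul]
    rfl

omit [CompleteSpace H] in
theorem commute_aeval (T V : H →L[ℂ] H) (h : Commute T V) (P : ℝ[X]) :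
    Commute (aeval T P) V := by
  induction P using Polynomial.induction_on' with
  | add p q hp hq => rw [map_add]; exact hp.add_left hq
  | monomial n a =>
    rw [aeval_monomial]
    exact Commute.mul_left (Algebra.commutes a V) (h.pow_left n)

variable [FiniteDimensional ℂ H]

omit [CompleteSpace H] in
theorem spectrum_subset (T : H →L[ℂ] H) (hT : (T : H →ₗ[ℂ] H).IsSymmetric) [Nontrivial H] :
    spectrum ℝ T ⊆ Set.range (hT.eigenvalues rfl) := by
  intro x hx
  classical
  set lam := hT.eigenvalues rfl with hlam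
  set p : ℝ[X] := ∏ μ ∈ Finset.univ.image lam, (X - C μ) with hp
  have h0 : aeval T p = 0 := by
    have : ((aeval T p : H →L[ℂ] H) : H →ₗ[ℂ] H) = 0 := by
      apply (hT.eigenvectorBasis rfl).toBasis.ext
      intro i
      rw [OrthonormalBasis.coe_toBasis]
      have h1 : T (hT.eigenvectorBasis rfl i) = ((lam i : ℝ) : ℂ) • hT.eigenvectorBasis rfl i :=
        hT.apply_eigenvectorBasis rfl i
      have h2 := aeval_apply_eigen T p _ _ h1
      have h3 : p.eval (lam i) = 0 := by
        rw [hp, eval_prod]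
        apply Finset.prod_eq_zero (Finset.mem_image_of_mem lam (Finset.mem_univ i))
        simp
      rw [h3] at h2
      simpa using h2
    exact ContinuousLinearMap.coe_injective this
  have h1 := spectrum.subset_polynomial_aeval T p ⟨x, hx, rfl⟩
  rw [h0] at h1
  have h2 : p.eval x = 0 := by
    rw [spectrum.zero_eq] at h1
    simpa using h1
  rw [hp, eval_prod, Finset.prod_eq_zero_iff] at h2
  obtain ⟨μ, hμ, h3⟩ := h2
  simp only [Finset.mem_image, Finset.mem_univ, true_and] at hμ
  obtain ⟨i, rfl⟩ := hμ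
  refine ⟨i, ?_⟩
  simp at h3
  linarith

theorem cfc_eq_aeval (T : H →L[ℂ] H) (hT : (T : H →ₗ[ℂ] H).IsSymmetric) [Nontrivial H]
    (h : ℝ → ℝ) : ∃ P : ℝ[X], (∀ i, P.eval (hT.eigenvalues rfl i) = h (hT.eigenvalues rfl i)) ∧
      cfc h T = aeval T P := by
  classical
  set lam := hT.eigenvalues rfl with hlam
  set S : Finset ℝ := Finset.univ.image lam
  refine ⟨Lagrange.interpolate S id h, ?_, ?_⟩
  · intro i
    exact Lagrange.eval_interpolate_at_node (v := id) h (Set.injOn_id _)
      (Finset.mem_image_of_mem lam (Finset.mem_univ i))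
  · have hsa : IsSelfAdjoint T := by
      rw [ContinuousLinearMap.isSelfAdjoint_iff_isSymmetric]; exact hT
    rw [← cfc_polynomial (R := ℝ) (p := IsSelfAdjoint) (Lagrange.interpolate S id h) T hsa]
    apply cfc_congr
    intro x hx
    obtain ⟨i, rfl⟩ := spectrum_subset T hT hx
    exact (Lagrange.eval_interpolate_at_node (v := id) h (Set.injOn_id _)
      (Finset.mem_image_of_mem lam (Finset.mem_univ i))).symm

theorem traceFunctional_eq {Q : Type} [Fintype Q] (b : OrthonormalBasis Q ℂ H)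
    (T : H →L[ℂ] H) (hT : (T : H →ₗ[ℂ] H).IsSymmetric) (e : H)
    (U : Q → H →L[ℂ] H) (hU : ∀ q, U q e = b q) (hUi : ∀ q x y, ⟪U q x, U q y⟫_ℂ = ⟪x, y⟫_ℂ)
    (hUT : ∀ q, Commute T (U q)) [Nontrivial H] [Nonempty Q] (h : C_c(ℝ, ℝ)) :
    traceFunctional (fun _ : Fin 1 => e) T h =
      ∑ i, (1 / (Fintype.card Q : ℝ)) * h (hT.eigenvalues rfl i) := by
  obtain ⟨P, hP1, hP2⟩ := cfc_eq_aeval T hT h
  have h1 : traceFunctional (fun _ : Fin 1 => e) T h = (⟪e, (aeval T P) e⟫_ℂ).re := by
    change ∑ i : Fin 1, (⟪e, cfc (h : ℝ → ℝ) T e⟫_ℂ).re = _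
    rw [hP2]
    simp
  have h2 : ∀ q, ⟪b q, (aeval T P) (b q)⟫_ℂ = ⟪e, (aeval T P) e⟫_ℂ := by
    intro q
    have hc : Commute (aeval T P) (U q) := commute_aeval T (U q) (hUT q) P
    rw [← hU q]
    have : (aeval T P) (U q e) = U q ((aeval T P) e) := by
      have := congrArg (fun (S : H →L[ℂ] H) => S e) hc.eq
      simpa using this
    rw [this, hUi]
  have h3 : ∑ q, ⟪b q, (aeval T P) (b q)⟫_ℂ
      = ∑ i, ((h (hT.eigenvalues rfl i) : ℝ) : ℂ) := by
    have t1 := LinearMap.trace_eq_sum_inner ((aeval T P : H →L[ℂ] H) : H →ₗ[ℂ] H) b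
    have t2 := LinearMap.trace_eq_sum_inner ((aeval T P : H →L[ℂ] H) : H →ₗ[ℂ] H)
      (hT.eigenvectorBasis rfl)
    have t3 := t1.symm.trans t2
    refine t3.trans ?_
    apply Finset.sum_congr rfl
    intro i _
    have h1 : T (hT.eigenvectorBasis rfl i)
      = ((hT.eigenvalues rfl i : ℝ) : ℂ) • hT.eigenvectorBasis rfl i :=
        hT.apply_eigenvectorBasis rfl i
    have h2 := aeval_apply_eigen T P _ _ h1
    rw [hP1] at h2
    rw [ContinuousLinearMap.coe_coe, h2, inner_smul_right]
    simp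
  have h4 : (Fintype.card Q : ℂ) * ⟪e, (aeval T P) e⟫_ℂ
      = ∑ i, ((h (hT.eigenvalues rfl i) : ℝ) : ℂ) := by
    rw [← h3]
    simp_rw [h2]
    simp
  have h5 := congrArg Complex.re h4
  rw [Complex.re_sum] at h5
  simp only [Complex.ofReal_re] at h5
  have h6 : ((Fintype.card Q : ℂ) * ⟪e, (aeval T P) e⟫_ℂ).re
      = (Fintype.card Q : ℝ) * (⟪e, (aeval T P) e⟫_ℂ).re := by
    simp
  rw [h6] at h5
  rw [h1, ← Finset.mul_sum, ← h5]
  have : (Fintype.card Q : ℝ) ≠ 0 := by
    exact_mod_cast Fintype.card_ne_zero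
  field_simp

/-- the finite atomic measure -/
def atomic {n : ℕ} (c : ℝ) (lam : Fin n → ℝ) : Measure ℝ :=
  ∑ i, (ENNReal.ofReal c) • Measure.dirac (lam i)

instance {n : ℕ} (c : ℝ) (lam : Fin n → ℝ) : IsFiniteMeasure (atomic c lam) := by
  unfold atomic
  constructor
  rw [Measure.finsetSum_apply]
  apply ENNReal.sum_lt_top.mpr
  intro i _
  simp

theorem integral_atomic {n : ℕ} {c : ℝ} (hc : 0 ≤ c) (lam : Fin n → ℝ) (f : ℝ → ℝ) :
    Integrable f (atomic c lam) ∧ ∫ x, f x ∂(atomic c lam) = ∑ i, c * f (lam i) := by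
  have h1 : ∀ i, Integrable f ((ENNReal.ofReal c) • Measure.dirac (lam i)) := by
    intro i
    apply Integrable.smul_measure _ ENNReal.ofReal_ne_top
    exact integrable_dirac (by simp)
  constructor
  · unfold atomic
    exact integrable_finsetSum_measure.mpr (fun i _ => h1 i)
  · unfold atomic
    rw [integral_finsetSum_measure (fun i _ => h1 i)]
    apply Finset.sum_congr rfl
    intro i _
    rw [integral_smul_measure, integral_dirac]
    simp [hc]

theorem spectralMeasure_eq {Q : Type} [Fintype Q] (b : OrthonormalBasis Q ℂ H)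
    (T : H →L[ℂ] H) (hT : (T : H →ₗ[ℂ] H).IsSymmetric) (e : H)
    (U : Q → H →L[ℂ] H) (hU : ∀ q, U q e = b q) (hUi : ∀ q x y, ⟪U q x, U q y⟫_ℂ = ⟪x, y⟫_ℂ)
    (hUT : ∀ q, Commute T (U q)) [Nontrivial H] [Nonempty Q] :
    spectralMeasure (fun _ : Fin 1 => e) T =
      atomic (1 / (Fintype.card Q : ℝ)) (hT.eigenvalues rfl) := by
  unfold spectralMeasure
  apply Measure.ext_of_integral_eq_on_compactlySupported
  intro f
  rw [RealRMK.integral_rieszMeasure, traceFunctional_eq b T hT e U hU hUi hUT]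
  exact ((integral_atomic (by positivity) _ f).2).symm

/-- log integral against an atomic measure with positive atoms -/
theorem log_atomic {n : ℕ} {c : ℝ} (hc : 0 ≤ c) (lam : Fin n → ℝ) (hpos : ∀ i, 0 < lam i) :
    IntegrableOn Real.log (Set.Ioi 0) (atomic c lam) ∧
      ∫ x in Set.Ioi (0 : ℝ), Real.log x ∂(atomic c lam) = ∑ i, c * Real.log (lam i) := by
  have h0 : (atomic c lam).restrict (Set.Ioi 0) = atomic c lam := by
    apply Measure.restrict_eq_self_of_ae_mem
    rw [ae_iff]
    unfold atomic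
    rw [Measure.finsetSum_apply]
    apply Finset.sum_eq_zero
    intro i _
    rw [Measure.smul_apply, Measure.dirac_apply]
    simp [hpos i]
  obtain ⟨h1, h2⟩ := integral_atomic hc lam Real.log
  constructor
  · rw [IntegrableOn, h0]; exact h1
  · rw [h0]; exact h2

theorem det_adjoint_comp {Q : Type} [Fintype Q] [DecidableEq Q] (b : OrthonormalBasis Q ℂ H)
    (f : H →L[ℂ] H) (M : Matrix Q Q ℂ) (hf : ∀ x, f (b x) = ∑ y, M x y • b y) :
    LinearMap.det (((ContinuousLinearMap.adjoint f) ∘L f : H →L[ℂ] H) : H →ₗ[ℂ] H)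
      = ((‖M.det‖ ^ 2 : ℝ) : ℂ) := by
  rw [← LinearMap.det_toMatrix b.toBasis]
  have hC : LinearMap.toMatrix b.toBasis b.toBasis
      (((ContinuousLinearMap.adjoint f) ∘L f : H →L[ℂ] H) : H →ₗ[ℂ] H)
      = (M.map (starRingEnd ℂ)) * M.transpose := by
    ext i j
    have h1 := LinearMap.toMatrixOrthonormal_apply_apply b
      (((ContinuousLinearMap.adjoint f) ∘L f : H →L[ℂ] H) : H →ₗ[ℂ] H) i j
    have h2 : LinearMap.toMatrix b.toBasis b.toBasis
      (((ContinuousLinearMap.adjoint f) ∘L f : H →L[ℂ] H) : H →ₗ[ℂ] H) i j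
      = LinearMap.toMatrixOrthonormal b
        (((ContinuousLinearMap.adjoint f) ∘L f : H →L[ℂ] H) : H →ₗ[ℂ] H) i j := rfl
    rw [h2, h1]
    rw [ContinuousLinearMap.coe_coe, ContinuousLinearMap.comp_apply,
      ContinuousLinearMap.adjoint_inner_right, hf, hf, sum_inner]
    rw [Matrix.mul_apply]
    apply Finset.sum_congr rfl
    intro y _
    rw [inner_smul_left, inner_sum]
    simp_rw [inner_smul_right]
    rw [Finset.sum_eq_single y]
    · simp
    · intro z _ hz
      rw [b.inner_eq_ite, if_neg (Ne.symm hz), mul_zero]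
    · simp
  rw [hC, Matrix.det_mul, Matrix.det_transpose]
  have h3 : (M.map (starRingEnd ℂ)).det = (starRingEnd ℂ) M.det := by
    rw [← RingHom.mapMatrix_apply, ← RingHom.map_det]
  rw [h3, Complex.conj_mul']
  push_cast
  rfl

theorem log_integral {Q : Type} [Group Q] [Fintype Q] [DecidableEq Q]
    (b : OrthonormalBasis Q ℂ H) (f : H →L[ℂ] H) (M : Matrix Q Q ℂ)
    (hf : ∀ x, f (b x) = ∑ y, M x y • b y) (hM : ∀ q x y, M (q * x) (q * y) = M x y)
    (hdet : M.det ≠ 0) :
    IntegrableOn Real.log (Set.Ioi 0)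
      (spectralMeasure (fun _ : Fin 1 => b 1) ((ContinuousLinearMap.adjoint f) ∘L f)) ∧
    ∫ x in Set.Ioi (0 : ℝ), Real.log x
      ∂(spectralMeasure (fun _ : Fin 1 => b 1) ((ContinuousLinearMap.adjoint f) ∘L f))
      = (1 / (Fintype.card Q : ℝ)) * (2 * Real.log ‖M.det‖) := by
  have : Nontrivial H := by
    refine ⟨b 1, 0, ?_⟩
    intro h
    have := b.orthonormal.1 1
    rw [h] at this
    simp at this
  set T := (ContinuousLinearMap.adjoint f) ∘L f with hTdef
  have hT : (T : H →ₗ[ℂ] H).IsSymmetric := by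
    intro x y
    simp only [hTdef, ContinuousLinearMap.coe_coe, ContinuousLinearMap.comp_apply]
    rw [ContinuousLinearMap.adjoint_inner_left, ContinuousLinearMap.adjoint_inner_right]
  let U : Q → H →L[ℂ] H := fun q =>
    ((b.equiv b (Equiv.mulLeft q)).toContinuousLinearEquiv : H →L[ℂ] H)
  have hUb : ∀ q x, U q (b x) = b (q * x) := by
    intro q x
    simp [U]
  have hU : ∀ q, U q (b 1) = b q := by
    intro q; rw [hUb, mul_one]
  have hUi : ∀ q x y, ⟪U q x, U q y⟫_ℂ = ⟪x, y⟫_ℂ := by
    intro q x y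
    exact (b.equiv b (Equiv.mulLeft q)).inner_map_map x y
  have hfU : ∀ q x, f (U q x) = U q (f x) := by
    intro q
    have : (f ∘L U q) = (U q ∘L f) := by
      apply ContinuousLinearMap.coe_injective
      apply b.toBasis.ext
      intro x
      simp only [OrthonormalBasis.coe_toBasis, ContinuousLinearMap.coe_coe,
        ContinuousLinearMap.comp_apply]
      rw [hUb, hf, hf, map_sum]
      simp_rw [map_smul, hUb]
      refine (Fintype.sum_equiv (Equiv.mulLeft q) _ _ ?_).symm
      intro y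
      simp [hM]
    intro x
    exact congrArg (fun S : H →L[ℂ] H => S x) this
  have hUT : ∀ q, Commute T (U q) := by
    intro q
    have : T ∘L U q = U q ∘L T := by
      ext x
      apply ext_inner_left ℂ
      intro y
      obtain ⟨z, rfl⟩ : ∃ z, U q z = y :=
        ⟨(b.equiv b (Equiv.mulLeft q)).symm y, (b.equiv b (Equiv.mulLeft q)).apply_symm_apply y⟩
      simp only [ContinuousLinearMap.comp_apply]
      rw [hUi]
      simp only [hTdef, ContinuousLinearMap.comp_apply]
      rw [ContinuousLinearMap.adjoint_inner_right, ContinuousLinearMap.adjoint_inner_right,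
        hfU, hfU, hUi]
    exact this
  rw [spectralMeasure_eq b T hT (b 1) U hU hUi hUT]
  have hprod : ∏ i, hT.eigenvalues rfl i = ‖M.det‖ ^ 2 := by
    have h1 := hT.det_eq_prod_eigenvalues rfl
    have h2 := det_adjoint_comp b f M hf
    have h3 := h1.symm.trans h2
    refine Complex.ofReal_injective ?_
    rw [Complex.ofReal_prod]
    exact h3
  have hnonneg : ∀ i, 0 ≤ hT.eigenvalues rfl i := by
    intro i
    apply eigenvalue_nonneg_of_nonneg (hT.hasEigenvalue_eigenvalues rfl i)
    intro x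
    simp only [hTdef, ContinuousLinearMap.coe_coe, ContinuousLinearMap.comp_apply]
    rw [ContinuousLinearMap.adjoint_inner_right]
    exact inner_self_nonneg
  have hne : ∀ i, hT.eigenvalues rfl i ≠ 0 := by
    intro i h0
    have : ∏ i, hT.eigenvalues rfl i = 0 := Finset.prod_eq_zero (Finset.mem_univ i) h0
    rw [hprod] at this
    simp at this
    exact hdet this
  have hpos : ∀ i, 0 < hT.eigenvalues rfl i := fun i => lt_of_le_of_ne (hnonneg i) (hne i).symm
  obtain ⟨k1, k2⟩ := log_atomic (c := 1 / (Fintype.card Q : ℝ)) (by positivity) _ hpos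
  refine ⟨k1, ?_⟩
  rw [k2, ← Finset.mul_sum, ← Real.log_prod (fun i _ => hne i), hprod, Real.log_pow]
  norm_num

end general

section groups

variable {Q : Type} [Group Q]

omit [Group Q] in
theorem coord_add {r : ℕ} (x y : L2Pow Q r) (j : Fin r) (h : Q) :
    coord (x + y) j h = coord x j h + coord y j h := rfl

omit [Group Q] in
theorem coord_smul {r : ℕ} (c : ℂ) (x : L2Pow Q r) (j : Fin r) (h : Q) :
    coord (c • x) j h = c * coord x j h := rfl

omit [Group Q] in
theorem coord_zero {r : ℕ} (j : Fin r) (h : Q) : coord (0 : L2Pow Q r) j h = 0 := rfl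

omit [Group Q] in
theorem coord_sum {r : ℕ} {ι : Type} (S : Finset ι) (F : ι → L2Pow Q r) (j : Fin r) (h : Q) :
    coord (∑ i ∈ S, F i) j h = ∑ i ∈ S, coord (F i) j h := by
  classical
  induction S using Finset.induction_on with
  | empty => simp [coord_zero]
  | insert a S ha ih => rw [Finset.sum_insert ha, Finset.sum_insert ha, coord_add, ih]

omit [Group Q] in
theorem coord_ext {r : ℕ} {x y : L2Pow Q r} (h : ∀ j g, coord x j g = coord y j g) : x = y := by
  apply lp.ext
  funext p
  exact h p.1 p.2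

theorem coord_shift {r s : ℕ} (i : Fin r) (j j' : Fin s) (g h : Q) (x : L2Pow Q r) :
    coord (shift i j g x) j' h = if j' = j then coord x i (h * g⁻¹) else 0 := rfl

theorem rMul_apply {r s : ℕ} (A : Matrix (Fin r) (Fin s) (MonoidAlgebra ℚ Q))
    (x : L2Pow Q r) (j : Fin s) (h : Q) :
    coord (rMul A x) j h = ∑ i, ∑ g ∈ (A i j).coeff.support,
      (((A i j).coeff g : ℚ) : ℂ) * coord x i (h * g⁻¹) := by
  unfold rMul linComb
  rw [sum_apply, coord_sum]
  apply Finset.sum_congr rfl
  intro i _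
  rw [sum_apply, coord_sum, Finset.sum_eq_single j]
  · rw [sum_apply, coord_sum]
    apply Finset.sum_congr rfl
    intro g _
    rw [smul_apply, coord_smul, coord_shift, if_pos rfl]
  · intro j' _ hj'
    rw [sum_apply, coord_sum]
    apply Finset.sum_eq_zero
    intro g _
    rw [smul_apply, coord_smul, coord_shift, if_neg (Ne.symm hj'), mul_zero]
  · simp

/-- the basis vector at `q` -/
def bvec {Q : Type} [DecidableEq Q] (q : Q) : L2Pow Q 1 :=
  show lp (fun _ : Fin 1 × Q => ℂ) 2 from lp.single 2 ((0 : Fin 1), q) (1 : ℂ)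

theorem coord_single {Q : Type} [DecidableEq Q] (inst : DecidableEq (Fin 1 × Q)) (i : Fin 1) (q : Q)
    (j : Fin 1) (h : Q) :
    coord (show lp (fun _ : Fin 1 × Q => ℂ) 2 from @lp.single _ (fun _ => ℂ) _ inst 2 (i, q) (1 : ℂ))
      j h = if h = q then 1 else 0 := by
  change (@lp.single (Fin 1 × Q) (fun _ => ℂ) _ inst 2 (i, q) (1 : ℂ)) (j, h) = _
  rw [lp.single_apply, Pi.single_apply]
  have : ((j, h) = (i, q)) ↔ h = q := by
    constructor
    · intro e; exact (Prod.mk.inj e).2
    · intro e; rw [e, Subsingleton.elim j i]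
  simp only [this]

theorem coord_bvec {Q : Type} [DecidableEq Q] (q : Q) (j : Fin 1) (h : Q) :
    coord (bvec q) j h = if h = q then 1 else 0 := coord_single _ _ _ _ _

theorem inner_bvec {Q : Type} [DecidableEq Q] (q : Q) (x : L2Pow Q 1) :
    ⟪bvec q, x⟫_ℂ = coord x 0 q := by
  have h := lp.inner_single_left (𝕜 := ℂ) (G := fun _ : Fin 1 × Q => ℂ) ((0 : Fin 1), q) (1 : ℂ)
    (show lp (fun _ : Fin 1 × Q => ℂ) 2 from x)
  refine Eq.trans h ?_
  simp
  rfl

/-- the standard orthonormal basis of `L2Pow Q 1` -/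
def stdBasis (Q : Type) [Fintype Q] [DecidableEq Q] [Group Q] : OrthonormalBasis Q ℂ (L2Pow Q 1) :=
  OrthonormalBasis.mk (v := fun q => bvec q) (by
    rw [orthonormal_iff_ite]
    intro i j
    refine (inner_bvec i (bvec j)).trans ?_
    rw [coord_bvec]) (by
    intro x _
    have : x = ∑ q, (coord x 0 q) • (bvec q) := by
      apply coord_ext
      intro j g
      rw [coord_sum]
      simp_rw [coord_smul, coord_bvec]
      simp [Subsingleton.elim j 0]
    rw [this]
    apply Submodule.sum_mem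
    intro q _
    apply Submodule.smul_mem
    exact Submodule.subset_span ⟨q, rfl⟩)

theorem stdBasis_apply [Fintype Q] [DecidableEq Q] (q : Q) :
    stdBasis Q q = bvec q := by
  rw [stdBasis, OrthonormalBasis.coe_mk]

theorem sum_stdBasis [Fintype Q] [DecidableEq Q] (c : Q → ℂ) (j : Fin 1) (h : Q) :
    coord (∑ q, c q • stdBasis Q q) j h = c h := by
  rw [coord_sum]
  simp_rw [coord_smul, stdBasis_apply, coord_bvec]
  simp

theorem rMul_stdBasis [Fintype Q] [DecidableEq Q] (a : MonoidAlgebra ℚ Q) (x : Q) :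
    (rMul (Matrix.of fun _ _ => a : Matrix (Fin 1) (Fin 1) (MonoidAlgebra ℚ Q))) (stdBasis Q x)
      = ∑ y, ((a.coeff (x⁻¹ * y) : ℚ) : ℂ) • stdBasis Q y := by
  apply coord_ext
  intro j h
  rw [sum_stdBasis, rMul_apply]
  rw [Fin.sum_univ_one]
  have h1 : ∀ g : Q, coord (stdBasis Q x) 0 (h * g⁻¹) = if g = x⁻¹ * h then 1 else 0 := by
    intro g
    rw [stdBasis_apply, coord_bvec]
    have : (h * g⁻¹ = x) ↔ (g = x⁻¹ * h) := by
      constructor
      · intro e; rw [← e]; group
      · intro e; rw [e]; group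
    simp only [this]
  simp_rw [h1]
  simp only [Matrix.of_apply, mul_ite, mul_one, mul_zero, Finset.sum_ite_eq']
  by_cases hg : x⁻¹ * h ∈ a.coeff.support
  · rw [if_pos hg]
  · rw [if_neg hg]
    rw [Finsupp.notMem_support_iff] at hg
    rw [hg]; simp

theorem unitVec_one [Fintype Q] [DecidableEq Q] :
    (unitVec : Fin 1 → L2Pow Q 1) = fun _ => stdBasis Q 1 := by
  funext i
  rw [stdBasis_apply]
  apply coord_ext
  intro j h
  rw [coord_bvec]
  exact coord_single _ _ _ _ _

/-- The Fuglede-Kadison determinant over a finite group. -/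
theorem fkDet_finite [Fintype Q] [DecidableEq Q] (a : MonoidAlgebra ℚ Q)
    (hdet : (Matrix.of fun x y : Q => ((a.coeff (x⁻¹ * y) : ℚ) : ℂ)).det ≠ 0) :
    fkDet (rMul (Matrix.of fun _ _ => a : Matrix (Fin 1) (Fin 1) (MonoidAlgebra ℚ Q)))
      = Real.exp (Real.log ‖(Matrix.of fun x y : Q => ((a.coeff (x⁻¹ * y) : ℚ) : ℂ)).det‖
        / (Nat.card Q : ℝ)) := by
  have : FiniteDimensional ℂ (L2Pow Q 1) := (stdBasis Q).toBasis.finiteDimensional_of_finite
  obtain ⟨h1, h2⟩ := log_integral (stdBasis Q)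
    (rMul (Matrix.of fun _ _ => a : Matrix (Fin 1) (Fin 1) (MonoidAlgebra ℚ Q)))
    (Matrix.of fun x y : Q => ((a.coeff (x⁻¹ * y) : ℚ) : ℂ)) (rMul_stdBasis a)
    (by
      intro q x y
      have : (q * x)⁻¹ * (q * y) = x⁻¹ * y := by group
      simp only [Matrix.of_apply, this]) hdet
  unfold fkDet detOf specMeas
  rw [unitVec_one, if_pos h1, h2]
  congr 1
  rw [Nat.card_eq_fintype_card]
  ring

end groups

end Pool.Agent.Helper993.FK
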