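import Mathlib

open scoped Manifold Bundle Topology ContDiff
open Bundle

noncomputable section

namespace Pool.Agent.Helper993.Metric

variable {E : Type} [NormedAddCommGroup E] [InnerProductSpace ℝ E]
  {H : Type} [TopologicalSpace H] (I : ModelWithCorners ℝ E H)
  (M : Type) [TopologicalSpace M] [ChartedSpace H M]

/-- the positive definite symmetric bilinear forms on a tangent space -/
def posForms (x : M) : Set (TangentSpace I x →L[ℝ] TangentSpace I x →L[ℝ] ℝ) :=
  {φ | (∀ v w, φ v w = φ w v) ∧ ∀ v, v ≠ 0 → 0 < φ v v}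

theorem convex_posForms (x : M) : Convex ℝ (posForms I M x) := by
  rintro φ ⟨h1, h2⟩ ψ ⟨h3, h4⟩ a b ha hb hab
  refine ⟨fun v w => ?_, fun v hv => ?_⟩
  · simp only [add_apply, smul_apply, h1 v w, h3 v w]
  · simp only [add_apply, smul_apply, smul_eq_mul]
    have e1 := h2 v hv
    have e2 := h4 v hv
    rcases ha.eq_or_lt with h | h
    · subst h
      have : b = 1 := by linarith
      subst this
      simpa using e2
    · have := mul_pos h e1
      have := mul_nonneg hb e2.le
      linarith

/-- the inner product of the model space -/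
def std (E : Type) [NormedAddCommGroup E] [InnerProductSpace ℝ E] : E →L[ℝ] E →L[ℝ] ℝ :=
  innerSL ℝ

theorem std_apply (v w : E) : std E v w = inner ℝ v w := rfl

variable [IsManifold I ∞ M]

/-- the inner product of the model space transported to the tangent space at `y` by the
trivialization around `x₀` -/
def localForm (x₀ y : M) : TangentSpace I y →L[ℝ] TangentSpace I y →L[ℝ] ℝ :=
  ((ContinuousLinearMap.precomp ℝ
    ((trivializationAt E (TangentSpace I) x₀).continuousLinearMapAt ℝ y)).comp (std E)).comp
    ((trivializationAt E (TangentSpace I) x₀).continuousLinearMapAt ℝ y)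

theorem localForm_apply (x₀ y : M) (v w : TangentSpace I y) :
    localForm I M x₀ y v w =
      inner ℝ ((trivializationAt E (TangentSpace I) x₀).continuousLinearMapAt ℝ y v)
        ((trivializationAt E (TangentSpace I) x₀).continuousLinearMapAt ℝ y w) := rfl

theorem localForm_mem (x₀ y : M) (hy : y ∈ (trivializationAt E (TangentSpace I) x₀).baseSet) :
    localForm I M x₀ y ∈ posForms I M y := by
  refine ⟨fun v w => ?_, fun v hv => ?_⟩
  · rw [localForm_apply, localForm_apply, real_inner_comm]
  · rw [localForm_apply, real_inner_self_pos]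
    intro h
    apply hv
    have h2 := (trivializationAt E (TangentSpace I) x₀).symmL_continuousLinearMapAt (R := ℝ) hy v
    rw [h, map_zero] at h2
    exact h2.symm

theorem localForm_smooth (x₀ : M) :
    ContMDiffOn I (I.prod 𝓘(ℝ, E →L[ℝ] E →L[ℝ] ℝ)) ∞
      (fun y => TotalSpace.mk' (E →L[ℝ] E →L[ℝ] ℝ)
        (E := fun y : M => TangentSpace I y →L[ℝ] TangentSpace I y →L[ℝ] ℝ) y (localForm I M x₀ y))
      (trivializationAt E (TangentSpace I) x₀).baseSet := by
  intro y hy
  have hbase : y ∈ (trivializationAt (E →L[ℝ] E →L[ℝ] ℝ)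
      (fun y : M => TangentSpace I y →L[ℝ] TangentSpace I y →L[ℝ] ℝ) x₀).baseSet := by
    simp only [hom_trivializationAt_baseSet, Set.mem_inter_iff]
    exact ⟨hy, hy, by simp⟩
  rw [Trivialization.contMDiffWithinAt_section (e := trivializationAt (E →L[ℝ] E →L[ℝ] ℝ)
      (fun y : M => TangentSpace I y →L[ℝ] TangentSpace I y →L[ℝ] ℝ) x₀) _ hbase]
  have hc : ∀ z ∈ (trivializationAt E (TangentSpace I) x₀).baseSet,
      ((trivializationAt (E →L[ℝ] E →L[ℝ] ℝ)
      (fun y : M => TangentSpace I y →L[ℝ] TangentSpace I y →L[ℝ] ℝ) x₀)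
        ⟨z, localForm I M x₀ z⟩).2 = std E := by
    intro z hz
    rw [hom_trivializationAt_apply]
    ext v w
    rw [inCoordinates_apply_eq₂ hz hz (by simp)]
    rw [localForm_apply, ← Trivialization.symmL_apply (R := ℝ) _ hz v,
      ← Trivialization.symmL_apply (R := ℝ) _ hz w,
      Trivialization.continuousLinearMapAt_symmL _ hz, Trivialization.continuousLinearMapAt_symmL _ hz,
      std_apply, Trivialization.linearMapAt_apply, if_pos (by simp)]
    rfl
  exact (contMDiffWithinAt_const (c := std E)).congr hc (hc y hy)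

theorem bounded_of_pos [FiniteDimensional ℝ E] (φ : E →L[ℝ] E →L[ℝ] ℝ)
    (h : ∀ v, v ≠ 0 → 0 < φ v v) : Bornology.IsVonNBounded ℝ {v : E | φ v v < 1} := by
  rw [NormedSpace.isVonNBounded_iff]
  rcases subsingleton_or_nontrivial E with hE | hE
  · exact (Set.toFinite _).isBounded
  · have hc : IsCompact (Metric.sphere (0 : E) 1) := isCompact_sphere 0 1
    have hne : (Metric.sphere (0 : E) 1).Nonempty := by
      obtain ⟨v, hv⟩ := exists_norm_eq E (zero_le_one' ℝ)
      exact ⟨v, by simpa using hv⟩
    have hcont : Continuous (fun v : E => φ v v) := φ.continuous.clm_apply continuous_id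
    obtain ⟨v₀, hv₀, hmin⟩ := hc.exists_isMinOn hne hcont.continuousOn
    have hv₀ne : v₀ ≠ 0 := by
      rintro rfl
      simp at hv₀
    have hpos := h v₀ hv₀ne
    set m := φ v₀ v₀ with hm
    rw [isBounded_iff_forall_norm_le]
    refine ⟨Real.sqrt (1 / m), fun v hv => ?_⟩
    by_cases hv0 : v = 0
    · subst hv0
      simp
    have hn : 0 < ‖v‖ := norm_pos_iff.mpr hv0
    have h1 : m ≤ φ (‖v‖⁻¹ • v) (‖v‖⁻¹ • v) := by
      apply hmin
      simp [norm_smul, hn.ne']
    have h2 : φ (‖v‖⁻¹ • v) (‖v‖⁻¹ • v) = φ v v / ‖v‖ ^ 2 := by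
      simp only [map_smul, smul_apply, smul_eq_mul]
      field_simp
    rw [h2, le_div_iff₀ (by positivity)] at h1
    have h3 : φ v v < 1 := hv
    apply Real.le_sqrt_of_sq_le
    rw [le_div_iff₀ hpos]
    linarith

/-- Every σ-compact Hausdorff smooth manifold carries a smooth Riemannian metric. -/
theorem exists_metric [FiniteDimensional ℝ E] [T2Space M] [SigmaCompactSpace M] :
    Nonempty (ContMDiffRiemannianMetric I ∞ E (fun x : M => TangentSpace I x)) := by
  obtain ⟨s, hs⟩ := exists_contMDiffSection_forall_mem_convex_of_local (n := ⊤) I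
    (fun x : M => TangentSpace I x →L[ℝ] TangentSpace I x →L[ℝ] ℝ)
    (fun x => posForms I M x) (fun x => convex_posForms I M x)
    (fun x₀ => ⟨(trivializationAt E (TangentSpace I) x₀).baseSet,
      (trivializationAt E (TangentSpace I) x₀).open_baseSet.mem_nhds
        (mem_baseSet_trivializationAt E (TangentSpace I) x₀),
      fun y => localForm I M x₀ y, localForm_smooth I M x₀, fun y hy => localForm_mem I M x₀ y hy⟩)
  exact ⟨{
    inner := fun b => s b
    symm := fun b => (hs b).1
    pos := fun b => (hs b).2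
    isVonNBounded := fun b => bounded_of_pos (E := E) (s b) (hs b).2
    contMDiff := s.contMDiff }⟩

end Pool.Agent.Helper993.Metric
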