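import Mathlib
import Pool.Agent.Helper993.HeisDet

open scoped Topology Manifold ContDiff

noncomputable section

namespace Pool.Agent.Helper993.Nil

open Pool.Agent.Helper993.HeisDet

/-- the coordinates of a point of the real Heisenberg group -/
def toEuc : Heis ℝ ≃ EuclideanSpace ℝ (Fin 3) where
  toFun x := !₂[x.a, x.b, x.c]
  invFun v := ⟨v 0, v 1, v 2⟩
  left_inv x := by ext <;> simp
  right_inv v := by ext i; fin_cases i <;> simp

instance : TopologicalSpace (Heis ℝ) := TopologicalSpace.induced toEuc inferInstance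

/-- the coordinates as a homeomorphism -/
def homeo : Heis ℝ ≃ₜ EuclideanSpace ℝ (Fin 3) where
  toEquiv := toEuc
  continuous_toFun := continuous_induced_dom
  continuous_invFun := by
    rw [continuous_induced_rng]
    have : (toEuc ∘ toEuc.invFun) = id := by
      funext v
      exact toEuc.right_inv v
    rw [this]
    exact continuous_id

theorem continuous_a : Continuous (fun x : Heis ℝ => x.a) := by
  have : (fun x : Heis ℝ => x.a) = fun x => (homeo x) 0 := by
    funext x; simp [homeo, toEuc]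
  rw [this]
  exact (EuclideanSpace.proj (𝕜 := ℝ) (0 : Fin 3)).continuous.comp homeo.continuous

theorem continuous_b : Continuous (fun x : Heis ℝ => x.b) := by
  have : (fun x : Heis ℝ => x.b) = fun x => (homeo x) 1 := by
    funext x; simp [homeo, toEuc]
  rw [this]
  exact (EuclideanSpace.proj (𝕜 := ℝ) (1 : Fin 3)).continuous.comp homeo.continuous

theorem continuous_c : Continuous (fun x : Heis ℝ => x.c) := by
  have : (fun x : Heis ℝ => x.c) = fun x => (homeo x) 2 := by
    funext x; simp [homeo, toEuc]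
  rw [this]
  exact (EuclideanSpace.proj (𝕜 := ℝ) (2 : Fin 3)).continuous.comp homeo.continuous

theorem continuous_mk {X : Type*} [TopologicalSpace X] {f : X → Heis ℝ}
    (ha : Continuous fun x => (f x).a) (hb : Continuous fun x => (f x).b)
    (hc : Continuous fun x => (f x).c) : Continuous f := by
  rw [← homeo.comp_continuous_iff]
  have : (homeo ∘ f) = fun x => !₂[(f x).a, (f x).b, (f x).c] := rfl
  rw [this]
  refine (PiLp.continuous_toLp 2 _).comp ?_
  refine continuous_pi fun i => ?_
  fin_cases i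
  · simpa using ha
  · simpa using hb
  · simpa using hc

instance : IsTopologicalGroup (Heis ℝ) where
  continuous_mul := by
    apply continuous_mk
    · exact (continuous_a.comp continuous_fst).add (continuous_a.comp continuous_snd)
    · exact (continuous_b.comp continuous_fst).add (continuous_b.comp continuous_snd)
    · exact ((continuous_c.comp continuous_fst).add (continuous_c.comp continuous_snd)).add
        ((continuous_a.comp continuous_fst).mul (continuous_b.comp continuous_snd))
  continuous_inv := by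
    apply continuous_mk
    · exact continuous_a.neg
    · exact continuous_b.neg
    · exact continuous_c.neg.add (continuous_a.mul continuous_b)

instance : T2Space (Heis ℝ) := homeo.symm.t2Space
instance : LocallyCompactSpace (Heis ℝ) := homeo.isClosedEmbedding.locallyCompactSpace
instance : SecondCountableTopology (Heis ℝ) := homeo.secondCountableTopology

instance : ContractibleSpace (Heis ℝ) := homeo.contractibleSpace

instance : SimplyConnectedSpace (Heis ℝ) := inferInstance

instance : ConnectedSpace (Heis ℝ) := inferInstance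

/-- the inclusion of the integer points -/
def incl : Heis ℤ →* Heis ℝ where
  toFun x := ⟨x.a, x.b, x.c⟩
  map_one' := by ext <;> simp
  map_mul' x y := by ext <;> simp

theorem incl_injective : Function.Injective incl := by
  intro x y h
  have h1 := congrArg Heis.a h
  have h2 := congrArg Heis.b h
  have h3 := congrArg Heis.c h
  simp only [incl, MonoidHom.coe_mk, OneHom.coe_mk, Int.cast_inj] at h1 h2 h3
  ext
  · exact h1
  · exact h2
  · exact h3

/-- the lattice of integer points -/
def lat : Subgroup (Heis ℝ) := incl.range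

theorem mem_lat {x : Heis ℝ} :
    x ∈ lat ↔ (∃ n : ℤ, (n : ℝ) = x.a) ∧ (∃ n : ℤ, (n : ℝ) = x.b) ∧ (∃ n : ℤ, (n : ℝ) = x.c) := by
  constructor
  · rintro ⟨y, rfl⟩
    exact ⟨⟨y.a, rfl⟩, ⟨y.b, rfl⟩, ⟨y.c, rfl⟩⟩
  · rintro ⟨⟨p, hp⟩, ⟨q, hq⟩, ⟨r, hr⟩⟩
    exact ⟨⟨p, q, r⟩, by ext <;> simp [incl, hp, hq, hr]⟩

theorem isClosed_lat : IsClosed (lat : Set (Heis ℝ)) := by
  have : (lat : Set (Heis ℝ)) = (fun x : Heis ℝ => x.a) ⁻¹' (Set.range ((↑) : ℤ → ℝ))
      ∩ ((fun x : Heis ℝ => x.b) ⁻¹' (Set.range ((↑) : ℤ → ℝ))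
      ∩ (fun x : Heis ℝ => x.c) ⁻¹' (Set.range ((↑) : ℤ → ℝ))) := by
    ext x
    exact mem_lat
  rw [this]
  have hz : IsClosed (Set.range ((↑) : ℤ → ℝ)) := Int.isClosedEmbedding_coe_real.isClosed_range
  exact (hz.preimage continuous_a).inter ((hz.preimage continuous_b).inter (hz.preimage continuous_c))

/-- a neighbourhood of a lattice point which contains no other lattice point -/
theorem exists_nhds_lat (x : Heis ℝ) (hx : x ∈ lat) :
    ∃ U ∈ 𝓝 x, ∀ y ∈ U, y ∈ lat → y = x := by
  refine ⟨{y | |y.a - x.a| < 1 ∧ |y.b - x.b| < 1 ∧ |y.c - x.c| < 1}, ?_, ?_⟩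
  · apply IsOpen.mem_nhds
    · have h1 : IsOpen {y : Heis ℝ | |y.a - x.a| < 1} :=
        isOpen_lt ((continuous_a.sub continuous_const).abs) continuous_const
      have h2 : IsOpen {y : Heis ℝ | |y.b - x.b| < 1} :=
        isOpen_lt ((continuous_b.sub continuous_const).abs) continuous_const
      have h3 : IsOpen {y : Heis ℝ | |y.c - x.c| < 1} :=
        isOpen_lt ((continuous_c.sub continuous_const).abs) continuous_const
      exact h1.inter (h2.inter h3)
    · simp
  · rintro y ⟨h1, h2, h3⟩ hy
    have key : ∀ (s t : ℝ), (∃ n : ℤ, (n : ℝ) = s) → (∃ n : ℤ, (n : ℝ) = t) → |s - t| < 1 → s = t := by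
      rintro s t ⟨p, rfl⟩ ⟨q, rfl⟩ h
      have : |p - q| < 1 := by exact_mod_cast h
      have : p = q := by
        have := Int.abs_lt_one_iff.mp this
        omega
      rw [this]
    obtain ⟨ya, yb, yc⟩ := mem_lat.mp hy
    obtain ⟨xa, xb, xc⟩ := mem_lat.mp hx
    ext
    · exact key _ _ ya xa h1
    · exact key _ _ yb xb h2
    · exact key _ _ yc xc h3

theorem isDiscrete_lat : IsDiscrete (lat : Set (Heis ℝ)) := by
  constructor
  rw [discreteTopology_subtype_iff]
  intro x hx
  obtain ⟨U, hU, h⟩ := exists_nhds_lat x hx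
  rw [Filter.inf_principal_eq_bot, mem_nhdsWithin_iff_exists_mem_nhds_inter]
  refine ⟨U, hU, ?_⟩
  rintro y ⟨hy, hne⟩ hyl
  exact hne (h y hy hyl)

/-- The closed manifold: the quotient of the real Heisenberg group by the integer points. -/
abbrev Quo : Type := Heis ℝ ⧸ lat

instance : IsClosed (lat : Set (Heis ℝ)) := isClosed_lat

instance : T2Space Quo := inferInstance

instance : ConnectedSpace Quo :=
  (QuotientGroup.mk_surjective (s := lat)).connectedSpace QuotientGroup.continuous_mk

theorem compact_aux (x : Heis ℝ) : ∃ y : Heis ℝ, (y.a ∈ Set.Icc (0 : ℝ) 1 ∧ y.b ∈ Set.Icc (0 : ℝ) 1 ∧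
    y.c ∈ Set.Icc (0 : ℝ) 1) ∧ (QuotientGroup.mk y : Quo) = QuotientGroup.mk x := by
  set p : ℤ := -⌊x.a⌋
  set q : ℤ := -⌊x.b⌋
  set r : ℤ := -⌊x.c + x.a * q⌋
  refine ⟨x * incl ⟨p, q, r⟩, ⟨?_, ?_, ?_⟩, ?_⟩
  · simp only [incl, MonoidHom.coe_mk, OneHom.coe_mk, Heis.mul_a, p, Int.cast_neg]
    constructor
    · linarith [Int.floor_le x.a]
    · linarith [Int.lt_floor_add_one x.a]
  · simp only [incl, MonoidHom.coe_mk, OneHom.coe_mk, Heis.mul_b, q, Int.cast_neg]
    constructor
    · linarith [Int.floor_le x.b]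
    · linarith [Int.lt_floor_add_one x.b]
  · have e : (x * incl ⟨p, q, r⟩).c = x.c + x.a * q + r := by
      simp only [incl, MonoidHom.coe_mk, OneHom.coe_mk, Heis.mul_c]
      ring
    rw [e]
    have e2 : (r : ℝ) = - (⌊x.c + x.a * q⌋ : ℝ) := by simp [r]
    rw [e2]
    constructor
    · linarith [Int.floor_le (x.c + x.a * q)]
    · linarith [Int.lt_floor_add_one (x.c + x.a * q)]
  · rw [QuotientGroup.eq]
    refine ⟨⟨p, q, r⟩⁻¹, ?_⟩
    rw [map_inv]
    group

instance : CompactSpace Quo := by
  have hK : IsCompact {y : Heis ℝ | y.a ∈ Set.Icc (0 : ℝ) 1 ∧ y.b ∈ Set.Icc (0 : ℝ) 1 ∧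
      y.c ∈ Set.Icc (0 : ℝ) 1} := by
    have h1 : IsCompact ((Set.Icc (0 : ℝ) 1) ×ˢ ((Set.Icc (0 : ℝ) 1) ×ˢ (Set.Icc (0 : ℝ) 1))) :=
      isCompact_Icc.prod (isCompact_Icc.prod isCompact_Icc)
    have h2 : Continuous (fun v : ℝ × (ℝ × ℝ) => (⟨v.1, v.2.1, v.2.2⟩ : Heis ℝ)) := by
      apply continuous_mk
      · exact continuous_fst
      · exact continuous_fst.comp continuous_snd
      · exact continuous_snd.comp continuous_snd
    have h3 := h1.image h2
    convert h3 using 1
    ext y
    constructor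
    · rintro ⟨h4, h5, h6⟩
      exact ⟨(y.a, y.b, y.c), ⟨h4, h5, h6⟩, rfl⟩
    · rintro ⟨v, ⟨h4, h5, h6⟩, rfl⟩
      exact ⟨h4, h5, h6⟩
  constructor
  have h := hK.image (f := (QuotientGroup.mk : Heis ℝ → Quo)) QuotientGroup.continuous_mk
  convert h using 1
  ext z
  simp only [Set.mem_univ, Set.mem_image, true_iff]
  obtain ⟨x, rfl⟩ := QuotientGroup.mk_surjective z
  obtain ⟨y, hy, h⟩ := compact_aux x
  exact ⟨y, hy, h⟩

theorem covering : IsQuotientCoveringMap (QuotientGroup.mk : Heis ℝ → Quo) lat.op :=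
  lat.isQuotientCoveringMap isDiscrete_lat

/-- the group isomorphism between a group and the opposite of its opposite, restricted to
a subgroup -/
def opEquiv : lat ≃* (lat.op)ᵐᵒᵖ where
  toFun x := MulOpposite.op ⟨MulOpposite.op x.1, x.2⟩
  invFun y := ⟨y.unop.1.unop, y.unop.2⟩
  left_inv _ := rfl
  right_inv _ := rfl
  map_mul' _ _ := rfl

/-- the integer Heisenberg group is isomorphic to the lattice -/
def latEquiv : Heis ℤ ≃* lat := incl.ofInjective incl_injective

/-- the base point of the manifold -/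
def pt : Quo := QuotientGroup.mk 1

/-- the fundamental group of the manifold is the integer Heisenberg group -/
def piEquiv : FundamentalGroup Quo pt ≃* Heis ℤ :=
  ((covering.fundamentalGroupEquiv ⟨1, rfl⟩).trans opEquiv.symm).trans latEquiv.symm

/-- the quotient map is a local homeomorphism -/
theorem localHomeo : IsLocalHomeomorph (QuotientGroup.mk : Heis ℝ → Quo) :=
  covering.isCoveringMap.isLocalHomeomorph

/-- the chart of the manifold around the image of `x` -/
def chartOf (x : Heis ℝ) : OpenPartialHomeomorph Quo (EuclideanSpace ℝ (Fin 3)) :=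
  (localHomeo.localInverseAt x).trans homeo.toOpenPartialHomeomorph

theorem mem_chartOf (x : Heis ℝ) : (QuotientGroup.mk x : Quo) ∈ (chartOf x).source := by
  simp [chartOf]

instance : ChartedSpace (EuclideanSpace ℝ (Fin 3)) Quo where
  atlas := Set.range chartOf
  chartAt q := chartOf q.out
  mem_chart_source q := by
    have h := mem_chartOf q.out
    rwa [QuotientGroup.out_eq'] at h
  chart_mem_atlas q := ⟨_, rfl⟩

theorem contDiff_translate (y : Heis ℝ) :
    ContDiff ℝ ∞ (fun v : EuclideanSpace ℝ (Fin 3) => homeo (homeo.symm v * y)) := by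
  have e : (fun v : EuclideanSpace ℝ (Fin 3) => homeo (homeo.symm v * y))
      = fun v => !₂[v 0 + y.a, v 1 + y.b, v 2 + y.c + v 0 * y.b] := rfl
  rw [e]
  have h0 : ContDiff ℝ ∞ (fun v : EuclideanSpace ℝ (Fin 3) => v 0) :=
    (EuclideanSpace.proj (𝕜 := ℝ) (0 : Fin 3)).contDiff
  have h1 : ContDiff ℝ ∞ (fun v : EuclideanSpace ℝ (Fin 3) => v 1) :=
    (EuclideanSpace.proj (𝕜 := ℝ) (1 : Fin 3)).contDiff
  have h2 : ContDiff ℝ ∞ (fun v : EuclideanSpace ℝ (Fin 3) => v 2) :=
    (EuclideanSpace.proj (𝕜 := ℝ) (2 : Fin 3)).contDiff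
  rw [contDiff_euclidean]
  intro i
  fin_cases i
  · exact h0.add contDiff_const
  · exact h1.add contDiff_const
  · exact (h2.add contDiff_const).add (h0.mul contDiff_const)

theorem transition_eventually (x x' : Heis ℝ) (v : EuclideanSpace ℝ (Fin 3))
    (hv : v ∈ ((chartOf x).symm.trans (chartOf x')).source) :
    ∃ y : Heis ℝ, ∀ᶠ w in 𝓝 v, ((chartOf x).symm.trans (chartOf x')) w = homeo (homeo.symm w * y) := by
  set s' := localHomeo.localInverseAt x' with hs'
  have hsymm : ∀ w, (chartOf x).symm w = QuotientGroup.mk (homeo.symm w) := by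
    intro w
    simp [chartOf]
  have hsrc : (chartOf x').source = s'.source := by
    simp [chartOf, hs']
  have hval : ∀ w, ((chartOf x).symm.trans (chartOf x')) w = homeo (s' (QuotientGroup.mk (homeo.symm w))) := by
    intro w
    rw [OpenPartialHomeomorph.trans_apply, hsymm]
    simp [chartOf, hs']
  have hv2 : (QuotientGroup.mk (homeo.symm v) : Quo) ∈ s'.source := by
    rw [OpenPartialHomeomorph.trans_source] at hv
    have := hv.2
    rwa [Set.mem_preimage, hsymm, hsrc] at this
  have hcont : ContinuousAt (fun w => (homeo.symm w)⁻¹ * s' (QuotientGroup.mk (homeo.symm w))) v := by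
    have c1 : ContinuousAt (fun w => homeo.symm w) v := homeo.symm.continuous.continuousAt
    have c2 : ContinuousAt (fun w => (QuotientGroup.mk (homeo.symm w) : Quo)) v :=
      (QuotientGroup.continuous_mk.comp homeo.symm.continuous).continuousAt
    have c3 : ContinuousAt s' (QuotientGroup.mk (homeo.symm v)) := s'.continuousAt hv2
    exact c1.inv.mul (ContinuousAt.comp (f := fun w => (QuotientGroup.mk (homeo.symm w) : Quo)) c3 c2)
  have hopen : ∀ᶠ w in 𝓝 v, (QuotientGroup.mk (homeo.symm w) : Quo) ∈ s'.source :=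
    ((QuotientGroup.continuous_mk.comp homeo.symm.continuous).continuousAt).eventually_mem
      (s'.open_source.mem_nhds hv2)
  have hmem : ∀ w, (QuotientGroup.mk (homeo.symm w) : Quo) ∈ s'.source →
      (homeo.symm w)⁻¹ * s' (QuotientGroup.mk (homeo.symm w)) ∈ lat := by
    intro w hw
    rw [← QuotientGroup.eq]
    exact (localHomeo.apply_localInverseAt_of_mem hw).symm
  obtain ⟨U, hU, hUl⟩ := exists_nhds_lat _ (hmem v hv2)
  refine ⟨(homeo.symm v)⁻¹ * s' (QuotientGroup.mk (homeo.symm v)), ?_⟩
  filter_upwards [hopen, hcont.eventually_mem hU] with w hw1 hw2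
  have := hUl _ hw2 (hmem w hw1)
  rw [hval, ← this]
  congr 1
  group

instance : IsManifold (𝓡 3) ∞ Quo := by
  apply isManifold_of_contDiffOn
  rintro e e' ⟨x, rfl⟩ ⟨x', rfl⟩
  simp only [modelWithCornersSelf_coe, modelWithCornersSelf_coe_symm, Function.comp_id,
    Function.id_comp, Set.range_id, Set.inter_univ, Set.preimage_id]
  intro v hv
  obtain ⟨y, hy⟩ := transition_eventually x x' v hv
  exact ((contDiff_translate y).contDiffAt.congr_of_eventuallyEq hy).contDiffWithinAt

end Pool.Agent.Helper993.Nil
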