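import Pool.Agent.Helper993.FKFinite

open scoped InnerProductSpace Topology CompactlySupported InnerProduct

noncomputable section

namespace Pool.Agent.Helper993.FK

section
variable {G : Type} [Group G] {r s t : ℕ}

/-- `∑_g a(g) S_{ijg}` -/
def sc (i : Fin r) (j : Fin s) (a : MonoidAlgebra ℚ G) : L2Pow G r →L[ℂ] L2Pow G s :=
  ∑ g ∈ a.coeff.support, ((a.coeff g : ℚ) : ℂ) • shift i j g

theorem sc_eq_sum (i : Fin r) (j : Fin s) (a : MonoidAlgebra ℚ G) (S : Finset G)
    (hS : a.coeff.support ⊆ S) :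
    (sc i j a : L2Pow G r →L[ℂ] L2Pow G s) = ∑ g ∈ S, ((a.coeff g : ℚ) : ℂ) • shift i j g := by
  unfold sc
  apply Finset.sum_subset hS
  intro g _ hg
  rw [Finsupp.notMem_support_iff] at hg
  simp [hg]

theorem sc_zero (i : Fin r) (j : Fin s) :
    (sc i j (0 : MonoidAlgebra ℚ G) : L2Pow G r →L[ℂ] L2Pow G s) = 0 := by
  simp [sc]

theorem sc_add (i : Fin r) (j : Fin s) (a b : MonoidAlgebra ℚ G) :
    (sc i j (a + b) : L2Pow G r →L[ℂ] L2Pow G s) = sc i j a + sc i j b := by
  classical
  rw [sc_eq_sum i j (a + b) (a.coeff.support ∪ b.coeff.support)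
    (by rw [MonoidAlgebra.coeff_add]; exact Finsupp.support_add),
    sc_eq_sum i j a _ Finset.subset_union_left, sc_eq_sum i j b _ Finset.subset_union_right,
    ← Finset.sum_add_distrib]
  apply Finset.sum_congr rfl
  intro g _
  simp [add_smul]

theorem sc_sum {ι : Type} (i : Fin r) (j : Fin s) (S : Finset ι) (a : ι → MonoidAlgebra ℚ G) :
    (sc i j (∑ k ∈ S, a k) : L2Pow G r →L[ℂ] L2Pow G s) = ∑ k ∈ S, sc i j (a k) := by
  classical
  induction S using Finset.induction_on with
  | empty => simp [sc_zero]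
  | insert k S hk ih => rw [Finset.sum_insert hk, Finset.sum_insert hk, sc_add, ih]

theorem sc_single (i : Fin r) (j : Fin s) (g : G) (c : ℚ) :
    (sc i j (MonoidAlgebra.single g c) : L2Pow G r →L[ℂ] L2Pow G s) = (c : ℂ) • shift i j g := by
  classical
  rw [sc_eq_sum i j _ {g} (by rw [MonoidAlgebra.coeff_single]; exact Finsupp.support_single_subset)]
  simp

theorem rMul_eq_sc (A : Matrix (Fin r) (Fin s) (MonoidAlgebra ℚ G)) :
    rMul A = ∑ i, ∑ j, sc i j (A i j) := rfl

theorem shift_comp_same (i : Fin r) (j : Fin s) (k : Fin t) (g h : G) :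
    (shift j k h : L2Pow G s →L[ℂ] L2Pow G t) ∘L (shift i j g : L2Pow G r →L[ℂ] L2Pow G s)
      = shift i k (g * h) := by
  ext x
  apply coord_ext
  intro l y
  rw [ContinuousLinearMap.comp_apply, coord_shift, coord_shift, coord_shift, if_pos rfl]
  by_cases hl : l = k
  · rw [if_pos hl, if_pos hl]
    congr 1
    group
  · rw [if_neg hl, if_neg hl]

theorem shift_comp_ne (i : Fin r) (j j' : Fin s) (hj : j ≠ j') (k : Fin t) (g h : G) :
    (shift j' k h : L2Pow G s →L[ℂ] L2Pow G t) ∘L (shift i j g : L2Pow G r →L[ℂ] L2Pow G s)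
      = 0 := by
  ext x
  apply coord_ext
  intro l y
  rw [ContinuousLinearMap.comp_apply, coord_shift, coord_shift, if_neg hj.symm, zero_apply,
    coord_zero]
  split_ifs <;> rfl

theorem sc_comp_same (i : Fin r) (j : Fin s) (k : Fin t) (a b : MonoidAlgebra ℚ G) :
    (sc j k b : L2Pow G s →L[ℂ] L2Pow G t) ∘L (sc i j a : L2Pow G r →L[ℂ] L2Pow G s)
      = sc i k (a * b) := by
  induction a using MonoidAlgebra.induction_linear with
  | zero => rw [zero_mul, sc_zero, sc_zero, ContinuousLinearMap.comp_zero]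
  | add a a' h1 h2 => rw [add_mul, sc_add, sc_add, ContinuousLinearMap.comp_add, h1, h2]
  | single g c =>
    induction b using MonoidAlgebra.induction_linear with
    | zero => rw [mul_zero, sc_zero, sc_zero, ContinuousLinearMap.zero_comp]
    | add b b' h1 h2 => rw [mul_add, sc_add, sc_add, ContinuousLinearMap.add_comp, h1, h2]
    | single h d =>
      rw [MonoidAlgebra.single_mul_single, sc_single, sc_single, sc_single,
        ContinuousLinearMap.smul_comp, ContinuousLinearMap.comp_smul, shift_comp_same, smul_smul]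
      push_cast
      rw [mul_comm]

theorem sc_comp_ne (i : Fin r) (j j' : Fin s) (hj : j ≠ j') (k : Fin t) (a b : MonoidAlgebra ℚ G) :
    (sc j' k b : L2Pow G s →L[ℂ] L2Pow G t) ∘L (sc i j a : L2Pow G r →L[ℂ] L2Pow G s) = 0 := by
  induction a using MonoidAlgebra.induction_linear with
  | zero => rw [sc_zero, ContinuousLinearMap.comp_zero]
  | add a a' h1 h2 => rw [sc_add, ContinuousLinearMap.comp_add, h1, h2, add_zero]
  | single g c =>
    induction b using MonoidAlgebra.induction_linear with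
    | zero => rw [sc_zero, ContinuousLinearMap.zero_comp]
    | add b b' h1 h2 => rw [sc_add, ContinuousLinearMap.add_comp, h1, h2, add_zero]
    | single h d =>
      rw [sc_single, sc_single,
        ContinuousLinearMap.smul_comp, ContinuousLinearMap.comp_smul, shift_comp_ne i j j' hj,
        smul_zero, smul_zero]

/-- Right multiplications compose. -/
theorem rMul_mul (A : Matrix (Fin r) (Fin s) (MonoidAlgebra ℚ G))
    (B : Matrix (Fin s) (Fin t) (MonoidAlgebra ℚ G)) :
    rMul (A * B) = rMul B ∘L rMul A := by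
  rw [rMul_eq_sc, rMul_eq_sc, rMul_eq_sc]
  simp only [ContinuousLinearMap.comp_finsetSum, ContinuousLinearMap.finsetSum_comp,
    Matrix.mul_apply, sc_sum]
  apply Finset.sum_congr rfl
  intro i _
  rw [Finset.sum_comm]
  apply Finset.sum_congr rfl
  intro j _
  symm
  rw [Finset.sum_eq_single j]
  · apply Finset.sum_congr rfl
    intro k _
    rw [sc_comp_same]
  · intro j' _ hj'
    apply Finset.sum_eq_zero
    intro k _
    exact sc_comp_ne i j j' hj'.symm k _ _
  · simp

omit [Group G] in

theorem inner_eq (x y : L2Pow G r) :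
    ⟪x, y⟫_ℂ = ∑' p : Fin r × G, starRingEnd ℂ (coord x p.1 p.2) * coord y p.1 p.2 := by
  have h := lp.inner_eq_tsum (𝕜 := ℂ) (G := fun _ : Fin r × G => ℂ)
    (show lp (fun _ : Fin r × G => ℂ) 2 from x) (show lp (fun _ : Fin r × G => ℂ) 2 from y)
  refine Eq.trans h ?_
  apply tsum_congr
  intro p
  rw [RCLike.inner_apply]
  exact mul_comm _ _

theorem inner_shift (i : Fin r) (j : Fin s) (g : G) (x : L2Pow G r) (y : L2Pow G s) :
    ⟪shift i j g x, y⟫_ℂ = ⟪x, shift j i g⁻¹ y⟫_ℂ := by
  classical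
  rw [inner_eq, inner_eq]
  have h3 : Function.Injective (fun h : G => ((j, h) : Fin s × G)) := by
    intro a b hab
    simpa using hab
  have h4 : Function.Injective (fun h : G => ((i, h) : Fin r × G)) := by
    intro a b hab
    simpa using hab
  rw [← h3.tsum_eq (f := fun p : Fin s × G =>
      starRingEnd ℂ (coord (shift i j g x) p.1 p.2) * coord y p.1 p.2),
    ← h4.tsum_eq (f := fun p : Fin r × G =>
      starRingEnd ℂ (coord x p.1 p.2) * coord (shift j i g⁻¹ y) p.1 p.2)]
  · simp only [coord_shift, if_true]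
    rw [← (Equiv.mulRight g).tsum_eq]
    apply tsum_congr
    intro h
    simp
  · rintro ⟨i', h⟩ hp
    by_contra hcon
    have : i' ≠ i := by
      rintro rfl
      exact hcon ⟨h, rfl⟩
    simp [coord_shift, this] at hp
  · rintro ⟨j', h⟩ hp
    by_contra hcon
    have : j' ≠ j := by
      rintro rfl
      exact hcon ⟨h, rfl⟩
    simp [coord_shift, this] at hp

theorem adjoint_shift (i : Fin r) (j : Fin s) (g : G) :
    ContinuousLinearMap.adjoint (shift i j g : L2Pow G r →L[ℂ] L2Pow G s) = shift j i g⁻¹ := by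
  symm
  rw [ContinuousLinearMap.eq_adjoint_iff]
  intro x y
  have h := inner_shift j i g⁻¹ x y
  rwa [inv_inv] at h

/-- the involution of the rational group ring -/
def invol (a : MonoidAlgebra ℚ G) : MonoidAlgebra ℚ G := MonoidAlgebra.mapDomain (fun g => g⁻¹) a

/-- the adjoint matrix over the rational group ring -/
def adjQ (A : Matrix (Fin r) (Fin s) (MonoidAlgebra ℚ G)) :
    Matrix (Fin s) (Fin r) (MonoidAlgebra ℚ G) :=
  A.transpose.map invol

theorem adjoint_sc (i : Fin r) (j : Fin s) (a : MonoidAlgebra ℚ G) :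
    ContinuousLinearMap.adjoint (sc i j a : L2Pow G r →L[ℂ] L2Pow G s) = sc j i (invol a) := by
  induction a using MonoidAlgebra.induction_linear with
  | zero =>
    rw [sc_zero, invol, MonoidAlgebra.mapDomain_zero, sc_zero, map_zero]
  | add a b h1 h2 =>
    rw [sc_add, map_add, h1, h2, invol, invol, invol, MonoidAlgebra.mapDomain_add, sc_add]
  | single g c =>
    rw [sc_single, invol, MonoidAlgebra.mapDomain_single, sc_single, map_smulₛₗ, adjoint_shift]
    simp

/-- The adjoint of a right multiplication. -/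
theorem adjoint_rMul (A : Matrix (Fin r) (Fin s) (MonoidAlgebra ℚ G)) :
    ContinuousLinearMap.adjoint (rMul A) = rMul (adjQ A) := by
  rw [rMul_eq_sc, rMul_eq_sc, Finset.sum_comm, map_sum]
  apply Finset.sum_congr rfl
  intro j _
  rw [map_sum]
  apply Finset.sum_congr rfl
  intro i _
  rw [adjoint_sc]
  rfl

omit [Group G] in
theorem norm_shift_le [Group G] (i : Fin r) (j : Fin s) (g : G) :
    ‖(shift i j g : L2Pow G r →L[ℂ] L2Pow G s)‖ ≤ 1 :=
  LinearMap.mkContinuous_norm_le _ zero_le_one _

theorem single_inst {I : Type} (i1 i2 : DecidableEq I) (x : I) :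
    @lp.single I (fun _ => ℂ) _ i1 2 x (1 : ℂ) = @lp.single I (fun _ => ℂ) _ i2 2 x (1 : ℂ) := by
  rw [Subsingleton.elim i1 i2]

theorem unitVec_eq [DecidableEq G] (i : Fin r) : (unitVec i : L2Pow G r)
    = (lp.single 2 (i, (1 : G)) (1 : ℂ) : lp (fun _ : Fin r × G => ℂ) 2) :=
  single_inst _ _ _

theorem inner_unitVec (i : Fin r) (x : L2Pow G r) : ⟪unitVec i, x⟫_ℂ = coord x i 1 := by
  classical
  have h := lp.inner_single_left (𝕜 := ℂ) (G := fun _ : Fin r × G => ℂ) (i, (1 : G)) (1 : ℂ)
    (show lp (fun _ : Fin r × G => ℂ) 2 from x)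
  rw [unitVec_eq]
  refine Eq.trans h ?_
  simp
  rfl

theorem coord_unitVec [DecidableEq G] (i j : Fin r) (g : G) :
    coord (unitVec i : L2Pow G r) j g = if j = i ∧ g = 1 then 1 else 0 := by
  rw [unitVec_eq]
  change (lp.single 2 (i, (1 : G)) (1 : ℂ) : lp (fun _ : Fin r × G => ℂ) 2) (j, g) = _
  rw [lp.single_apply, Pi.single_apply]
  simp only [Prod.mk.injEq]

theorem norm_unitVec (i : Fin r) : ‖(unitVec i : L2Pow G r)‖ = 1 := by
  classical
  have h : ⟪(unitVec i : L2Pow G r), unitVec i⟫_ℂ = 1 := by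
    rw [inner_unitVec, coord_unitVec]
    simp
  have h2 : ‖(unitVec i : L2Pow G r)‖ ^ 2 = 1 :=
    (norm_sq_eq_re_inner (𝕜 := ℂ) (unitVec i : L2Pow G r)).trans (congrArg Complex.re h)
  have h3 := norm_nonneg (unitVec i : L2Pow G r)
  nlinarith [sq_nonneg (‖(unitVec i : L2Pow G r)‖ - 1)]

/-- The matrix coefficients of a right multiplication at the unit vectors. -/
theorem inner_rMul_unitVec (A : Matrix (Fin r) (Fin s) (MonoidAlgebra ℚ G)) (i : Fin r) (j : Fin s) :
    ⟪(unitVec j : L2Pow G s), rMul A (unitVec i)⟫_ℂ = (((A i j).coeff 1 : ℚ) : ℂ) := by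
  classical
  rw [inner_unitVec, rMul_apply, Finset.sum_eq_single i]
  · simp only [coord_unitVec, one_mul, inv_eq_one, true_and, mul_ite, mul_one, mul_zero]
    rw [Finset.sum_ite_eq']
    by_cases h : (1 : G) ∈ (A i j).coeff.support
    · rw [if_pos h]
    · rw [if_neg h]
      rw [Finsupp.notMem_support_iff] at h
      rw [h]
      simp
  · intro i' _ hi'
    apply Finset.sum_eq_zero
    intro g _
    rw [coord_unitVec, if_neg (fun h => hi' h.1), mul_zero]
  · simp

/-- the `ℓ¹` norm -/
def n1 (a : MonoidAlgebra ℚ G) : ℝ := ∑ g ∈ a.coeff.support, |((a.coeff g : ℚ) : ℝ)|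

/-- the sum of the `ℓ¹` norms of the entries -/
def n1M (A : Matrix (Fin r) (Fin s) (MonoidAlgebra ℚ G)) : ℝ := ∑ i, ∑ j, n1 (A i j)

theorem sc_map {Q : Type} [Group Q] (f : G → Q) (i : Fin r) (j : Fin s) (a : MonoidAlgebra ℚ G) :
    (sc i j (MonoidAlgebra.mapDomain f a) : L2Pow Q r →L[ℂ] L2Pow Q s)
      = ∑ g ∈ a.coeff.support, ((a.coeff g : ℚ) : ℂ) • shift i j (f g) := by
  classical
  have key : ∀ (S : Finset G) (hS : a.coeff.support ⊆ S),
      (sc i j (MonoidAlgebra.mapDomain f a) : L2Pow Q r →L[ℂ] L2Pow Q s)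
      = ∑ g ∈ S, ((a.coeff g : ℚ) : ℂ) • shift i j (f g) := by
    induction a using MonoidAlgebra.induction_linear with
    | zero =>
      intro S _
      rw [MonoidAlgebra.mapDomain_zero, sc_zero]
      simp
    | add a b h1 h2 =>
      intro S hS
      set S' := S ∪ (a.coeff.support ∪ b.coeff.support) with hS'
      have e : ∑ g ∈ S, (((a + b).coeff g : ℚ) : ℂ) • (shift i j (f g) : L2Pow Q r →L[ℂ] L2Pow Q s)
          = ∑ g ∈ S', (((a + b).coeff g : ℚ) : ℂ) • shift i j (f g) := by
        apply Finset.sum_subset Finset.subset_union_left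
        intro g _ hg
        have : (a + b).coeff g = 0 := by
          by_contra h
          exact hg (hS (Finsupp.mem_support_iff.mpr h))
        rw [this]
        simp
      rw [e, MonoidAlgebra.mapDomain_add, sc_add,
        h1 S' (Finset.subset_union_left.trans Finset.subset_union_right),
        h2 S' (Finset.subset_union_right.trans Finset.subset_union_right),
        ← Finset.sum_add_distrib]
      apply Finset.sum_congr rfl
      intro g _
      simp [add_smul]
    | single g c =>
      intro S hS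
      rw [MonoidAlgebra.mapDomain_single, sc_single]
      by_cases hc : c = 0
      · subst hc
        simp
      · have hg : g ∈ S := by
          apply hS
          rw [MonoidAlgebra.coeff_single, Finsupp.mem_support_iff]
          simpa using hc
        rw [Finset.sum_eq_single g]
        · simp
        · intro g' _ hg'
          simp [hg'.symm]
        · intro h; exact absurd hg h
  exact key _ le_rfl

theorem norm_rMul_map_le {Q : Type} [Group Q] (f : G → Q)
    (A : Matrix (Fin r) (Fin s) (MonoidAlgebra ℚ G)) :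
    ‖rMul (A.map (MonoidAlgebra.mapDomain f))‖ ≤ n1M A := by
  rw [rMul_eq_sc]
  refine (norm_sum_le _ _).trans (Finset.sum_le_sum fun i _ => ?_)
  refine (norm_sum_le _ _).trans (Finset.sum_le_sum fun j _ => ?_)
  rw [Matrix.map_apply, sc_map]
  refine (norm_sum_le _ _).trans (Finset.sum_le_sum fun g _ => ?_)
  rw [norm_smul]
  have h := norm_shift_le (r := r) (s := s) i j (f g)
  have h2 : ‖(((A i j).coeff g : ℚ) : ℂ)‖ = |(((A i j).coeff g : ℚ) : ℝ)| := by
    rw [← Complex.ofReal_ratCast, Complex.norm_real, Real.norm_eq_abs]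
  rw [h2]
  calc |(((A i j).coeff g : ℚ) : ℝ)| * _ ≤ |(((A i j).coeff g : ℚ) : ℝ)| * 1 :=
        mul_le_mul_of_nonneg_left h (abs_nonneg _)
    _ = _ := mul_one _

end

end Pool.Agent.Helper993.FK
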