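import Mathlib

noncomputable section

namespace Pool.Agent.Helper993.Tors

section
variable {M : Type} [AddCommGroup M]

/-- the order of the torsion subgroup of `Z / B` -/
def tO (Z B : Submodule ℤ M) : ℕ :=
  Nat.card (Submodule.torsion ℤ (Z ⧸ B.submoduleOf Z))

/-- the saturation of `B` in `Z` -/
def sat (Z B : Submodule ℤ M) : AddSubgroup M where
  carrier := {m | m ∈ Z ∧ ∃ n : ℤ, n ≠ 0 ∧ n • m ∈ B}
  zero_mem' := ⟨Z.zero_mem, 1, one_ne_zero, by simp⟩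
  add_mem' := by
    rintro x y ⟨hx, n, hn, hnx⟩ ⟨hy, k, hk, hky⟩
    refine ⟨Z.add_mem hx hy, n * k, mul_ne_zero hn hk, ?_⟩
    rw [smul_add, mul_comm, mul_smul]
    refine B.add_mem (B.smul_mem k hnx) ?_
    rw [mul_comm, mul_smul]
    exact B.smul_mem n hky
  neg_mem' := by
    rintro x ⟨hx, n, hn, hnx⟩
    refine ⟨Z.neg_mem hx, n, hn, ?_⟩
    rw [smul_neg]
    exact B.neg_mem hnx

theorem mem_sat {Z B : Submodule ℤ M} {m : M} :
    m ∈ sat Z B ↔ m ∈ Z ∧ ∃ n : ℤ, n ≠ 0 ∧ n • m ∈ B := Iff.rfl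

/-- the map from the saturation to the quotient -/
def satMap (Z B : Submodule ℤ M) : sat Z B →+ (Z ⧸ B.submoduleOf Z) where
  toFun m := Submodule.Quotient.mk ⟨m.1, m.2.1⟩
  map_zero' := rfl
  map_add' _ _ := rfl

theorem mk_eq_zero_iff (Z B : Submodule ℤ M) (x : Z) :
    (Submodule.Quotient.mk x : Z ⧸ B.submoduleOf Z) = 0 ↔ (x : M) ∈ B := by
  rw [Submodule.Quotient.mk_eq_zero]
  rfl

theorem satMap_ker (Z B : Submodule ℤ M) :
    (satMap Z B).ker = B.toAddSubgroup.addSubgroupOf (sat Z B) := by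
  ext ⟨m, hm⟩
  rw [AddMonoidHom.mem_ker, AddSubgroup.mem_addSubgroupOf]
  exact mk_eq_zero_iff Z B ⟨m, hm.1⟩

theorem satMap_range (Z B : Submodule ℤ M) :
    (satMap Z B).range = (Submodule.torsion ℤ (Z ⧸ B.submoduleOf Z)).toAddSubgroup := by
  ext x
  rw [AddMonoidHom.mem_range, Submodule.mem_toAddSubgroup, Submodule.mem_torsion_iff]
  constructor
  · rintro ⟨⟨m, hm⟩, rfl⟩
    obtain ⟨hm1, n, hn, hnm⟩ := hm
    refine ⟨⟨n, mem_nonZeroDivisors_of_ne_zero hn⟩, ?_⟩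
    exact (mk_eq_zero_iff Z B (n • ⟨m, hm1⟩)).mpr hnm
  · rintro ⟨⟨n, hn⟩, h⟩
    obtain ⟨⟨m, hm⟩, rfl⟩ := Submodule.Quotient.mk_surjective _ x
    have h3 : (Submodule.Quotient.mk (n • (⟨m, hm⟩ : Z)) : Z ⧸ B.submoduleOf Z) = 0 := h
    have h2 := (mk_eq_zero_iff Z B (n • (⟨m, hm⟩ : Z))).mp h3
    exact ⟨⟨m, hm, n, nonZeroDivisors.ne_zero hn, h2⟩, rfl⟩

theorem tO_eq (Z B : Submodule ℤ M) : tO Z B = B.toAddSubgroup.relIndex (sat Z B) := by
  unfold AddSubgroup.relIndex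
  rw [← satMap_ker, AddSubgroup.index_ker, satMap_range]
  rfl

theorem le_sat {Z B : Submodule ℤ M} (h : B ≤ Z) : B.toAddSubgroup ≤ sat Z B := by
  intro m hm
  exact ⟨h hm, 1, one_ne_zero, by rw [one_smul]; exact hm⟩

theorem sat_eq {Z B₁ B₂ : Submodule ℤ M} (h12 : B₁ ≤ B₂)
    (hne : B₁.toAddSubgroup.relIndex B₂.toAddSubgroup ≠ 0) : sat Z B₁ = sat Z B₂ := by
  ext m
  rw [mem_sat, mem_sat]
  constructor
  · rintro ⟨hm, n, hn, hnm⟩
    exact ⟨hm, n, hn, h12 hnm⟩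
  · rintro ⟨hm, n, hn, hnm⟩
    obtain ⟨k, hk, _, hk2⟩ := AddSubgroup.exists_nsmul_mem_of_relIndex_ne_zero hne
      (show n • m ∈ B₂.toAddSubgroup from hnm)
    refine ⟨hm, k * n, mul_ne_zero (by exact_mod_cast hk.ne') hn, ?_⟩
    rw [mul_smul, natCast_zsmul]
    exact hk2.1

/-- the orders of the torsion subgroups for nested submodules of finite index -/
theorem tO_mul {Z B₁ B₂ : Submodule ℤ M} (h12 : B₁ ≤ B₂) (h2 : B₂ ≤ Z)
    (hne : B₁.toAddSubgroup.relIndex B₂.toAddSubgroup ≠ 0) :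
    tO Z B₁ = B₁.toAddSubgroup.relIndex B₂.toAddSubgroup * tO Z B₂ := by
  rw [tO_eq, tO_eq, sat_eq h12 hne, AddSubgroup.relIndex_mul_relIndex]
  · exact h12
  · exact le_sat h2

theorem tO_ne_zero [Module.Finite ℤ M] (Z B : Submodule ℤ M) : tO Z B ≠ 0 := by
  have h : Module.Finite ℤ (Submodule.torsion ℤ (Z ⧸ B.submoduleOf Z)) := inferInstance
  have h2 : Finite (Submodule.torsion ℤ (Z ⧸ B.submoduleOf Z)) :=
    Module.finite_of_fg_torsion _ Submodule.torsion_isTorsion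
  unfold tO
  exact Nat.card_pos.ne'

theorem tO_bot [Module.IsTorsionFree ℤ M] (Z : Submodule ℤ M) : tO Z ⊥ = 1 := by
  rw [tO_eq]
  have : sat Z ⊥ = ⊥ := by
    ext m
    rw [mem_sat, AddSubgroup.mem_bot]
    constructor
    · rintro ⟨_, n, hn, hnm⟩
      rw [Submodule.mem_bot] at hnm
      exact (smul_eq_zero.mp hnm).resolve_left hn
    · rintro rfl
      exact ⟨Z.zero_mem, 1, one_ne_zero, by simp⟩
  rw [this]
  exact AddSubgroup.relIndex_bot_right _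

variable {M' : Type} [AddCommGroup M']

theorem mem_map_iff (e : M ≃ₗ[ℤ] M') (S : Submodule ℤ M) (x : M) :
    e x ∈ S.map e.toLinearMap ↔ x ∈ S := by
  constructor
  · rintro ⟨y, hy, hxy⟩
    have h : y = x := e.injective hxy
    rwa [← h]
  · intro hx
    exact ⟨x, hx, rfl⟩

theorem sat_map (e : M ≃ₗ[ℤ] M') (Z B : Submodule ℤ M) :
    sat (Z.map e.toLinearMap) (B.map e.toLinearMap)
      = (sat Z B).map (e : M →ₗ[ℤ] M').toAddMonoidHom := by
  ext m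
  obtain ⟨m, rfl⟩ := e.surjective m
  rw [mem_sat, mem_map_iff]
  simp only [← map_smul, mem_map_iff]
  constructor
  · intro hm
    exact ⟨m, hm, rfl⟩
  · rintro ⟨y, hy, hxy⟩
    have h : y = m := e.injective hxy
    rw [← h]
    exact hy

theorem toAdd_map (e : M ≃ₗ[ℤ] M') (B : Submodule ℤ M) :
    (B.map e.toLinearMap).toAddSubgroup
      = B.toAddSubgroup.map (e : M →ₗ[ℤ] M').toAddMonoidHom := by
  ext m
  rfl

theorem tO_map (e : M ≃ₗ[ℤ] M') (Z B : Submodule ℤ M) :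
    tO (Z.map e.toLinearMap) (B.map e.toLinearMap) = tO Z B := by
  rw [tO_eq, tO_eq, sat_map, toAdd_map]
  exact AddSubgroup.relIndex_map_map_of_injective _ _ e.injective

end

end Pool.Agent.Helper993.Tors
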