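import Pool.Agent.Helper993.Tors
import Pool.Agent.Helper993.HeisDet

noncomputable section

namespace Pool.Agent.Helper993.Tors

open Pool.Agent.Helper993.HeisDet

section
variable {R : Type} [Ring R] {r s t : ℕ}

/-- right multiplication of row vectors by a matrix -/
def vm (A : Matrix (Fin r) (Fin s) R) : (Fin r → R) →ₗ[ℤ] (Fin s → R) where
  toFun v := Matrix.vecMul v A
  map_add' v w := Matrix.add_vecMul A v w
  map_smul' n v := by
    rw [RingHom.id_apply]
    exact Matrix.smul_vecMul n v A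

theorem vm_apply (A : Matrix (Fin r) (Fin s) R) (v : Fin r → R) : vm A v = Matrix.vecMul v A := rfl

theorem vm_mul (A : Matrix (Fin r) (Fin s) R) (B : Matrix (Fin s) (Fin t) R) (v : Fin r → R) :
    vm (A * B) v = vm B (vm A v) := by
  rw [vm_apply, vm_apply, vm_apply, Matrix.vecMul_vecMul]

theorem vm_add (A B : Matrix (Fin r) (Fin s) R) (v : Fin r → R) :
    vm (A + B) v = vm A v + vm B v := by
  rw [vm_apply, vm_apply, vm_apply, Matrix.vecMul_add]

theorem vm_one (v : Fin r → R) : vm (1 : Matrix (Fin r) (Fin r) R) v = v := by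
  rw [vm_apply, Matrix.vecMul_one]

/-- the range of `vm A` as an additive subgroup -/
def rg (A : Matrix (Fin r) (Fin s) R) : AddSubgroup (Fin s → R) :=
  (LinearMap.range (vm A)).toAddSubgroup

theorem mem_rg (A : Matrix (Fin r) (Fin s) R) (x : Fin s → R) :
    x ∈ rg A ↔ ∃ w, vm A w = x := Iff.rfl

theorem relIndex_rg (D : Matrix (Fin r) (Fin s) R) (T P : Matrix (Fin r) (Fin r) R)
    (e : Matrix (Fin s) (Fin 1) R) (c : Matrix (Fin r) (Fin 1) R) (c' w₀ : Matrix (Fin 1) (Fin r) R)
    (a : Matrix (Fin 1) (Fin 1) R) (h1 : D * e = c) (h2 : T * c = c * a) (h3 : P * T = P)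
    (h4 : w₀ * T = a * c') (h5 : P + c * c' = 1) (h6 : c' * c = 1) :
    (rg (T * D)).relIndex (rg D) = (rg a).index := by
  let f : rg D →+ (Fin 1 → R) := (vm e).toAddMonoidHom.comp (rg D).subtype
  have hf : ∀ (w : Fin r → R) (h : vm D w ∈ rg D), f ⟨vm D w, h⟩ = vm c w := by
    intro w h
    change vm e (vm D w) = _
    rw [← vm_mul, h1]
  have hsurj : Function.Surjective f := by
    intro u
    refine ⟨⟨vm D (vm c' u), ⟨_, rfl⟩⟩, ?_⟩
    rw [hf, ← vm_mul, h6, vm_one]
  have hcomap : (rg (T * D)).addSubgroupOf (rg D) = (rg a).comap f := by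
    ext ⟨x, hx⟩
    obtain ⟨w, rfl⟩ := hx
    rw [AddSubgroup.mem_addSubgroupOf, AddSubgroup.mem_comap, hf]
    constructor
    · rintro ⟨u, hu⟩
      change vm (T * D) u = vm D w at hu
      have e1 : vm c w = vm a (vm c u) := by
        rw [← vm_mul, ← h2, ← h1, ← Matrix.mul_assoc, vm_mul, vm_mul, hu]
      exact ⟨vm c u, e1.symm⟩
    · rintro ⟨z, hz⟩
      refine ⟨vm P w + vm w₀ z, ?_⟩
      change vm (T * D) _ = vm D w
      rw [vm_mul]
      congr 1
      rw [map_add, ← vm_mul, ← vm_mul, h3, h4, vm_mul, hz, ← vm_mul, ← vm_add, h5, vm_one]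
  unfold AddSubgroup.relIndex
  rw [hcomap, AddSubgroup.index_comap_of_surjective _ hsurj]

end

section
variable {Q : Type} [Group Q] [Fintype Q]

/-- a group ring element as a function -/
def eps : (Fin 1 → MonoidAlgebra ℤ Q) ≃+ (Q → ℤ) where
  toFun v := fun g => (v 0).coeff g
  invFun w := fun _ => MonoidAlgebra.ofCoeff (Finsupp.equivFunOnFinite.symm w)
  left_inv v := by
    funext i
    rw [Subsingleton.elim i 0]
    apply MonoidAlgebra.coeff_injective
    ext g
    simp
  right_inv w := by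
    funext g
    simp
  map_add' v w := by
    funext g
    simp

theorem eps_vm (a : MonoidAlgebra ℤ Q) (v : Fin 1 → MonoidAlgebra ℤ Q) :
    eps (vm (Matrix.of fun _ _ => a) v) = Matrix.vecMul (eps v) (gmat a) := by
  funext h
  change (Matrix.vecMul v (Matrix.of fun _ _ => a) 0).coeff h = _
  rw [Matrix.vecMul, dotProduct, Fin.sum_univ_one, Matrix.of_apply, Matrix.vecMul, dotProduct]
  change (v 0 * a).coeff h = ∑ g, (v 0).coeff g * a.coeff (g⁻¹ * h)
  generalize v 0 = b
  induction b using MonoidAlgebra.induction_linear with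
  | zero => simp
  | add x y hx hy => simp [add_mul, hx, hy, Finset.sum_add_distrib]
  | single g c =>
    classical
    rw [MonoidAlgebra.coeff_single_mul_apply, Finset.sum_eq_single g]
    · simp
    · intro k _ hk
      rw [MonoidAlgebra.coeff_single, Finsupp.single_apply, if_neg hk.symm, zero_mul]
    · simp

theorem index_vecMul {I : Type} [Fintype I] [DecidableEq I] (A : Matrix I I ℤ) (hA : A.det ≠ 0) :
    Nat.card ((I → ℤ) ⧸ LinearMap.range (Matrix.vecMulLinear A)) = A.det.natAbs := by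
  have hinj : Function.Injective (Matrix.vecMulLinear A) := by
    rw [← LinearMap.ker_eq_bot, LinearMap.ker_eq_bot']
    intro v hv
    exact Matrix.eq_zero_of_vecMul_eq_zero hA hv
  rw [← Submodule.natAbs_det_equiv _ (LinearEquiv.ofInjective (Matrix.vecMulLinear A) hinj)]
  have h1 : (LinearMap.range (Matrix.vecMulLinear A)).subtype ∘ₗ
      AddMonoidHom.toIntLinearMap (LinearEquiv.ofInjective (Matrix.vecMulLinear A) hinj :
        (I → ℤ) →+ _) = Matrix.toLin' A.transpose := by
    ext v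
    simp
  rw [h1, LinearMap.det_toLin', Matrix.det_transpose]

theorem index_rg [DecidableEq Q] (a : MonoidAlgebra ℤ Q) (h : (gmat a).det ≠ 0) :
    (rg (Matrix.of fun _ _ => a : Matrix (Fin 1) (Fin 1) (MonoidAlgebra ℤ Q))).index
      = (gmat a).det.natAbs := by
  rw [← index_vecMul _ h]
  have h1 : (rg (Matrix.of fun _ _ => a : Matrix (Fin 1) (Fin 1) (MonoidAlgebra ℤ Q))).map
      (eps (Q := Q) : _ →+ _)
      = (LinearMap.range (Matrix.vecMulLinear (gmat a))).toAddSubgroup := by
    ext x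
    constructor
    · rintro ⟨_, ⟨w, rfl⟩, rfl⟩
      exact ⟨eps w, (eps_vm a w).symm⟩
    · rintro ⟨w, rfl⟩
      obtain ⟨w, rfl⟩ := (eps (Q := Q)).surjective w
      exact ⟨_, ⟨w, rfl⟩, eps_vm a w⟩
  rw [← AddSubgroup.index_map_equiv _ (eps (Q := Q)), h1]
  rfl

end

end Pool.Agent.Helper993.Tors
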